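import Pool.Agent.X192.HV.Core
import Pool.Agent.TH703.Cone.Exist

set_option autoImplicit false

/-! # Transfer to Euclidean space -/

namespace Pool.Agent.X192.HV

open Pool.Agent.TH703.Cone MeasureTheory Set Metric Filter Topology
open scoped ENNReal Pointwise

section

variable {E F : Type*} [NormedAddCommGroup E] [InnerProductSpace ℝ E]
  [NormedAddCommGroup F] [InnerProductSpace ℝ F]

lemma fderiv_conj (e : E ≃ₗᵢ[ℝ] F) {φ : E → E} (hφ : Differentiable ℝ φ) (y : F) :
    fderiv ℝ (fun y => e (φ (e.symm y))) y =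
      ((e : E →L[ℝ] F).comp (fderiv ℝ φ (e.symm y))).comp (e.symm : F →L[ℝ] E) := by
  have h1 : HasFDerivAt (fun y : F => e.symm y) (e.symm : F →L[ℝ] E) y :=
    (e.symm : F →L[ℝ] E).hasFDerivAt
  have h2 : HasFDerivAt φ (fderiv ℝ φ (e.symm y)) (e.symm y) := (hφ _).hasFDerivAt
  have h3 := h2.comp y h1
  have h4 : HasFDerivAt (fun x : E => e x) (e : E →L[ℝ] F) (φ (e.symm y)) :=
    (e : E →L[ℝ] F).hasFDerivAt
  exact (h4.comp y h3).fderiv

lemma dv_conj (e : E ≃ₗᵢ[ℝ] F) {φ : E → E} (hφ : Differentiable ℝ φ) (y : F) :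
    dv (fun y => e (φ (e.symm y))) y = dv φ (e.symm y) := by
  unfold dv
  rw [fderiv_conj e hφ]
  have h : (((e : E →L[ℝ] F).comp (fderiv ℝ φ (e.symm y))).comp (e.symm : F →L[ℝ] E)).toLinearMap =
      e.toLinearEquiv.conj (fderiv ℝ φ (e.symm y)).toLinearMap := by
    ext v
    rfl
  rw [h, LinearMap.trace_conj']

lemma tst_conj (e : E ≃ₗᵢ[ℝ] F) {Ω : Set E} {φ : E → E} (h : Tst Ω φ) :
    Tst (e.symm ⁻¹' Ω) (fun y => e (φ (e.symm y))) := by
  have hsupp : tsupport (fun y => e (φ (e.symm y))) ⊆ e.symm ⁻¹' tsupport φ := by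
    apply closure_minimal
    · intro y hy
      apply subset_closure
      intro h0
      apply hy
      change e (φ (e.symm y)) = 0
      rw [h0, map_zero]
    · exact (isClosed_tsupport φ).preimage e.symm.continuous
  refine ⟨?_, ?_, ?_, ?_⟩
  · exact e.contDiff.comp (h.c1.comp e.symm.contDiff)
  · have hk : IsCompact (e.symm ⁻¹' tsupport φ) := by
      have := h.cs.isCompact.image e.continuous
      convert this using 1
      ext y
      constructor
      · intro hy
        exact ⟨e.symm y, hy, e.apply_symm_apply y⟩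
      · rintro ⟨x, hx, rfl⟩
        change e.symm (e x) ∈ tsupport φ
        rwa [e.symm_apply_apply]
    exact hk.of_isClosed_subset (isClosed_tsupport _) hsupp
  · exact fun y hy => h.sub (hsupp hy)
  · intro y
    rw [e.norm_map]
    exact h.le _

end

section

variable {E : Type*} [NormedAddCommGroup E] [InnerProductSpace ℝ E]

lemma oCone_interior (Γ : ConvexCone ℝ E) : OCone (interior (Γ : Set E)) where
  op := isOpen_interior
  sm := by
    intro z hz t ht
    have h1 : IsOpen (t • interior (Γ : Set E)) := isOpen_interior.smul₀ ht.ne'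
    have h2 : t • interior (Γ : Set E) ⊆ Γ := by
      rintro _ ⟨y, hy, rfl⟩
      exact Γ.smul_mem ht (interior_subset hy)
    exact interior_maximal h2 h1 (smul_mem_smul_set hz)
  ad := by
    intro z hz w hw
    have h1 : IsOpen (interior (Γ : Set E) + interior (Γ : Set E)) := isOpen_interior.add_left
    have h2 : interior (Γ : Set E) + interior (Γ : Set E) ⊆ Γ := by
      rintro _ ⟨x, hx, y, hy, rfl⟩
      exact Γ.add_mem (interior_subset hx) (interior_subset hy)
    exact interior_maximal h2 h1 (add_mem_add hz hw)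

lemma OCone.preimage {E' : Type*} [NormedAddCommGroup E'] [InnerProductSpace ℝ E'] {G : Set E}
    (h : OCone G) (e : E' ≃ₗᵢ[ℝ] E) : OCone (e ⁻¹' G) where
  op := h.op.preimage e.continuous
  sm := by
    intro z hz t ht
    change e (t • z) ∈ G
    rw [map_smul]
    exact h.sm _ hz t ht
  ad := by
    intro z hz w hw
    change e (z + w) ∈ G
    rw [map_add]
    exact h.ad _ hz _ hw

end

lemma neg_mem_Om {b : ℕ} {ε : ℝ} {z : W b} (h : z ∈ Om b ε) : -z ∈ Om b ε := by
  change ‖(-z).fst‖ + ‖(-z).snd‖ / ε < 1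
  have h1 : ‖(-z).fst‖ = ‖z.fst‖ := norm_neg z.fst
  have h2 : ‖(-z).snd‖ = ‖z.snd‖ := norm_neg z.snd
  rw [h1, h2]
  exact h

lemma zero_mem_Om (b : ℕ) (ε : ℝ) : (0 : W b) ∈ Om b ε := by
  change ‖(0 : ℂ)‖ + ‖(0 : B b)‖ / ε < 1
  simp

/-- **The disproof.** -/
theorem disproof : ¬ (∃ c : ℝ, 0 < c ∧
      ∀ (n : ℕ) (Ω E : Set (EuclideanSpace ℝ (Fin n))),
        IsOpen Ω → Ω.Nonempty → Convex ℝ Ω → Bornology.IsBounded Ω →
        (∀ x ∈ Ω, -x ∈ Ω) →
        MeasurableSet E → E ⊆ Ω →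
        MeasureTheory.volume E = MeasureTheory.volume Ω / 2 →
        (∀ F : Set (EuclideanSpace ℝ (Fin n)), MeasurableSet F → F ⊆ Ω →
          MeasureTheory.volume F = MeasureTheory.volume E →
          ∀ φ : EuclideanSpace ℝ (Fin n) → EuclideanSpace ℝ (Fin n),
            ContDiff ℝ 1 φ → HasCompactSupport φ → tsupport φ ⊆ Ω →
            (∀ x, ‖φ x‖ ≤ 1) →
            ∀ ε : ℝ, 0 < ε →
              ∃ ψ : EuclideanSpace ℝ (Fin n) → EuclideanSpace ℝ (Fin n),
                ContDiff ℝ 1 ψ ∧ HasCompactSupport ψ ∧ tsupport ψ ⊆ Ω ∧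
                (∀ x, ‖ψ x‖ ≤ 1) ∧
                (∫ x in E, LinearMap.trace ℝ (EuclideanSpace ℝ (Fin n))
                    (fderiv ℝ φ x).toLinearMap) ≤
                  (∫ x in F, LinearMap.trace ℝ (EuclideanSpace ℝ (Fin n))
                    (fderiv ℝ ψ x).toLinearMap) + ε) →
        ∃ Γ : ConvexCone ℝ (EuclideanSpace ℝ (Fin n)),
          MeasureTheory.volume ((Ω ∩ (Γ : Set (EuclideanSpace ℝ (Fin n)))) \ E) = 0 ∧
          MeasureTheory.volume ((Ω ∩ {x | -x ∈ Γ}) ∩ E) = 0 ∧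
          ENNReal.ofReal c * MeasureTheory.volume Ω ≤
            MeasureTheory.volume (Ω ∩ (Γ : Set (EuclideanSpace ℝ (Fin n))))) := by
  rintro ⟨c, hc, H⟩
  have hc' : 0 < min c 1 := lt_min hc one_pos
  obtain ⟨b, ε, hb, hε, A₀, P₀, hA₀m, hA₀O, hA₀v, hA₀P, hcore⟩ := core hc' (min_le_right _ _)
  obtain ⟨A, I, hAm, hAO, hAv, hAP, hmin⟩ := exist (W b) (t1 (W b)) (Om b ε) A₀ P₀
    (isOpen_Om b ε) (convex_Om b hε) (zero_mem_Om b ε) (bdd_Om b hε) hA₀m hA₀O hA₀P
  have hIP : I ≤ P₀ := hmin A₀ P₀ hA₀m hA₀O rfl hA₀P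
  set n := Module.finrank ℝ (W b) with hn
  set e : W b ≃ₗᵢ[ℝ] EuclideanSpace ℝ (Fin n) := (stdOrthonormalBasis ℝ (W b)).repr with he
  have hmp : MeasurePreserving e volume volume := e.measurePreserving
  have hmps : MeasurePreserving e.symm volume volume := e.symm.measurePreserving
  have hemb : MeasurableEmbedding e := e.toHomeomorph.measurableEmbedding
  have hembs : MeasurableEmbedding e.symm := e.symm.toHomeomorph.measurableEmbedding
  have hvol : ∀ S : Set (W b), MeasurableSet S → volume (e.symm ⁻¹' S) = volume S := fun S hS =>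
    hmps.measure_preimage hS.nullMeasurableSet
  have hvol' : ∀ S : Set (EuclideanSpace ℝ (Fin n)), MeasurableSet S →
      volume (e ⁻¹' S) = volume S := fun S hS => hmp.measure_preimage hS.nullMeasurableSet
  have hint : ∀ (S : Set (EuclideanSpace ℝ (Fin n))) (φ : W b → W b), Differentiable ℝ φ →
      ∫ y in S, dv (fun y => e (φ (e.symm y))) y = ∫ x in e ⁻¹' S, dv φ x := by
    intro S φ hφ
    rw [← hmp.setIntegral_preimage_emb hemb]
    congr 1
    funext x
    rw [dv_conj e hφ, e.symm_apply_apply]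
  have hpre : ∀ S : Set (W b), e ⁻¹' (e.symm ⁻¹' S) = S := by
    intro S
    ext x
    change e.symm (e x) ∈ S ↔ x ∈ S
    rw [e.symm_apply_apply]
  have hOm := measurableSet_Om b ε
  have hE'm : MeasurableSet (e.symm ⁻¹' A) := hembs.measurable hAm
  have hO'm : MeasurableSet (e.symm ⁻¹' Om b ε) := hembs.measurable hOm
  obtain ⟨Γ, hΓ1, hΓ2, hΓ3⟩ := H n (e.symm ⁻¹' Om b ε) (e.symm ⁻¹' A)
    ((isOpen_Om b ε).preimage e.symm.continuous)
    ⟨0, by rw [mem_preimage, map_zero]; exact zero_mem_Om b ε⟩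
    ((convex_Om b hε).linear_preimage e.symm.toLinearEquiv.toLinearMap)
    (e.symm.antilipschitz.isBounded_preimage (bdd_Om b hε))
    (fun x hx => by
      change e.symm (-x) ∈ Om b ε
      rw [map_neg]
      exact neg_mem_Om hx)
    hE'm (preimage_mono hAO)
    (by rw [hvol _ hAm, hvol _ hOm, hAv, hA₀v])
    (by
      intro F' hF'm hF'O hF'v φ' hφ1 hφ2 hφ3 hφ4 δ hδ
      by_contra hcon
      push Not at hcon
      have hFO : e ⁻¹' F' ⊆ Om b ε := by
        intro z hz
        have := hF'O hz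
        change e.symm (e z) ∈ Om b ε at this
        rwa [e.symm_apply_apply] at this
      have hFv : volume (e ⁻¹' F') = volume A₀ := by
        rw [hvol' _ hF'm, hF'v, hvol _ hAm, hAv]
      have hQ : PLE (Om b ε) (e ⁻¹' F') ((∫ x in e.symm ⁻¹' A, dv φ' x) - δ) := by
        intro ψ hψ
        have h1 := tst_conj e hψ
        have h2 := hcon _ h1.c1 h1.cs h1.sub h1.le
        have h3 := hint F' ψ (hψ.c1.differentiable (by norm_num))
        have h4 : (∫ x in F', dv (fun y => e (ψ (e.symm y))) x) + δ <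
            ∫ x in e.symm ⁻¹' A, dv φ' x := h2
        rw [h3] at h4
        linarith
      have h5 := hmin _ _ (hemb.measurable hF'm) hFO hFv hQ
      have h6 : Tst (e.symm ⁻¹' Om b ε) φ' := ⟨hφ1, hφ2, hφ3, hφ4⟩
      have h7 := tst_conj e.symm h6
      have h8 : Tst (Om b ε) (fun x => e.symm (φ' (e x))) := by
        have h9 := hpre (Om b ε)
        rw [← h9]
        exact h7
      have h9 := hAP _ h8
      have h10 := hint (e.symm ⁻¹' A) _ (h8.c1.differentiable (by norm_num))
      rw [hpre] at h10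
      have h11 : (fun y => e (e.symm (φ' (e (e.symm y))))) = φ' := by
        funext y
        rw [e.apply_symm_apply, e.apply_symm_apply]
      rw [h11] at h10
      linarith)
  -- the interior of the cone
  have hG := (oCone_interior Γ).preimage e
  have hGo : IsOpen (interior (Γ : Set (EuclideanSpace ℝ (Fin n)))) := isOpen_interior
  apply hcore A I hAm hAO hAP hIP _ hG
  · have h1 : (Om b ε ∩ e ⁻¹' interior (Γ : Set (EuclideanSpace ℝ (Fin n)))) \ A =
        e ⁻¹' ((e.symm ⁻¹' Om b ε ∩ interior (Γ : Set (EuclideanSpace ℝ (Fin n)))) \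
          (e.symm ⁻¹' A)) := by
      rw [preimage_diff, preimage_inter, hpre, hpre]
    rw [h1, hvol' _ ((hO'm.inter hGo.measurableSet).diff hE'm)]
    exact measure_mono_null (diff_subset_diff_left (inter_subset_inter_right _ interior_subset)) hΓ1
  · have h1 : (Om b ε ∩ {z | -z ∈ e ⁻¹' interior (Γ : Set (EuclideanSpace ℝ (Fin n)))}) ∩ A =
        e ⁻¹' ((e.symm ⁻¹' Om b ε ∩ {x | -x ∈ interior (Γ : Set (EuclideanSpace ℝ (Fin n)))}) ∩
          (e.symm ⁻¹' A)) := by
      rw [preimage_inter, preimage_inter, hpre, hpre]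
      congr 2
      ext z
      change e (-z) ∈ interior (Γ : Set (EuclideanSpace ℝ (Fin n))) ↔
        -(e z) ∈ interior (Γ : Set (EuclideanSpace ℝ (Fin n)))
      rw [map_neg]
    have hGn : MeasurableSet {x | -x ∈ interior (Γ : Set (EuclideanSpace ℝ (Fin n)))} :=
      measurable_neg hGo.measurableSet
    rw [h1, hvol' _ ((hO'm.inter hGn).inter hE'm)]
    refine measure_mono_null ?_ hΓ2
    intro x hx
    have h3 : -x ∈ (Γ : Set (EuclideanSpace ℝ (Fin n))) := interior_subset (show -x ∈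
      interior (Γ : Set (EuclideanSpace ℝ (Fin n))) from hx.1.2)
    exact ⟨⟨hx.1.1, h3⟩, hx.2⟩
  · have h1 : Om b ε ∩ e ⁻¹' interior (Γ : Set (EuclideanSpace ℝ (Fin n))) =
        e ⁻¹' (e.symm ⁻¹' Om b ε ∩ interior (Γ : Set (EuclideanSpace ℝ (Fin n)))) := by
      rw [preimage_inter, hpre]
    rw [h1, hvol' _ (hO'm.inter hGo.measurableSet)]
    have h2 : volume (e.symm ⁻¹' Om b ε ∩ (Γ : Set (EuclideanSpace ℝ (Fin n)))) ≤
        volume (e.symm ⁻¹' Om b ε ∩ interior (Γ : Set (EuclideanSpace ℝ (Fin n)))) := by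
      calc volume (e.symm ⁻¹' Om b ε ∩ (Γ : Set (EuclideanSpace ℝ (Fin n))))
          ≤ volume ((e.symm ⁻¹' Om b ε ∩ interior (Γ : Set (EuclideanSpace ℝ (Fin n)))) ∪
            frontier (Γ : Set (EuclideanSpace ℝ (Fin n)))) := by
            apply measure_mono
            rintro x ⟨hx1, hx2⟩
            by_cases hx : x ∈ interior (Γ : Set (EuclideanSpace ℝ (Fin n)))
            · exact Or.inl ⟨hx1, hx⟩
            · exact Or.inr ⟨subset_closure hx2, hx⟩
        _ ≤ _ + volume (frontier (Γ : Set (EuclideanSpace ℝ (Fin n)))) := measure_union_le _ _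
        _ = _ := by rw [Γ.convex.addHaar_frontier volume, add_zero]
    refine le_trans ?_ h2
    refine le_trans ?_ hΓ3
    rw [hvol _ hOm]
    gcongr
    exact min_le_left _ _

end Pool.Agent.X192.HV
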