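import Pool.Agent.X192.HV.Fat

set_option autoImplicit false

/-! # Geometry of large cones -/

namespace Pool.Agent.X192.HV

open Pool.Agent.TH703.Cone MeasureTheory Set Metric
open scoped ENNReal RealInnerProductSpace Pointwise

/-- solving a planar linear system -/
lemma solve2 (p q ν : ℂ) (h : (p * (starRingEnd ℂ) q).im ≠ 0) :
    ∃ α β : ℝ, ν = α * p + β * q ∧
      |α| * |(p * (starRingEnd ℂ) q).im| ≤ ‖ν‖ * ‖q‖ ∧
      |β| * |(p * (starRingEnd ℂ) q).im| ≤ ‖ν‖ * ‖p‖ := by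
  set D := (p * (starRingEnd ℂ) q).im with hD
  have hDe : D = p.im * q.re - p.re * q.im := by
    rw [hD]
    simp [Complex.mul_im]
    ring
  refine ⟨(ν * (starRingEnd ℂ) q).im / D, -(ν * (starRingEnd ℂ) p).im / D, ?_, ?_, ?_⟩
  · have e1 : (ν * (starRingEnd ℂ) q).im = ν.im * q.re - ν.re * q.im := by
      simp [Complex.mul_im]
      ring
    have e2 : (ν * (starRingEnd ℂ) p).im = ν.im * p.re - ν.re * p.im := by
      simp [Complex.mul_im]
      ring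
    rw [e1, e2]
    apply Complex.ext
    · simp only [Complex.add_re, Complex.re_ofReal_mul]
      field_simp
      rw [hDe]
      ring
    · simp only [Complex.add_im, Complex.im_ofReal_mul]
      field_simp
      rw [hDe]
      ring
  · rw [abs_div, div_mul_cancel₀ _ (abs_ne_zero.2 h)]
    refine (Complex.abs_im_le_norm _).trans ?_
    rw [norm_mul, Complex.norm_conj]
  · rw [abs_div, abs_neg, div_mul_cancel₀ _ (abs_ne_zero.2 h)]
    refine (Complex.abs_im_le_norm _).trans ?_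
    rw [norm_mul, Complex.norm_conj]

/-- volumes of affine images of fibres -/
lemma vol_affine {b : ℕ} {S F : Set (B b)} {a : ℝ} (ha : 0 < a) (t : B b)
    (h : ∀ y ∈ S, t + a • y ∈ F) : ENNReal.ofReal (a ^ b) * volume S ≤ volume F := by
  have h1 : a • S ⊆ (fun y => t + y) ⁻¹' F := by
    rintro _ ⟨y, hy, rfl⟩
    exact h y hy
  have h2 := measure_mono (μ := volume) h1
  rw [measure_preimage_add, Measure.addHaar_smul, abs_of_pos (by positivity)] at h2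
  simpa using h2

/-- **T6** for `ε = 1`. -/
lemma cone1 {c K : ℝ} (hc0 : 0 < c) (hc1 : c ≤ 1) (hK : 2 ≤ K) {b : ℕ}
    (hb : 32768 * K ^ 2 / c ^ 3 ≤ b) (hb2 : 4 * K ≤ b) {r₀ : ℝ} (hr₀ : 0 < r₀) :
    ∃ σ η : ℝ, 0 < σ ∧ σ ≤ 1 / 2 ∧ 0 < η ∧ ∀ G : Set (W b), OCone G →
      ENNReal.ofReal c * volume (Om b 1) ≤ volume (Om b 1 ∩ G) →
      ∃ u : ℂ, ‖u‖ = 1 ∧ ∀ x ∈ Wp u σ r₀ ((K - 1) / b),
        ENNReal.ofReal (η * vb b 1) ≤ volume (fib (Om b 1 ∩ G) x) := by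
  have hb8 : (8 : ℝ) ≤ b := by linarith
  have hb1 : 1 ≤ b := by
    have : (1 : ℝ) ≤ b := by linarith
    exact_mod_cast this
  have hb0 : (0 : ℝ) < b := by linarith
  have hK0 : 0 < K := by linarith
  obtain ⟨m₀, d₀, hm₀, hd₀, hfat⟩ := fat hb1 hc0
  set δ := c / (8 * ((b : ℝ) + 2)) with hδ
  have hδ0 : 0 < δ := by positivity
  set s := min (δ / 4) (c / (1024 * K)) with hs
  have hs0 : 0 < s := lt_min (by positivity) (by positivity)
  have hsδ : s ≤ δ / 4 := min_le_left _ _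
  have hsc : s ≤ c / (1024 * K) := min_le_right _ _
  have hδ1 : δ ≤ 1 := by
    rw [hδ, div_le_one (by positivity)]
    linarith
  set σ := min (1 / 2) (s * d₀ / 12) with hσ
  have hσ0 : 0 < σ := lt_min (by norm_num) (by positivity)
  have hσd : σ ≤ s * d₀ / 12 := min_le_right _ _
  have hσ2 : σ ≤ 1 / 2 := min_le_left _ _
  have hvb : 0 < vb b 1 := vb_pos one_pos
  set η := (s * r₀ / 12) ^ b * m₀ / vb b 1 with hη
  have hη0 : 0 < η := by positivity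
  refine ⟨σ, η, hσ0, hσ2, hη0, fun G hG hv => ?_⟩
  obtain ⟨zb, hzb, hx1, hx2, hy⟩ := mean hb1 hc0 hG hv
  have hC : MeasurableSet (Om b 1 ∩ G) := (measurableSet_Om b 1).inter hG.op.measurableSet
  obtain ⟨p₁, p₂, hp1, ⟨y₂, hy₂⟩, hd⟩ := hfat _ hC inter_subset_left hv
  have hp2m : (WithLp.toLp 2 (p₂, y₂) : W b) ∈ Om b 1 ∩ G := hy₂
  have hp2a : ‖p₂‖ + ‖y₂‖ / 1 < 1 := hp2m.1
  rw [div_one] at hp2a
  have hp2n : ‖p₂‖ ≤ 1 := by linarith [norm_nonneg y₂]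
  have hy2n : ‖y₂‖ ≤ 1 := by linarith [norm_nonneg p₂]
  -- a point over `p₁`
  have hp1ne : (fib (Om b 1 ∩ G) p₁).Nonempty := by
    rw [nonempty_iff_ne_empty]
    intro h
    rw [h, measure_empty, nonpos_iff_eq_zero, ENNReal.ofReal_eq_zero] at hp1
    linarith
  obtain ⟨y₀, hy₀⟩ := hp1ne
  have hp1a : ‖p₁‖ + ‖y₀‖ / 1 < 1 := (show (WithLp.toLp 2 (p₁, y₀) : W b) ∈ Om b 1 ∩ G from hy₀).1
  rw [div_one] at hp1a
  have hp1n : ‖p₁‖ ≤ 1 := by linarith [norm_nonneg y₀]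
  set xb := zb.fst with hxb
  set yb := zb.snd with hyb
  change δ ≤ ‖xb‖ at hx1
  set M : ℂ := xb + s * (p₁ + p₂) with hM
  have hMd : ‖(s : ℂ) * (p₁ + p₂)‖ ≤ 2 * s := by
    rw [norm_mul, Complex.norm_real, Real.norm_of_nonneg hs0.le]
    have := norm_add_le p₁ p₂
    nlinarith
  have hM1 : δ / 2 ≤ ‖M‖ := by
    have h1 : ‖xb‖ ≤ ‖M‖ + ‖(s : ℂ) * (p₁ + p₂)‖ := by
      have : xb = M - s * (p₁ + p₂) := by rw [hM]; ring
      calc ‖xb‖ = ‖M - s * (p₁ + p₂)‖ := by rw [← this]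
        _ ≤ _ := norm_sub_le _ _
    linarith
  have hM2 : ‖M‖ ≤ 3 := by
    have h1 : ‖M‖ ≤ ‖xb‖ + ‖(s : ℂ) * (p₁ + p₂)‖ := norm_add_le _ _
    linarith
  have hM0 : 0 < ‖M‖ := lt_of_lt_of_le (by positivity) hM1
  have hMne : (‖M‖ : ℂ) ≠ 0 := by exact_mod_cast hM0.ne'
  refine ⟨(starRingEnd ℂ) M / ‖M‖, ?_, ?_⟩
  · rw [norm_div, Complex.norm_conj, Complex.norm_real, norm_norm, div_self hM0.ne']
  rintro x ⟨hxr, hxR, hxre, hxim⟩
  set u : ℂ := (starRingEnd ℂ) M / ‖M‖ with hu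
  have hun : ‖u‖ = 1 := by
    rw [hu, norm_div, Complex.norm_conj, Complex.norm_real, norm_norm, div_self hM0.ne']
  have hx0 : 0 < ‖x‖ := hr₀.trans_le hxr
  set a := (x * u).re with ha
  set i := (x * u).im with hi
  have hnx : a ^ 2 + i ^ 2 = ‖x‖ ^ 2 := by
    have : ‖x * u‖ = ‖x‖ := by rw [norm_mul, hun, mul_one]
    rw [← this, ← Complex.normSq_eq_norm_sq, Complex.normSq_apply]
    ring
  have hi2 : i ^ 2 ≤ (1 / 4) * ‖x‖ ^ 2 := by
    have h1 : |i| ≤ 1 / 2 * ‖x‖ := hxim.trans (by gcongr)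
    have h2 : |i| ^ 2 ≤ (1 / 2 * ‖x‖) ^ 2 := by gcongr
    rw [sq_abs] at h2
    linarith
  have ha2 : ‖x‖ / 2 ≤ a := by nlinarith
  have haU : a ≤ ‖x‖ := by
    have h1 : ‖x * u‖ = ‖x‖ := by rw [norm_mul, hun, mul_one]
    rw [← h1]
    exact Complex.re_le_norm _
  set lam := a / ‖M‖ with hlam
  have hlam0 : 0 < lam := div_pos hxre hM0
  have hlam6 : ‖x‖ / 6 ≤ lam := by
    rw [hlam, le_div_iff₀ hM0]
    nlinarith
  set ν : ℂ := ((i / ‖M‖ : ℝ) : ℂ) * Complex.I * M with hν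
  have hνn : ‖ν‖ = |i| := by
    rw [hν, norm_mul, norm_mul, Complex.norm_I, mul_one, Complex.norm_real, Real.norm_eq_abs,
      abs_div, abs_of_pos hM0, div_mul_cancel₀ _ hM0.ne']
  have hxeq : x = (lam : ℂ) * M + ν := by
    have e1 : x = (x * u) * (M / ‖M‖) := by
      have e2 : u * (M / ‖M‖) = 1 := by
        rw [hu, div_mul_div_comm, mul_comm ((starRingEnd ℂ) M), Complex.mul_conj,
          Complex.normSq_eq_norm_sq]
        push_cast
        field_simp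
      rw [mul_assoc, e2, mul_one]
    have e3 : x * u = (a : ℂ) + (i : ℂ) * Complex.I := (Complex.re_add_im _).symm
    rw [e1, e3, hlam, hν]
    push_cast
    field_simp
  have hD0 : (p₁ * (starRingEnd ℂ) p₂).im ≠ 0 := by
    intro h
    rw [h, abs_zero] at hd
    linarith
  obtain ⟨α, β, hab, hα, hβ⟩ := solve2 p₁ p₂ ν hD0
  have hνs : ‖ν‖ ≤ s * d₀ / 12 * ‖x‖ := by
    rw [hνn]
    exact hxim.trans (by gcongr)
  have hgen : ∀ γ q : ℝ, |γ| * |(p₁ * (starRingEnd ℂ) p₂).im| ≤ ‖ν‖ * q → q ≤ 1 → 0 ≤ q →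
      |γ| ≤ lam * s / 2 := by
    intro γ q h1 hq hq0
    have h2 : |γ| * d₀ ≤ ‖ν‖ := by
      calc |γ| * d₀ ≤ |γ| * |(p₁ * (starRingEnd ℂ) p₂).im| := by gcongr
        _ ≤ ‖ν‖ * q := h1
        _ ≤ ‖ν‖ * 1 := by gcongr
        _ = ‖ν‖ := mul_one _
    have h3 : |γ| * d₀ ≤ (s / 12 * ‖x‖) * d₀ := by
      calc |γ| * d₀ ≤ s * d₀ / 12 * ‖x‖ := h2.trans hνs
        _ = (s / 12 * ‖x‖) * d₀ := by ring
    have h4 : |γ| ≤ s / 12 * ‖x‖ := le_of_mul_le_mul_right h3 hd₀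
    nlinarith
  have hα' := abs_le.1 (hgen α ‖p₂‖ hα hp2n (norm_nonneg _))
  have hβ' := abs_le.1 (hgen β ‖p₁‖ hβ hp1n (norm_nonneg _))
  have hls : 0 < lam * s := mul_pos hlam0 hs0
  set a₁ := lam * s + α with ha₁
  set a₂ := lam * s + β with ha₂
  have ha1 : lam * s / 2 ≤ a₁ := by linarith [hα'.1]
  have ha1' : a₁ ≤ 3 * (lam * s) / 2 := by linarith [hα'.2]
  have ha2' : a₂ ≤ 3 * (lam * s) / 2 := by linarith [hβ'.2]
  have ha1p : 0 < a₁ := lt_of_lt_of_le (by positivity) ha1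
  have ha2p : 0 < a₂ := lt_of_lt_of_le (by positivity) (show lam * s / 2 ≤ a₂ by linarith [hβ'.1])
  have hxrep : x = (lam : ℂ) * xb + (a₁ : ℂ) * p₁ + (a₂ : ℂ) * p₂ := by
    rw [hxeq, hab, hM, ha₁, ha₂]
    push_cast
    ring
  -- size of `lam`
  have hlamU : lam ≤ 32 * K / c := by
    have h1 : lam ≤ ((K - 1) / b) / (δ / 2) := by
      rw [hlam]
      apply div_le_div₀ (by
        apply div_nonneg
        · linarith
        · exact hb0.le) (haU.trans hxR) (by positivity) hM1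
    refine h1.trans ?_
    have h2 : ((K - 1) / b) / (δ / 2) = 16 * (K - 1) * (b + 2) / (b * c) := by
      rw [hδ]
      field_simp
      ring
    rw [h2, div_le_div_iff₀ (by positivity) hc0]
    have h3 : (K - 1) * (b + 2) ≤ K * (2 * b) := by nlinarith
    nlinarith
  have hlams : lam * s ≤ 1 / 32 := by
    calc lam * s ≤ 32 * K / c * (c / (1024 * K)) := by gcongr
      _ = 1 / 32 := by field_simp; norm_num
  have hlamy : lam * ‖yb‖ ≤ 1 / 4 := by
    have h1 : (lam * ‖yb‖) ^ 2 ≤ (1 / 4) ^ 2 := by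
      calc (lam * ‖yb‖) ^ 2 = lam ^ 2 * ‖yb‖ ^ 2 := by ring
        _ ≤ (32 * K / c) ^ 2 * (2 / (c * b)) := by gcongr
        _ ≤ (1 / 4) ^ 2 := by
            have h3 : (32 * K / c) ^ 2 * (2 / (c * b)) = 32768 * K ^ 2 / c ^ 3 * (1 / 16) / b := by
              field_simp
              ring
            rw [h3, div_le_iff₀ hb0]
            nlinarith
    have h2 : 0 ≤ lam * ‖yb‖ := by positivity
    nlinarith
  have hxQ : ‖x‖ ≤ 1 / 4 := by
    refine hxR.trans ?_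
    rw [div_le_iff₀ hb0]
    linarith
  -- the fibre
  set t : B b := lam • yb + a₂ • y₂ with ht
  have hincl : ∀ y ∈ fib (Om b 1 ∩ G) p₁, t + a₁ • y ∈ fib (Om b 1 ∩ G) x := by
    intro y hyf
    have hm : (WithLp.toLp 2 (p₁, y) : W b) ∈ Om b 1 ∩ G := hyf
    have hya : ‖p₁‖ + ‖y‖ / 1 < 1 := hm.1
    rw [div_one] at hya
    have hyn : ‖y‖ ≤ 1 := by linarith [norm_nonneg p₁]
    have hg : lam • zb + (a₁ • (WithLp.toLp 2 (p₁, y) : W b) + a₂ • (WithLp.toLp 2 (p₂, y₂) : W b))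
        ∈ G := by
      apply hG.closure_add (hG.closure_smul hzb hlam0)
      exact hG.ad _ (hG.sm _ hm.2 _ ha1p) _ (hG.sm _ hp2m.2 _ ha2p)
    have heq : lam • zb + (a₁ • (WithLp.toLp 2 (p₁, y) : W b) +
        a₂ • (WithLp.toLp 2 (p₂, y₂) : W b)) = WithLp.toLp 2 (x, t + a₁ • y) := by
      apply (WithLp.equiv 2 _).injective
      apply Prod.ext
      · change lam • xb + (a₁ • p₁ + a₂ • p₂) = x
        rw [hxrep]
        simp only [Complex.real_smul]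
        ring
      · change lam • yb + (a₁ • y + a₂ • y₂) = t + a₁ • y
        rw [ht]
        abel
    rw [heq] at hg
    refine ⟨?_, hg⟩
    change ‖x‖ + ‖t + a₁ • y‖ / 1 < 1
    rw [div_one]
    have h1 : ‖t + a₁ • y‖ ≤ lam * ‖yb‖ + a₂ * ‖y₂‖ + a₁ * ‖y‖ := by
      refine (norm_add_le _ _).trans ?_
      rw [norm_smul, Real.norm_of_nonneg ha1p.le]
      have : ‖t‖ ≤ lam * ‖yb‖ + a₂ * ‖y₂‖ := by
        rw [ht]
        refine (norm_add_le _ _).trans ?_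
        rw [norm_smul, norm_smul, Real.norm_of_nonneg ha2p.le, Real.norm_of_nonneg hlam0.le]
      linarith
    have h2 : a₂ * ‖y₂‖ ≤ a₂ := by nlinarith
    have h3 : a₁ * ‖y‖ ≤ a₁ := by nlinarith
    linarith
  have hfin := vol_affine ha1p t hincl
  refine le_trans ?_ hfin
  calc ENNReal.ofReal (η * vb b 1) = ENNReal.ofReal ((s * r₀ / 12) ^ b) * ENNReal.ofReal m₀ := by
        rw [← ENNReal.ofReal_mul (by positivity), hη]
        congr 1
        field_simp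
    _ ≤ ENNReal.ofReal (a₁ ^ b) * volume (fib (Om b 1 ∩ G) p₁) := by
        gcongr
        have h1 : s * ‖x‖ / 6 ≤ lam * s := by nlinarith
        nlinarith

end Pool.Agent.X192.HV
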