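import Pool.Agent.X192.HV.Field

set_option autoImplicit false

/-! # The lower bound by the rotational field -/

namespace Pool.Agent.X192.HV

open Pool.Agent.TH703.Cone MeasureTheory Set Metric Filter Topology
open scoped ENNReal

/-- the limit density -/
noncomputable def hf (σ : ℝ) (κ : ℝ → ℝ) (u x : ℂ) : ℝ :=
  κ (‖x‖ ^ 2) * (ff σ ((x * u).im / ‖x‖) * (x * u).re / ‖x‖ ^ 2)

section

variable {σ r₀ R₁ : ℝ} {κ : ℝ → ℝ} {u : ℂ}

lemma measurable_hf (hκ : Continuous κ) : Measurable (hf σ κ u) := by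
  unfold hf
  have h1 : Measurable κ := hκ.measurable
  have h2 : Measurable (ff σ) := (continuous_ff σ).measurable
  have h3 : Measurable fun x : ℂ => (x * u).im := by fun_prop
  have h4 : Measurable fun x : ℂ => (x * u).re := by fun_prop
  have h5 : Measurable fun x : ℂ => ‖x‖ := by fun_prop
  exact (h1.comp (h5.pow_const 2)).mul (((h2.comp (h3.div h5)).mul h4).div (h5.pow_const 2))

lemma hf_rot (x : ℂ) (hu : ‖u‖ = 1) : hf σ κ u x = hf σ κ 1 (u * x) := by
  unfold hf
  rw [norm_mul, hu, one_mul, mul_one, mul_comm u x]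

lemma abs_hf_le (hσ : 0 < σ) (hr₀ : 0 < r₀) (hu : ‖u‖ = 1) (hκ01 : ∀ t, 0 ≤ κ t ∧ κ t ≤ 1)
    (hκ0 : ∀ t, t ≤ r₀ ^ 2 ∨ R₁ ^ 2 ≤ t → κ t = 0) (x : ℂ) :
    |hf σ κ u x| ≤ 3 / (2 * σ * r₀) := by
  by_cases hx : ‖x‖ ≤ r₀
  · have h2 : κ (‖x‖ ^ 2) = 0 := by
      apply hκ0
      left
      have := norm_nonneg x
      nlinarith
    have h3 : hf σ κ u x = 0 := by simp [hf, h2]
    rw [h3, abs_zero]
    positivity
  · push Not at hx
    have hx0 : 0 < ‖x‖ := hr₀.trans hx
    have g1 := (hκ01 (‖x‖ ^ 2))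
    have g2 : |(x * u).re| ≤ ‖x‖ := abs_re_le hu
    have g3 := ff_nonneg hσ ((x * u).im / ‖x‖)
    have g4 := ff_le hσ ((x * u).im / ‖x‖)
    unfold hf
    rw [abs_mul, abs_of_nonneg g1.1, abs_div, abs_mul, abs_of_nonneg g3,
      abs_of_nonneg (by positivity : 0 ≤ ‖x‖ ^ 2)]
    calc κ (‖x‖ ^ 2) * (ff σ ((x * u).im / ‖x‖) * |(x * u).re| / ‖x‖ ^ 2)
        ≤ 1 * (3 / (2 * σ) * ‖x‖ / ‖x‖ ^ 2) := by gcongr; exact g1.2
      _ = 3 / (2 * σ * ‖x‖) := by field_simp
      _ ≤ 3 / (2 * σ * r₀) := by gcongr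

lemma hf_pos_mem (hσ : 0 < σ) (hr₀ : 0 < r₀) (hR : r₀ < R₁)
    (hκ01 : ∀ t, 0 ≤ κ t ∧ κ t ≤ 1)
    (hκ0 : ∀ t, t ≤ r₀ ^ 2 ∨ R₁ ^ 2 ≤ t → κ t = 0) {x : ℂ} (h : 0 < hf σ κ u x) :
    x ∈ Wp u σ r₀ R₁ := by
  have hk : κ (‖x‖ ^ 2) ≠ 0 := by
    intro h'
    rw [hf, h', zero_mul] at h
    exact lt_irrefl _ h
  have hf0 : ff σ ((x * u).im / ‖x‖) ≠ 0 := by
    intro h'
    rw [hf, h', zero_mul, zero_div, mul_zero] at h
    exact lt_irrefl _ h
  have h1 : r₀ ≤ ‖x‖ := by
    by_contra h'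
    push Not at h'
    apply hk
    apply hκ0
    left
    have := norm_nonneg x
    nlinarith
  have h2 : ‖x‖ ≤ R₁ := by
    by_contra h'
    push Not at h'
    apply hk
    apply hκ0
    right
    have : 0 < R₁ := hr₀.trans hR
    nlinarith
  have hx0 : 0 < ‖x‖ := hr₀.trans_le h1
  refine ⟨h1, h2, ?_, ?_⟩
  · by_contra h'
    push Not at h'
    have g1 := (hκ01 (‖x‖ ^ 2)).1
    have g3 := ff_nonneg hσ ((x * u).im / ‖x‖)
    have : hf σ κ u x ≤ 0 := by
      unfold hf
      apply mul_nonpos_of_nonneg_of_nonpos g1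
      apply div_nonpos_of_nonpos_of_nonneg _ (by positivity)
      exact mul_nonpos_of_nonneg_of_nonpos g3 h'
    linarith
  · by_contra h'
    push Not at h'
    apply hf0
    apply ff_zero hσ
    rw [abs_div, abs_norm, le_div_iff₀ hx0]
    exact h'.le

lemma hf_neg (x : ℂ) : hf σ κ u (-x) = - hf σ κ u x := by
  unfold hf
  rw [norm_neg, neg_mul, Complex.neg_im, Complex.neg_re, neg_div, ff_neg]
  ring

lemma plane (hσ : 0 < σ) (hσ1 : σ ≤ 1) (hr₀ : 0 < r₀) (hR : r₀ < R₁) (hR1 : R₁ < 1)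
    (hu : ‖u‖ = 1) (hκ : Continuous κ) (hκ01 : ∀ t, 0 ≤ κ t ∧ κ t ≤ 1) (b : ℕ) :
    ENNReal.ofReal (2 * ∫ ρ in r₀..R₁, κ (ρ ^ 2) * (1 - ρ) ^ b) ≤
      ∫⁻ x in ball (0 : ℂ) 1, ENNReal.ofReal (hf σ κ u x) * ENNReal.ofReal ((1 - ‖x‖) ^ b) := by
  set f : ℂ → ℝ≥0∞ := (ball (0 : ℂ) 1).indicator
    (fun x => ENNReal.ofReal (hf σ κ 1 x) * ENNReal.ofReal ((1 - ‖x‖) ^ b)) with hfd
  have hfm : Measurable f := by
    apply Measurable.indicator _ measurableSet_ball
    exact (measurable_hf hκ).ennreal_ofReal.mul (by fun_prop)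
  set w : Circle := ⟨u, mem_sphere_zero_iff_norm.2 hu⟩ with hw
  set R := rotation w with hRd
  have hRa : ∀ x : ℂ, R x = u * x := fun x => rotation_apply w x
  have e1 : ∫⁻ x in ball (0 : ℂ) 1, ENNReal.ofReal (hf σ κ u x) * ENNReal.ofReal ((1 - ‖x‖) ^ b) =
      ∫⁻ x, f x := by
    rw [← R.measurePreserving.lintegral_comp hfm, ← lintegral_indicator measurableSet_ball]
    refine lintegral_congr fun x => ?_
    have hn : ‖R x‖ = ‖x‖ := R.norm_map x
    by_cases hx : x ∈ ball (0 : ℂ) 1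
    · have hx' : R x ∈ ball (0 : ℂ) 1 := by
        rw [mem_ball_zero_iff] at hx ⊢
        rwa [hn]
      rw [indicator_of_mem hx, hfd, indicator_of_mem hx', hn, hRa, hf_rot x hu]
    · have hx' : R x ∉ ball (0 : ℂ) 1 := by
        rw [mem_ball_zero_iff] at hx ⊢
        rwa [hn]
      rw [indicator_of_notMem hx, hfd, indicator_of_notMem hx']
  rw [e1, ← Complex.lintegral_comp_polarCoord_symm]
  have hpi := Real.pi_pos
  set S : Set (ℝ × ℝ) := Ioo (0 : ℝ) 1 ×ˢ Ioc (-(Real.pi / 2)) (Real.pi / 2) with hS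
  have hSm : MeasurableSet S := measurableSet_Ioo.prod measurableSet_Ioc
  have hSsub : S ⊆ polarCoord.target := by
    rw [polarCoord_target]
    rintro ⟨ρ, θ⟩ ⟨h1, h2⟩
    exact ⟨h1.1, by have := h2.1; simp only at this; linarith,
      by have := h2.2; simp only at this; linarith⟩
  have hg1 : Continuous fun ρ : ℝ => κ (ρ ^ 2) * (1 - ρ) ^ b := by fun_prop
  have hlow : ENNReal.ofReal (∫ ρ in r₀..R₁, κ (ρ ^ 2) * (1 - ρ) ^ b) ≤
      ∫⁻ ρ in Ioo (0 : ℝ) 1, ENNReal.ofReal (κ (ρ ^ 2) * (1 - ρ) ^ b) := by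
    rw [intervalIntegral.integral_of_le hR.le, ofReal_integral_eq_lintegral_ofReal]
    · apply lintegral_mono_set
      exact fun ρ hρ => ⟨hr₀.trans hρ.1, hρ.2.trans_lt hR1⟩
    · have : IntegrableOn (fun ρ : ℝ => κ (ρ ^ 2) * (1 - ρ) ^ b) (Icc r₀ R₁) :=
        hg1.integrableOn_Icc
      exact this.mono_set Ioc_subset_Icc_self
    · refine (ae_restrict_iff' measurableSet_Ioc).2 (Filter.Eventually.of_forall fun ρ hρ => ?_)
      exact mul_nonneg (hκ01 _).1 (pow_nonneg (by linarith [hρ.2]) _)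
  calc ENNReal.ofReal (2 * ∫ ρ in r₀..R₁, κ (ρ ^ 2) * (1 - ρ) ^ b)
      = ENNReal.ofReal (∫ ρ in r₀..R₁, κ (ρ ^ 2) * (1 - ρ) ^ b) * 2 := by
        rw [mul_comm, ENNReal.ofReal_mul']
        · simp
        · norm_num
    _ ≤ (∫⁻ ρ in Ioo (0 : ℝ) 1, ENNReal.ofReal (κ (ρ ^ 2) * (1 - ρ) ^ b)) *
        ∫⁻ θ in Ioc (-(Real.pi / 2)) (Real.pi / 2),
          ENNReal.ofReal (ff σ (Real.sin θ) * Real.cos θ) := by
        rw [lintegral_angle hσ hσ1]
        gcongr
    _ = ∫⁻ p in S, ENNReal.ofReal (κ (p.1 ^ 2) * (1 - p.1) ^ b) *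
          ENNReal.ofReal (ff σ (Real.sin p.2) * Real.cos p.2) := by
        rw [hS, Measure.volume_eq_prod, ← Measure.prod_restrict,
          lintegral_prod_mul (f := fun ρ => ENNReal.ofReal (κ (ρ ^ 2) * (1 - ρ) ^ b))
            (g := fun θ => ENNReal.ofReal (ff σ (Real.sin θ) * Real.cos θ))]
        · exact hg1.measurable.ennreal_ofReal.aemeasurable
        · have : Continuous fun θ : ℝ => ff σ (Real.sin θ) * Real.cos θ :=
            ((continuous_ff σ).comp Real.continuous_sin).mul Real.continuous_cos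
          exact this.measurable.ennreal_ofReal.aemeasurable
    _ ≤ ∫⁻ p in S, ENNReal.ofReal p.1 • f (Complex.polarCoord.symm p) := by
        refine setLIntegral_mono' hSm ?_
        rintro ⟨ρ, θ⟩ ⟨h1, h2⟩
        have hρ0 : 0 < ρ := h1.1
        have hρ1 : ρ < 1 := h1.2
        have hn : ‖Complex.polarCoord.symm (ρ, θ)‖ = ρ := by
          rw [Complex.norm_polarCoord_symm, abs_of_pos hρ0]
        have hmem : Complex.polarCoord.symm (ρ, θ) ∈ ball (0 : ℂ) 1 := by
          rw [mem_ball_zero_iff, hn]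
          exact hρ1
        have hre : (Complex.polarCoord.symm (ρ, θ)).re = ρ * Real.cos θ := by
          rw [Complex.polarCoord_symm_apply]
          simp [Complex.cos_ofReal_re, Complex.sin_ofReal_im]
        have him : (Complex.polarCoord.symm (ρ, θ)).im = ρ * Real.sin θ := by
          rw [Complex.polarCoord_symm_apply]
          simp [Complex.cos_ofReal_re, Complex.sin_ofReal_re]
        have hval : hf σ κ 1 (Complex.polarCoord.symm (ρ, θ)) =
            κ (ρ ^ 2) * (ff σ (Real.sin θ) * Real.cos θ / ρ) := by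
          unfold hf
          rw [mul_one, hn, hre, him, mul_div_cancel_left₀ _ hρ0.ne']
          field_simp
        rw [hfd, indicator_of_mem hmem, hn, hval, smul_eq_mul]
        have h3 : 0 ≤ κ (ρ ^ 2) := (hκ01 _).1
        have h4 : 0 ≤ (1 - ρ) ^ b := pow_nonneg (by linarith) _
        have h5 : 0 ≤ ff σ (Real.sin θ) := ff_nonneg hσ _
        have h6 : 0 ≤ Real.cos θ := Real.cos_nonneg_of_mem_Icc ⟨h2.1.le, h2.2⟩
        rw [← ENNReal.ofReal_mul (by positivity), ← ENNReal.ofReal_mul (by positivity),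
          ← ENNReal.ofReal_mul hρ0.le]
        apply ENNReal.ofReal_le_ofReal
        apply le_of_eq
        field_simp
    _ ≤ ∫⁻ p in polarCoord.target, ENNReal.ofReal p.1 • f (Complex.polarCoord.symm p) :=
        lintegral_mono_set hSsub

end

/-- **T4.** -/
theorem t4 : S_T4 := by
  intro b ε P A u σ r₀ R₁ κ hb hε hA hAO hPLE hu hσ hσ2 hr₀ hR hR1 hκ hκ01 hκ0
  have hσ1 : σ ≤ 1 := by linarith
  set M : ℝ := 3 / (2 * σ * r₀) with hM
  have hM0 : 0 < M := by positivity
  have hOm := measurableSet_Om b ε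
  have hOfin : volume (Om b ε) < ∞ := (bdd_Om b hε).measure_lt_top
  have hAfin : volume A < ∞ := (measure_mono hAO).trans_lt hOfin
  have hm : Measurable fun z : W b => hf σ κ u z.fst := (measurable_hf hκ.continuous).comp (by fun_prop)
  have hbd : ∀ z : W b, |hf σ κ u z.fst| ≤ M := fun z => abs_hf_le hσ hr₀ hu hκ01 hκ0 z.fst
  -- the limit of the test fields
  have h2 : ∫ z in A, hf σ κ u z.fst ≤ P := by
    have hdn : ∀ n : ℕ, (0 : ℝ) < 1 / ((n : ℝ) + 1) := fun n => by positivity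
    have hlim : Tendsto (fun n : ℕ => ∫ z in A, Df b ε (1 / ((n : ℝ) + 1)) σ κ u z) atTop
        (𝓝 (∫ z in A, hf σ κ u z.fst)) := by
      have hDle : ∀ (n : ℕ) (z : W b), Df b ε (1 / ((n : ℝ) + 1)) σ κ u z = Real.smoothTransition
          (((1 - ‖z.fst‖) ^ 2 - (‖z.snd‖ / ε) ^ 2) / (1 / ((n : ℝ) + 1)) - 1) * hf σ κ u z.fst := by
        intro n z
        unfold Df hf
        ring
      apply tendsto_integral_of_dominated_convergence (fun _ => M)
      · intro n
        apply Measurable.aestronglyMeasurable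
        rw [funext (hDle n)]
        apply Measurable.mul _ hm
        exact Real.smoothTransition.continuous.measurable.comp (by fun_prop)
      · rw [integrable_const_iff]
        right
        exact isFiniteMeasure_restrict.2 hAfin.ne
      · intro n
        refine Filter.Eventually.of_forall fun z => ?_
        rw [hDle, norm_mul, Real.norm_of_nonneg (Real.smoothTransition.nonneg _), Real.norm_eq_abs]
        have g1 := Real.smoothTransition.le_one
          (((1 - ‖z.fst‖) ^ 2 - (‖z.snd‖ / ε) ^ 2) / (1 / ((n : ℝ) + 1)) - 1)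
        have g2 := hbd z
        have g3 := abs_nonneg (hf σ κ u z.fst)
        nlinarith
      · refine (ae_restrict_iff' hA).2 (Filter.Eventually.of_forall fun z hz => ?_)
        have hz2 : ‖z.fst‖ + ‖z.snd‖ / ε < 1 := hAO hz
        have hq : 0 < (1 - ‖z.fst‖) ^ 2 - (‖z.snd‖ / ε) ^ 2 := by
          have : 0 ≤ ‖z.snd‖ / ε := by positivity
          nlinarith
        obtain ⟨N, hN⟩ := exists_nat_ge (2 / ((1 - ‖z.fst‖) ^ 2 - (‖z.snd‖ / ε) ^ 2))
        apply tendsto_const_nhds.congr'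
        filter_upwards [eventually_ge_atTop N] with n hn
        rw [hDle, Real.smoothTransition.one_of_one_le, one_mul]
        have hn' : (N : ℝ) ≤ n := by exact_mod_cast hn
        have h3 : 2 / ((1 - ‖z.fst‖) ^ 2 - (‖z.snd‖ / ε) ^ 2) ≤ (n : ℝ) + 1 := by linarith
        rw [div_le_iff₀ hq] at h3
        rw [div_div_eq_mul_div, div_one]
        nlinarith
    refine le_of_tendsto' hlim fun n => ?_
    have h3 := hPLE _ (tst_field (u := u) (δ := 1 / ((n : ℝ) + 1)) hε (hdn n) hσ hr₀ hR hR1 hκ hκ01 hκ0)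
    simpa only [dv_field hr₀ hκ hκ0] using h3
  -- the lower bound
  set S1 : Set (W b) := {z | z ∈ Om b ε \ A ∧ z.fst ∈ Wp u σ r₀ R₁} with hS1
  set S2 : Set (W b) := {z | z ∈ A ∧ -z.fst ∈ Wp u σ r₀ R₁} with hS2
  have hWm : MeasurableSet (Wp u σ r₀ R₁) := by
    unfold Wp
    have m1 : MeasurableSet {x : ℂ | r₀ ≤ ‖x‖} := (isClosed_le continuous_const continuous_norm).measurableSet
    have m2 : MeasurableSet {x : ℂ | ‖x‖ ≤ R₁} := (isClosed_le continuous_norm continuous_const).measurableSet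
    have m3 : MeasurableSet {x : ℂ | 0 < (x * u).re} :=
      (isOpen_lt continuous_const (by fun_prop)).measurableSet
    have m4 : MeasurableSet {x : ℂ | |(x * u).im| ≤ σ * ‖x‖} :=
      (isClosed_le (by fun_prop) (by fun_prop)).measurableSet
    exact m1.inter (m2.inter (m3.inter m4))
  have hS1m : MeasurableSet S1 := by
    have : Measurable fun z : W b => z.fst := by fun_prop
    exact (hOm.diff hA).inter (this hWm)
  have hS2m : MeasurableSet S2 := by
    have : Measurable fun z : W b => -z.fst := by fun_prop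
    exact hA.inter (this hWm)
  have hS1f : volume S1 < ∞ := (measure_mono fun z hz => hz.1.1).trans_lt hOfin
  have hS2f : volume S2 < ∞ := (measure_mono fun z hz => hz.1).trans_lt hAfin
  have hint : ∀ (T : Set (W b)), MeasurableSet T → volume T < ∞ → ∀ g : W b → ℝ, Measurable g →
      (∀ z, |g z| ≤ M) → Integrable (T.indicator g) := by
    intro T hT hTf g hg hgM
    rw [integrable_indicator_iff hT]
    have : IsFiniteMeasure (volume.restrict T) := isFiniteMeasure_restrict.2 hTf.ne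
    exact Integrable.of_bound hg.aestronglyMeasurable M (Filter.Eventually.of_forall hgM)
  have hpm : Measurable fun z : W b => max (hf σ κ u z.fst) 0 := hm.max measurable_const
  have hpb : ∀ z : W b, |max (hf σ κ u z.fst) 0| ≤ M := by
    intro z
    rw [abs_of_nonneg (le_max_right _ _)]
    exact max_le ((le_abs_self _).trans (hbd z)) hM0.le
  have hpt : ∀ z : W b, (Om b ε).indicator (fun z => max (hf σ κ u z.fst) 0) z ≤
      A.indicator (fun z => hf σ κ u z.fst) z + (S1.indicator (fun _ => M) z +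
        S2.indicator (fun _ => M) z) := by
    intro z
    have g1 : 0 ≤ S1.indicator (fun _ => M) z := indicator_nonneg (fun _ _ => hM0.le) z
    have g2 : 0 ≤ S2.indicator (fun _ => M) z := indicator_nonneg (fun _ _ => hM0.le) z
    by_cases hzA : z ∈ A
    · rw [indicator_of_mem (hAO hzA), indicator_of_mem hzA]
      by_cases hs : 0 ≤ hf σ κ u z.fst
      · rw [max_eq_left hs]
        linarith
      · push Not at hs
        rw [max_eq_right hs.le]
        have h3 : 0 < hf σ κ u (-z.fst) := by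
          rw [hf_neg]
          linarith
        have h4 : z ∈ S2 := ⟨hzA, hf_pos_mem hσ hr₀ hR hκ01 hκ0 h3⟩
        rw [indicator_of_mem h4]
        have h5 := (abs_le.1 (hbd z)).1
        linarith
    · rw [indicator_of_notMem hzA]
      by_cases hzO : z ∈ Om b ε
      · rw [indicator_of_mem hzO]
        by_cases hs : 0 < hf σ κ u z.fst
        · have h4 : z ∈ S1 := ⟨⟨hzO, hzA⟩, hf_pos_mem hσ hr₀ hR hκ01 hκ0 hs⟩
          rw [max_eq_left hs.le, indicator_of_mem h4]
          have h5 := (abs_le.1 (hbd z)).2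
          linarith
        · push Not at hs
          rw [max_eq_right hs]
          linarith
      · rw [indicator_of_notMem hzO]
        linarith
  have hI1 := hint A hA hAfin _ hm hbd
  have hI2 := hint S1 hS1m hS1f (fun _ => M) measurable_const (fun _ => (abs_of_pos hM0).le)
  have hI3 := hint S2 hS2m hS2f (fun _ => M) measurable_const (fun _ => (abs_of_pos hM0).le)
  have hI0 := hint (Om b ε) hOm hOfin _ hpm hpb
  have h3 := integral_mono hI0 (hI1.add (hI2.add hI3)) hpt
  rw [integral_add' hI1 (hI2.add hI3), integral_add' hI2 hI3, integral_indicator hOm,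
    integral_indicator hA, integral_indicator hS1m, integral_indicator hS2m] at h3
  simp only [integral_const, smul_eq_mul, measureReal_restrict_apply_univ] at h3
  have h4 : vb b ε * (2 * ∫ ρ in r₀..R₁, κ (ρ ^ 2) * (1 - ρ) ^ b) ≤
      ∫ z in Om b ε, max (hf σ κ u z.fst) 0 := by
    have hnn : 0 ≤ᵐ[volume.restrict (Om b ε)] fun z : W b => max (hf σ κ u z.fst) 0 :=
      Filter.Eventually.of_forall fun z => le_max_right _ _
    rw [integral_eq_lintegral_of_nonneg_ae hnn hpm.aestronglyMeasurable]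
    have e1 : ∫⁻ z in Om b ε, ENNReal.ofReal (max (hf σ κ u z.fst) 0) =
        ENNReal.ofReal (vb b ε) * ∫⁻ x in ball (0 : ℂ) 1, ENNReal.ofReal (hf σ κ u x) *
          ENNReal.ofReal ((1 - ‖x‖) ^ b) := by
      rw [← t7a b ε hb hε _ (measurable_hf hκ.continuous).ennreal_ofReal]
      refine lintegral_congr fun z => ?_
      by_cases hs : 0 ≤ hf σ κ u z.fst
      · rw [max_eq_left hs]
      · push Not at hs
        rw [max_eq_right hs.le, ENNReal.ofReal_zero, ENNReal.ofReal_of_nonpos hs.le]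
    have hfin : ∫⁻ z in Om b ε, ENNReal.ofReal (max (hf σ κ u z.fst) 0) ≠ ∞ := by
      have g1 : ∫⁻ z in Om b ε, ENNReal.ofReal (max (hf σ κ u z.fst) 0) ≤
          ∫⁻ z in Om b ε, ENNReal.ofReal M := by
        refine lintegral_mono fun z => ENNReal.ofReal_le_ofReal ?_
        exact (le_abs_self _).trans (hpb z)
      refine (g1.trans_lt ?_).ne
      rw [lintegral_const, Measure.restrict_apply_univ]
      exact ENNReal.mul_lt_top ENNReal.ofReal_lt_top hOfin
    apply (ENNReal.ofReal_le_iff_le_toReal hfin).1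
    rw [e1, ENNReal.ofReal_mul (vb_pos hε).le]
    gcongr
    exact plane hσ hσ1 hr₀ hR hR1 hu hκ.continuous hκ01 b
  calc vb b ε * (2 * ∫ ρ in r₀..R₁, κ (ρ ^ 2) * (1 - ρ) ^ b)
      ≤ (∫ z in A, hf σ κ u z.fst) + (volume.real S1 * M + volume.real S2 * M) := h4.trans h3
    _ ≤ P + M * (volume.real S1 + volume.real S2) := by linarith

end Pool.Agent.X192.HV
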