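import Pool.Agent.X192.HV.Cone6

set_option autoImplicit false

/-! # Geometry of large cones, general `ε` -/

namespace Pool.Agent.X192.HV

open Pool.Agent.TH703.Cone MeasureTheory Set Metric
open scoped ENNReal Pointwise

/-- the stretched set -/
def str {b : ℕ} (ε : ℝ) (G : Set (W b)) : Set (W b) :=
  {z | (WithLp.toLp 2 (z.fst, ε • z.snd) : W b) ∈ G}

lemma oCone_str {b : ℕ} (ε : ℝ) {G : Set (W b)} (hG : OCone G) : OCone (str ε G) where
  op := by
    have h : Continuous fun z : W b => (WithLp.toLp 2 (z.fst, ε • z.snd) : W b) := by fun_prop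
    exact hG.op.preimage h
  sm := by
    intro z hz t ht
    have h := hG.sm _ hz t ht
    change (WithLp.toLp 2 ((t • z).fst, ε • (t • z).snd) : W b) ∈ G
    convert h using 1
    apply (WithLp.equiv 2 _).injective
    apply Prod.ext
    · rfl
    · exact smul_comm ε t z.snd
  ad := by
    intro z hz w hw
    have h := hG.ad _ hz _ hw
    change (WithLp.toLp 2 ((z + w).fst, ε • (z + w).snd) : W b) ∈ G
    convert h using 1
    apply (WithLp.equiv 2 _).injective
    apply Prod.ext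
    · rfl
    · exact smul_add ε z.snd w.snd

lemma fib_str {b : ℕ} {ε : ℝ} (hε : 0 < ε) (G : Set (W b)) (x : ℂ) :
    fib (Om b ε ∩ G) x = ε • fib (Om b 1 ∩ str ε G) x := by
  ext y
  rw [mem_smul_set_iff_inv_smul_mem₀ hε.ne']
  have h1 : ‖ε⁻¹ • y‖ / 1 = ‖y‖ / ε := by
    rw [norm_smul, norm_inv, Real.norm_of_nonneg hε.le, div_one]
    ring
  change (‖x‖ + ‖y‖ / ε < 1 ∧ (WithLp.toLp 2 (x, y) : W b) ∈ G) ↔
    (‖x‖ + ‖ε⁻¹ • y‖ / 1 < 1 ∧ (WithLp.toLp 2 (x, ε • ε⁻¹ • y) : W b) ∈ G)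
  rw [h1, smul_inv_smul₀ hε.ne']

lemma volfib_str {b : ℕ} {ε : ℝ} (hε : 0 < ε) (G : Set (W b)) (x : ℂ) :
    volume (fib (Om b ε ∩ G) x) = ENNReal.ofReal (ε ^ b) * volume (fib (Om b 1 ∩ str ε G) x) := by
  rw [fib_str hε, Measure.addHaar_smul, abs_of_pos (by positivity)]
  simp

lemma vb_eq (b : ℕ) {ε : ℝ} (hε : 0 < ε) : vb b ε = ε ^ b * vb b 1 := by
  unfold vb
  have h := Measure.addHaar_ball_mul_of_pos (volume : Measure (B b)) 0 hε 1
  rw [mul_one] at h
  rw [Measure.real, h, ENNReal.toReal_mul, ENNReal.toReal_ofReal (by positivity)]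
  simp [Measure.real]

lemma vol_str {b : ℕ} {ε : ℝ} (hε : 0 < ε) {G : Set (W b)} (hG : IsOpen G) :
    volume (Om b ε ∩ G) = ENNReal.ofReal (ε ^ b) * volume (Om b 1 ∩ str ε G) := by
  have hG' : MeasurableSet (str ε G) := by
    have h : Continuous fun z : W b => (WithLp.toLp 2 (z.fst, ε • z.snd) : W b) := by fun_prop
    exact (hG.preimage h).measurableSet
  rw [vol_eq_fib ((measurableSet_Om b ε).inter hG.measurableSet),
    vol_eq_fib ((measurableSet_Om b 1).inter hG'), ← lintegral_const_mul]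
  · exact lintegral_congr fun x => volfib_str hε G x
  · exact measurable_volfib ((measurableSet_Om b 1).inter hG')

/-- **T6.** -/
theorem t6 : S_T6 := by
  intro c K hc0 hc1 hK
  obtain ⟨b₀, hb₀⟩ := exists_nat_ge (max (32768 * K ^ 2 / c ^ 3) (4 * K))
  refine ⟨b₀, fun b hb r₀ hr₀ => ?_⟩
  have hbb : (b₀ : ℝ) ≤ b := by exact_mod_cast hb
  have h1 : 32768 * K ^ 2 / c ^ 3 ≤ b := ((le_max_left _ _).trans hb₀).trans hbb
  have h2 : 4 * K ≤ b := ((le_max_right _ _).trans hb₀).trans hbb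
  obtain ⟨σ, η, hσ0, hσ1, hη, H⟩ := cone1 hc0 hc1 hK h1 h2 hr₀
  refine ⟨σ, η, hσ0, hσ1, hη, fun ε G hε ho hs ha hv => ?_⟩
  have hG : OCone G := ⟨ho, hs, ha⟩
  have hε2 : ENNReal.ofReal (ε ^ b) ≠ 0 := by
    rw [Ne, ENNReal.ofReal_eq_zero, not_le]
    positivity
  have hvO : volume (Om b ε) = ENNReal.ofReal (ε ^ b) * volume (Om b 1) := by
    have := vol_str (b := b) hε isOpen_univ
    rw [inter_univ] at this
    rw [this]
    congr 2
    ext z
    simp [str]
  have hv' : ENNReal.ofReal c * volume (Om b 1) ≤ volume (Om b 1 ∩ str ε G) := by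
    rw [hvO, vol_str hε ho, mul_left_comm] at hv
    rwa [ENNReal.mul_le_mul_iff_right hε2 ENNReal.ofReal_ne_top] at hv
  obtain ⟨u, hu, hx⟩ := H _ (oCone_str ε hG) hv'
  refine ⟨u, hu, fun x hxW => ?_⟩
  rw [volfib_str hε, vb_eq b hε, show η * (ε ^ b * vb b 1) = ε ^ b * (η * vb b 1) by ring,
    ENNReal.ofReal_mul (by positivity)]
  gcongr
  exact hx x hxW

end Pool.Agent.X192.HV
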