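import Pool.Agent.X192.HV.Num
import Pool.Agent.X192.HV.T4
import Pool.Agent.X192.HV.T6

set_option autoImplicit false

/-! # The core of the disproof -/

namespace Pool.Agent.X192.HV

open Pool.Agent.TH703.Cone MeasureTheory Set Metric Filter Topology
open scoped ENNReal

lemma measurableSet_Wp (u : ℂ) (σ r₀ R₁ : ℝ) : MeasurableSet (Wp u σ r₀ R₁) := by
  unfold Wp
  have m1 : MeasurableSet {x : ℂ | r₀ ≤ ‖x‖} :=
    (isClosed_le continuous_const continuous_norm).measurableSet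
  have m2 : MeasurableSet {x : ℂ | ‖x‖ ≤ R₁} :=
    (isClosed_le continuous_norm continuous_const).measurableSet
  have m3 : MeasurableSet {x : ℂ | 0 < (x * u).re} :=
    (isOpen_lt continuous_const (by fun_prop)).measurableSet
  have m4 : MeasurableSet {x : ℂ | |(x * u).im| ≤ σ * ‖x‖} :=
    (isClosed_le (by fun_prop) (by fun_prop)).measurableSet
  exact m1.inter (m2.inter (m3.inter m4))

lemma fib_mono {b : ℕ} {A C : Set (W b)} (h : A ⊆ C) (x : ℂ) : fib A x ⊆ fib C x :=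
  fun _ hy => h hy

/-- almost every fibre of a null set is null -/
lemma fib_null {b : ℕ} {A : Set (W b)} (hA : MeasurableSet A) (h : volume A = 0) :
    ∀ᵐ x : ℂ, volume (fib A x) = 0 := by
  rw [vol_eq_fib hA, lintegral_eq_zero_iff (measurable_volfib hA)] at h
  exact h

/-- fibres of sets which contain a set with large fibres almost everywhere -/
lemma fib_ge {b : ℕ} {C A : Set (W b)} (hC : MeasurableSet C) (hA : MeasurableSet A)
    (h : volume (C \ A) = 0) : ∀ᵐ x : ℂ, volume (fib C x) ≤ volume (fib A x) := by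
  filter_upwards [fib_null (hC.diff hA) h] with x hx
  calc volume (fib C x) ≤ volume (fib A x ∪ fib (C \ A) x) := by
        apply measure_mono
        intro y hy
        by_cases hyA : (WithLp.toLp 2 (x, y) : W b) ∈ A
        · exact Or.inl hyA
        · exact Or.inr ⟨hy, hyA⟩
    _ ≤ volume (fib A x) + volume (fib (C \ A) x) := measure_union_le _ _
    _ = volume (fib A x) := by rw [hx, add_zero]

/-- the error estimate: `D` has large fibres over `T`, so its complement has small volume there -/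
lemma err {b : ℕ} {ε I η : ℝ} {A D D' : Set (W b)} {T : Set ℂ} (hη : 0 < η) (hε : 0 < ε)
    (hD : MeasurableSet D) (hD' : MeasurableSet D') (hT : MeasurableSet T)
    (h5 : ∫⁻ x : ℂ, volume (fib D x) * volume (fib D' x) ≤
      ENNReal.ofReal (2 ^ (b + 1) * ε * vb b ε * I))
    (hI : 0 ≤ I)
    (hbig : ∀ᵐ x : ℂ, x ∈ T → ENNReal.ofReal (η * vb b ε) ≤ volume (fib D x)) :
    volume {z | z ∈ D' ∧ z.fst ∈ T} ≤ ENNReal.ofReal (2 ^ (b + 1) * ε * I / η) := by
  have hvb : 0 < vb b ε := vb_pos hε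
  have hm : Measurable fun z : W b => z.fst := by fun_prop
  have hS : MeasurableSet {z | z ∈ D' ∧ z.fst ∈ T} := hD'.inter (hm hT)
  have hpos : ENNReal.ofReal (η * vb b ε) ≠ 0 := by
    rw [Ne, ENNReal.ofReal_eq_zero, not_le]
    positivity
  rw [← ENNReal.mul_le_mul_iff_right hpos ENNReal.ofReal_ne_top]
  calc ENNReal.ofReal (η * vb b ε) * volume {z | z ∈ D' ∧ z.fst ∈ T}
      = ENNReal.ofReal (η * vb b ε) * ∫⁻ x : ℂ, volume (fib {z | z ∈ D' ∧ z.fst ∈ T} x) := by
        rw [vol_eq_fib hS]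
    _ = ∫⁻ x : ℂ, ENNReal.ofReal (η * vb b ε) * volume (fib {z | z ∈ D' ∧ z.fst ∈ T} x) := by
        rw [lintegral_const_mul _ (measurable_volfib hS)]
    _ ≤ ∫⁻ x : ℂ, volume (fib D x) * volume (fib D' x) := by
        apply lintegral_mono_ae
        filter_upwards [hbig] with x hx
        by_cases hxT : x ∈ T
        · have h1 : volume (fib {z | z ∈ D' ∧ z.fst ∈ T} x) ≤ volume (fib D' x) :=
            measure_mono (fib_mono (fun z hz => hz.1) x)
          exact mul_le_mul' (hx hxT) h1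
        · have h1 : fib {z : W b | z ∈ D' ∧ z.fst ∈ T} x = ∅ := by
            rw [eq_empty_iff_forall_notMem]
            exact fun y hy => hxT hy.2
          rw [h1, measure_empty, mul_zero]
          exact zero_le
    _ ≤ ENNReal.ofReal (2 ^ (b + 1) * ε * vb b ε * I) := h5
    _ = ENNReal.ofReal (η * vb b ε) * ENNReal.ofReal (2 ^ (b + 1) * ε * I / η) := by
        rw [← ENNReal.ofReal_mul (by positivity)]
        congr 1
        field_simp

/-- a fibre of the reflected set -/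
lemma vol_fib_neg {b : ℕ} {ε : ℝ} (G : Set (W b)) (x : ℂ) :
    volume (fib (Om b ε ∩ {z | -z ∈ G}) x) = volume (fib (Om b ε ∩ G) (-x)) := by
  have h1 : fib (Om b ε ∩ {z | -z ∈ G}) x = (fun y => -y) ⁻¹' fib (Om b ε ∩ G) (-x) := by
    ext y
    change (‖x‖ + ‖y‖ / ε < 1 ∧ -(WithLp.toLp 2 (x, y) : W b) ∈ G) ↔
      (‖-x‖ + ‖-y‖ / ε < 1 ∧ (WithLp.toLp 2 (-x, -y) : W b) ∈ G)
    rw [norm_neg, norm_neg]
    exact Iff.rfl
  rw [h1]
  exact Measure.measure_preimage_neg _ _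

/-- **The core.** -/
theorem core {c : ℝ} (hc0 : 0 < c) (hc1 : c ≤ 1) : ∃ (b : ℕ) (ε : ℝ), 1 ≤ b ∧ 0 < ε ∧
    ∃ (A₀ : Set (W b)) (P₀ : ℝ), MeasurableSet A₀ ∧ A₀ ⊆ Om b ε ∧
      volume A₀ = volume (Om b ε) / 2 ∧ PLE (Om b ε) A₀ P₀ ∧
      ∀ (A : Set (W b)) (I : ℝ), MeasurableSet A → A ⊆ Om b ε → PLE (Om b ε) A I → I ≤ P₀ →
        ∀ G : Set (W b), OCone G → volume ((Om b ε ∩ G) \ A) = 0 →
          volume ((Om b ε ∩ {z | -z ∈ G}) ∩ A) = 0 →
          ¬ ENNReal.ofReal c * volume (Om b ε) ≤ volume (Om b ε ∩ G) := by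
  obtain ⟨b₀, hb₀⟩ := t6 c 21 hc0 hc1 (by norm_num)
  set b := max b₀ 340 with hbd
  have hb340 : 340 ≤ b := le_max_right _ _
  have hb1 : 1 ≤ b := by omega
  have hbr : (340 : ℝ) ≤ b := by exact_mod_cast hb340
  have hbr0 : (0 : ℝ) < b := by linarith
  obtain ⟨r, hr0, hr1, hr⟩ := half_radius hb340
  set r₀ : ℝ := 1 / (2000 * (b + 1)) with hr₀d
  have hr₀ : 0 < r₀ := by positivity
  set R₁ : ℝ := (21 - 1) / b with hR₁d
  have hR₁e : R₁ = 20 / b := by rw [hR₁d]; norm_num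
  have hnum := numeric hb340 hr0 hr1 hr hr₀d hR₁e
  obtain ⟨σ, η, hσ, hσ2, hη, hcone⟩ := hb₀ b (le_max_left _ _) r₀ hr₀
  have hR₁0 : 0 < R₁ := by positivity
  have hR₁1 : R₁ < 1 := by
    rw [hR₁e, div_lt_one hbr0]
    linarith
  have hrR : r₀ < R₁ := by
    rw [hr₀d, hR₁e, div_lt_div_iff₀ (by positivity) hbr0]
    nlinarith
  have hr1' : r < 1 := by
    refine hr1.trans_lt ?_
    rw [div_lt_one (by positivity)]
    norm_num
    linarith
  set L : ℝ := 2 * ∫ ρ in r₀..R₁, cut r₀ R₁ (ρ ^ 2) * (1 - ρ) ^ b with hL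
  set Q : ℝ := 2 * Real.pi * r * (1 - r) ^ b with hQ
  have hpi := Real.pi_pos
  have h1r : 0 < 1 - r := by linarith
  have hQ0 : 0 < Q := by positivity
  -- choice of `ε`
  set C : ℝ := 3 / (2 * σ * r₀) * (2 * (2 ^ (b + 1) / η)) with hC
  have hC0 : 0 < C := by positivity
  set ε : ℝ := (L - Q) / (2 * (Q * C)) with hεd
  have hε : 0 < ε := div_pos (by linarith) (by positivity)
  have hεQ : Q * (1 + ε * C) < L := by
    have : ε * (Q * C) = (L - Q) / 2 := by
      rw [hεd]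
      field_simp
    nlinarith
  have hvb : 0 < vb b ε := vb_pos hε
  have hOm := measurableSet_Om b ε
  refine ⟨b, ε, hb1, hε, {z | z ∈ Om b ε ∧ ‖z.fst‖ < r}, vb b ε * Q, ?_, fun z hz => hz.1, ?_, ?_, ?_⟩
  · exact hOm.inter (isOpen_lt (f := fun z : W b => ‖z.fst‖) (by fun_prop)
      continuous_const).measurableSet
  · rw [vol_lt hb1 hε hr0.le hr1'.le, vol_Om hb1 hε, hr, Um_one,
      show (2 : ℝ≥0∞) = ENNReal.ofReal 2 by simp, ← ENNReal.ofReal_div_of_pos two_pos]
    congr 1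
    ring
  · exact t3 b ε r hb1 hε hr0 hr1'
  intro A I hA hAO hPLE hIP G hG hG1 hG2 hvol
  have hI0 : 0 ≤ I := by
    have h0 : Tst (Om b ε) (fun _ : W b => (0 : W b)) := by
      refine ⟨contDiff_const, HasCompactSupport.zero, ?_, fun x => by simp⟩
      have : tsupport (fun _ : W b => (0 : W b)) = ∅ := by
        rw [tsupport_eq_empty_iff]
        rfl
      rw [this]
      exact empty_subset _
    have h1 := hPLE _ h0
    have h2 : ∀ x : W b, dv (fun _ : W b => (0 : W b)) x = 0 := by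
      intro x
      unfold dv
      simp
    simpa [h2] using h1
  obtain ⟨u, hu, hux⟩ := hcone ε G hε hG.op hG.sm hG.ad hvol
  have h5 := t5 b ε I A hb1 hε hA hAO hI0 hPLE
  have hC1 : MeasurableSet (Om b ε \ A) := hOm.diff hA
  have hGm := hG.op.measurableSet
  have hGn : MeasurableSet {z : W b | -z ∈ G} := measurable_neg hGm
  have hWm := measurableSet_Wp u σ r₀ R₁
  have hWn : MeasurableSet {x : ℂ | -x ∈ Wp u σ r₀ R₁} := measurable_neg hWm
  -- the two error terms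
  have hE1 : volume {z | z ∈ Om b ε \ A ∧ z.fst ∈ Wp u σ r₀ R₁} ≤
      ENNReal.ofReal (2 ^ (b + 1) * ε * I / η) := by
    apply err (A := A) hη hε hA hC1 hWm h5 hI0
    filter_upwards [fib_ge (hOm.inter hGm) hA hG1] with x hx hxW
    exact (hux x hxW).trans hx
  have hE2 : volume {z | z ∈ A ∧ z.fst ∈ {x : ℂ | -x ∈ Wp u σ r₀ R₁}} ≤
      ENNReal.ofReal (2 ^ (b + 1) * ε * I / η) := by
    have h5' : ∫⁻ x : ℂ, volume (fib (Om b ε \ A) x) * volume (fib A x) ≤
        ENNReal.ofReal (2 ^ (b + 1) * ε * vb b ε * I) := by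
      simpa only [mul_comm] using h5
    apply err (A := A) hη hε hC1 hA hWn h5' hI0
    have h6 : volume ((Om b ε ∩ {z | -z ∈ G}) \ (Om b ε \ A)) = 0 := by
      apply measure_mono_null _ hG2
      rintro z ⟨hz1, hz2⟩
      refine ⟨hz1, ?_⟩
      by_contra h
      exact hz2 ⟨hz1.1, h⟩
    filter_upwards [fib_ge (hOm.inter hGn) hC1 h6] with x hx hxW
    refine le_trans ?_ hx
    rw [vol_fib_neg]
    exact hux (-x) hxW
  have hreal : ∀ S : Set (W b), volume S ≤ ENNReal.ofReal (2 ^ (b + 1) * ε * I / η) →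
      volume.real S ≤ 2 ^ (b + 1) * ε * I / η := by
    intro S hS
    exact ENNReal.toReal_le_of_le_ofReal (by positivity) hS
  have h4 := t4 b ε I A u σ r₀ R₁ (cut r₀ R₁) hb1 hε hA hAO hPLE hu hσ hσ2 hr₀ hrR hR₁1
    (contDiff_cut r₀ R₁) (cut_mem r₀ R₁) (cut_zero hr₀ hR₁0)
  have h7 : vb b ε * L ≤ I + 3 / (2 * σ * r₀) * (2 ^ (b + 1) * ε * I / η +
      2 ^ (b + 1) * ε * I / η) := by
    refine h4.trans ?_
    have g1 := hreal _ hE1
    have g2 := hreal _ hE2
    have g3 : 0 < 3 / (2 * σ * r₀) := by positivity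
    have g4 : volume.real {z | z ∈ Om b ε \ A ∧ z.fst ∈ Wp u σ r₀ R₁} +
        volume.real {z | z ∈ A ∧ -z.fst ∈ Wp u σ r₀ R₁} ≤
        2 ^ (b + 1) * ε * I / η + 2 ^ (b + 1) * ε * I / η := add_le_add g1 g2
    have := mul_le_mul_of_nonneg_left g4 g3.le
    linarith
  have h8 : I + 3 / (2 * σ * r₀) * (2 ^ (b + 1) * ε * I / η + 2 ^ (b + 1) * ε * I / η) =
      I * (1 + ε * C) := by
    rw [hC]
    ring
  have h9 : I * (1 + ε * C) ≤ vb b ε * Q * (1 + ε * C) := by gcongr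
  have h10 : vb b ε * Q * (1 + ε * C) < vb b ε * L := by
    calc vb b ε * Q * (1 + ε * C) = vb b ε * (Q * (1 + ε * C)) := by ring
      _ < vb b ε * L := by gcongr
  linarith

end Pool.Agent.X192.HV
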