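import Pool.Agent.X192.HV.Mean

set_option autoImplicit false

/-! # Points with large fibres -/

namespace Pool.Agent.X192.HV

open Pool.Agent.TH703.Cone MeasureTheory Set Metric
open scoped ENNReal RealInnerProductSpace

lemma measurable_toLp {b : ℕ} {A : Set (W b)} (hA : MeasurableSet A) :
    MeasurableSet {p : ℂ × B b | (WithLp.toLp 2 p : W b) ∈ A} := by
  have h : Measurable fun p : ℂ × B b => (WithLp.toLp 2 p : W b) := by fun_prop
  exact h hA

lemma measurable_volfib {b : ℕ} {A : Set (W b)} (hA : MeasurableSet A) :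
    Measurable fun x : ℂ => volume (fib A x) :=
  measurable_measure_prodMk_left (measurable_toLp hA)

lemma measurableSet_fib {b : ℕ} {A : Set (W b)} (hA : MeasurableSet A) (x : ℂ) :
    MeasurableSet (fib A x) := by
  have h : Measurable fun y : B b => (WithLp.toLp 2 (x, y) : W b) := by fun_prop
  exact h hA

/-- volume as the integral of the volumes of the fibres -/
lemma vol_eq_fib {b : ℕ} {A : Set (W b)} (hA : MeasurableSet A) :
    volume A = ∫⁻ x : ℂ, volume (fib A x) := by
  rw [← lintegral_indicator_one hA, fub b _ (measurable_one.indicator hA)]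
  refine lintegral_congr fun x => ?_
  rw [← lintegral_indicator_one (measurableSet_fib hA x)]
  refine lintegral_congr fun y => ?_
  by_cases h : (WithLp.toLp 2 (x, y) : W b) ∈ A
  · rw [indicator_of_mem h, indicator_of_mem (show y ∈ fib A x from h)]
    rfl
  · rw [indicator_of_notMem h, indicator_of_notMem (show y ∉ fib A x from h)]

lemma strip2 {p : ℂ} (hp : p ≠ 0) {d : ℝ} (hd : 0 < d) :
    volume {x : ℂ | ‖x‖ < 1 ∧ |(p * (starRingEnd ℂ) x).im| < d} ≤
      ENNReal.ofReal (4 * d / ‖p‖) := by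
  have hn : 0 < ‖p‖ := norm_pos_iff.2 hp
  have hw : ‖(starRingEnd ℂ) p / ‖p‖‖ = 1 := by
    rw [norm_div, Complex.norm_conj, Complex.norm_real, norm_norm, div_self hn.ne']
  set w : Circle := ⟨(starRingEnd ℂ) p / ‖p‖, mem_sphere_zero_iff_norm.2 hw⟩ with hwdef
  set R := rotation w with hR
  have hRa : ∀ x : ℂ, R x = (starRingEnd ℂ) p / ‖p‖ * x := fun x => rotation_apply w x
  have h1 := R.measurePreserving
  set T : Set ℂ := {x : ℂ | |x.re| < 1 ∧ |x.im| < d / ‖p‖} with hT
  have hTo : IsOpen T :=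
    (isOpen_lt (f := fun x : ℂ => |x.re|) (by fun_prop) continuous_const).inter
      (isOpen_lt (f := fun x : ℂ => |x.im|) (by fun_prop) continuous_const)
  have hsub : {x : ℂ | ‖x‖ < 1 ∧ |(p * (starRingEnd ℂ) x).im| < d} ⊆ R ⁻¹' T := by
    rintro x ⟨hx1, hx2⟩
    have h2 : ‖R x‖ < 1 := by rw [LinearIsometryEquiv.norm_map]; exact hx1
    have h3 : (p * (starRingEnd ℂ) x).im = - (‖p‖ * (R x).im) := by
      have e1 : p * (starRingEnd ℂ) x = (starRingEnd ℂ) ((‖p‖ : ℂ) * R x) := by
        rw [hRa]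
        have : (‖p‖ : ℂ) ≠ 0 := by exact_mod_cast hn.ne'
        rw [← mul_assoc, mul_div_cancel₀ _ this, map_mul, Complex.conj_conj]
      rw [e1, Complex.conj_im, Complex.im_ofReal_mul]
    refine ⟨(Complex.abs_re_le_norm _).trans_lt h2, ?_⟩
    rw [lt_div_iff₀ hn]
    rw [h3, abs_neg, abs_mul, abs_of_pos hn] at hx2
    linarith
  calc volume {x : ℂ | ‖x‖ < 1 ∧ |(p * (starRingEnd ℂ) x).im| < d} ≤ volume (R ⁻¹' T) :=
        measure_mono hsub
    _ = volume T := h1.measure_preimage hTo.measurableSet.nullMeasurableSet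
    _ = volume (Ioo (-1 : ℝ) 1 ×ˢ Ioo (-(d / ‖p‖)) (d / ‖p‖)) := by
        rw [← Complex.volume_preserving_equiv_real_prod.measure_preimage
          (measurableSet_Ioo.prod measurableSet_Ioo).nullMeasurableSet]
        congr 1
        ext x
        simp only [hT, mem_ofPred_eq, mem_preimage, mem_prod, mem_Ioo, abs_lt]
        exact Iff.rfl
    _ = ENNReal.ofReal (4 * d / ‖p‖) := by
        rw [Measure.volume_eq_prod, Measure.prod_prod, Real.volume_Ioo, Real.volume_Ioo,
          ← ENNReal.ofReal_mul (by norm_num)]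
        congr 1
        ring

/-- **Points with large fibres.** -/
lemma fat {b : ℕ} (hb : 1 ≤ b) {c : ℝ} (hc0 : 0 < c) : ∃ m₀ d₀ : ℝ, 0 < m₀ ∧ 0 < d₀ ∧
    ∀ C : Set (W b), MeasurableSet C → C ⊆ Om b 1 →
      ENNReal.ofReal c * volume (Om b 1) ≤ volume C →
      ∃ p₁ p₂ : ℂ, ENNReal.ofReal m₀ ≤ volume (fib C p₁) ∧ (fib C p₂).Nonempty ∧
        d₀ ≤ |(p₁ * (starRingEnd ℂ) p₂).im| := by
  set v := vb b 1 with hv
  have hv0 : 0 < v := vb_pos one_pos
  set V := volume.real (Om b 1) with hV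
  have hVf : V = v * (2 * Real.pi * (1 / ((b + 1) * (b + 2)))) := volr_Om hb one_pos
  have hpi := Real.pi_pos
  have hV0 : 0 < V := by rw [hVf]; positivity
  set m₀ := c * V / (2 * Real.pi) with hm₀
  have hm0 : 0 < m₀ := by positivity
  set s₀ := c * V / (2 * v) with hs₀
  have hs0 : 0 < s₀ := by positivity
  set r₁ := min 1 (s₀ / (2 * Real.pi)) with hr₁
  have hr0 : 0 < r₁ := lt_min one_pos (by positivity)
  set d₀ := s₀ * r₁ / 8 with hd₀
  have hd0 : 0 < d₀ := by positivity
  refine ⟨m₀, d₀, hm0, hd0, fun C hC hCO hcC => ?_⟩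
  set S : Set ℂ := {x | ENNReal.ofReal m₀ ≤ volume (fib C x)} with hS
  have hSm : MeasurableSet S := measurableSet_le measurable_const (measurable_volfib hC)
  have hSb : ∀ x ∈ S, ‖x‖ < 1 := by
    intro x hx
    by_contra hcon
    have h1 : fib C x ⊆ fib (Om b 1) x := fun y hy => hCO hy
    rw [fib_Om_empty b one_pos (not_lt.1 hcon)] at h1
    have h2 : fib C x = ∅ := subset_empty_iff.1 h1
    have h3 : ENNReal.ofReal m₀ ≤ volume (fib C x) := hx
    rw [h2, measure_empty, nonpos_iff_eq_zero, ENNReal.ofReal_eq_zero] at h3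
    linarith
  have hSball : S ⊆ ball (0 : ℂ) 1 := fun x hx => by simpa using hSb x hx
  have hSfin : volume S < ∞ := (measure_mono hSball).trans_lt measure_ball_lt_top
  have hbound : ∀ x : ℂ, volume (fib C x) ≤
      S.indicator (fun _ => ENNReal.ofReal v) x +
        (ball (0 : ℂ) 1).indicator (fun _ => ENNReal.ofReal m₀) x := by
    intro x
    have h1 : fib C x ⊆ fib (Om b 1) x := fun y hy => hCO hy
    by_cases hx : x ∈ S
    · rw [indicator_of_mem hx]
      refine (measure_mono h1).trans ?_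
      rw [vol_fib_Om one_pos (hSb x hx)]
      calc ENNReal.ofReal v * ENNReal.ofReal ((1 - ‖x‖) ^ b) ≤ ENNReal.ofReal v * 1 := by
            gcongr
            rw [ENNReal.ofReal_le_one]
            apply pow_le_one₀
            · linarith [hSb x hx]
            · linarith [norm_nonneg x]
        _ ≤ _ := by rw [mul_one]; exact le_self_add
    · rw [indicator_of_notMem hx, zero_add]
      by_cases hx1 : ‖x‖ < 1
      · rw [indicator_of_mem (by simpa using hx1)]
        exact (not_le.1 hx).le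
      · rw [fib_Om_empty b one_pos (not_lt.1 hx1)] at h1
        rw [subset_empty_iff.1 h1, measure_empty]
        exact zero_le
  have hvolC : volume C ≤ ENNReal.ofReal v * volume S + ENNReal.ofReal m₀ * volume (ball (0 : ℂ) 1) := by
    rw [vol_eq_fib hC]
    refine (lintegral_mono hbound).trans ?_
    rw [lintegral_add_left (measurable_const.indicator hSm), lintegral_indicator hSm,
      lintegral_indicator measurableSet_ball, setLIntegral_const, setLIntegral_const]
  have hπ : volume (ball (0 : ℂ) 1) = ENNReal.ofReal Real.pi := by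
    rw [Complex.volume_ball]
    simp [ENNReal.ofReal, Real.toNNReal_of_nonneg Real.pi_pos.le, NNReal.pi]
    rfl
  have hSr : s₀ ≤ volume.real S := by
    have h1 : ENNReal.ofReal c * volume (Om b 1) ≤
        ENNReal.ofReal v * volume S + ENNReal.ofReal m₀ * volume (ball (0 : ℂ) 1) :=
      hcC.trans hvolC
    have h2 := ENNReal.toReal_mono (by
      rw [hπ]
      exact (ENNReal.add_lt_top.2 ⟨ENNReal.mul_lt_top ENNReal.ofReal_lt_top hSfin,
        ENNReal.mul_lt_top ENNReal.ofReal_lt_top ENNReal.ofReal_lt_top⟩).ne) h1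
    rw [hπ, ENNReal.toReal_add (ENNReal.mul_lt_top ENNReal.ofReal_lt_top hSfin).ne
      (ENNReal.mul_lt_top ENNReal.ofReal_lt_top ENNReal.ofReal_lt_top).ne, ENNReal.toReal_mul,
      ENNReal.toReal_mul, ENNReal.toReal_mul, ENNReal.toReal_ofReal hc0.le,
      ENNReal.toReal_ofReal hv0.le, ENNReal.toReal_ofReal hm0.le,
      ENNReal.toReal_ofReal hpi.le] at h2
    have h3 : c * V ≤ v * volume.real S + m₀ * Real.pi := h2
    have h4 : m₀ * Real.pi = c * V / 2 := by rw [hm₀]; field_simp
    rw [hs₀, div_le_iff₀ (by positivity)]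
    linarith
  -- the first point
  have hp1 : ∃ p₁ ∈ S, r₁ ≤ ‖p₁‖ := by
    by_contra hcon
    push Not at hcon
    have h1 : S ⊆ ball (0 : ℂ) r₁ := fun x hx => by simpa using hcon x hx
    have h2 : volume.real S ≤ volume.real (ball (0 : ℂ) r₁) :=
      measureReal_mono h1 measure_ball_lt_top.ne
    have h3 : volume.real (ball (0 : ℂ) r₁) = r₁ ^ 2 * Real.pi := by
      rw [Measure.real, Complex.volume_ball, ENNReal.toReal_mul, ENNReal.toReal_pow,
        ENNReal.toReal_ofReal hr0.le]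
      rfl
    have h4 : r₁ ≤ 1 := min_le_left _ _
    have h5 : r₁ ≤ s₀ / (2 * Real.pi) := min_le_right _ _
    have h6 : r₁ * Real.pi ≤ s₀ / 2 := by
      rw [le_div_iff₀ (by positivity)] at h5
      linarith
    have h7 : r₁ ^ 2 * Real.pi ≤ r₁ * Real.pi := by
      have : r₁ ^ 2 ≤ r₁ := by nlinarith
      exact mul_le_mul_of_nonneg_right this hpi.le
    linarith
  obtain ⟨p₁, hp₁, hpr⟩ := hp1
  have hp0 : p₁ ≠ 0 := by
    intro h
    rw [h, norm_zero] at hpr
    linarith
  have hp2 : ∃ p₂ ∈ S, d₀ ≤ |(p₁ * (starRingEnd ℂ) p₂).im| := by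
    by_contra hcon
    push Not at hcon
    have h1 : S ⊆ {x : ℂ | ‖x‖ < 1 ∧ |(p₁ * (starRingEnd ℂ) x).im| < d₀} :=
      fun x hx => ⟨hSb x hx, hcon x hx⟩
    have h2 := ENNReal.toReal_mono ENNReal.ofReal_ne_top ((measure_mono h1).trans (strip2 hp0 hd0))
    rw [ENNReal.toReal_ofReal (by positivity)] at h2
    have h3 : volume.real S ≤ 4 * d₀ / ‖p₁‖ := h2
    have h4 : 4 * d₀ / ‖p₁‖ ≤ 4 * d₀ / r₁ := by gcongr
    have h5 : 4 * d₀ / r₁ = s₀ / 2 := by rw [hd₀]; field_simp; norm_num
    linarith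
  obtain ⟨p₂, hp₂, hpd⟩ := hp2
  refine ⟨p₁, p₂, hp₁, ?_, hpd⟩
  rw [nonempty_iff_ne_empty]
  intro h
  have h3 : ENNReal.ofReal m₀ ≤ volume (fib C p₂) := hp₂
  rw [h, measure_empty, nonpos_iff_eq_zero, ENNReal.ofReal_eq_zero] at h3
  linarith

end Pool.Agent.X192.HV
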