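import Pool.Agent.X192.HV.Fat
import Pool.Agent.TH703.Cone.Trans

set_option autoImplicit false

/-! # The fibres are almost full or almost empty -/

namespace Pool.Agent.X192.HV

open Pool.Agent.TH703.Cone MeasureTheory Set Metric
open scoped ENNReal

lemma Om_subset_ball (b : ℕ) {ε : ℝ} (hε : 0 < ε) : Om b ε ⊆ closedBall (0 : W b) (1 + ε) := by
  intro z hz
  have h : ‖z.fst‖ + ‖z.snd‖ / ε < 1 := hz
  have h1 := norm_nonneg z.fst
  have h3 : 0 ≤ ‖z.snd‖ / ε := by positivity
  have h2 : ‖z.snd‖ ≤ ε := by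
    have : ‖z.snd‖ / ε < 1 := by linarith
    rw [div_lt_one hε] at this
    exact this.le
  rw [mem_closedBall, dist_zero_right]
  have h4 : ‖z‖ ^ 2 = ‖z.fst‖ ^ 2 + ‖z.snd‖ ^ 2 := WithLp.prod_norm_sq_eq_of_L2 z
  have h5 := norm_nonneg z.snd
  have h6 : ‖z.fst‖ ≤ 1 := by linarith
  have h7 := norm_nonneg z
  nlinarith

lemma bdd_Om (b : ℕ) {ε : ℝ} (hε : 0 < ε) : Bornology.IsBounded (Om b ε) :=
  isBounded_closedBall.subset (Om_subset_ball b hε)

lemma snd_lt_of_mem {b : ℕ} {ε : ℝ} (hε : 0 < ε) {x : ℂ} {y : B b}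
    (h : (WithLp.toLp 2 (x, y) : W b) ∈ Om b ε) : ‖y‖ < ε := by
  have h : ‖x‖ + ‖y‖ / ε < 1 := h
  have h1 := norm_nonneg x
  have : ‖y‖ / ε < 1 := by linarith
  rwa [div_lt_one hε] at this

/-- **T5.** -/
theorem t5 : S_T5 := by
  intro b ε P A hb hε hA hAO hP hPLE
  set Ω := Om b ε with hΩ
  have hC : MeasurableSet (Ω \ A) := (measurableSet_Om b ε).diff hA
  have hmA : Measurable (A.indicator (1 : W b → ℝ≥0∞)) := measurable_one.indicator hA
  have hmC : Measurable ((Ω \ A).indicator (1 : W b → ℝ≥0∞)) := measurable_one.indicator hC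
  have hfA : ∀ x : ℂ, volume (fib A x) = ∫⁻ y, A.indicator 1 (WithLp.toLp 2 (x, y) : W b) := by
    intro x
    rw [← lintegral_indicator_one (measurableSet_fib hA x)]
    refine lintegral_congr fun y => ?_
    by_cases h : (WithLp.toLp 2 (x, y) : W b) ∈ A
    · rw [indicator_of_mem h, indicator_of_mem (show y ∈ fib A x from h)]
      rfl
    · rw [indicator_of_notMem h, indicator_of_notMem (show y ∉ fib A x from h)]
  have hfC : ∀ x : ℂ, volume (fib (Ω \ A) x) =
      ∫⁻ y, (Ω \ A).indicator 1 (WithLp.toLp 2 (x, y) : W b) := by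
    intro x
    rw [← lintegral_indicator_one (measurableSet_fib hC x)]
    refine lintegral_congr fun y => ?_
    by_cases h : (WithLp.toLp 2 (x, y) : W b) ∈ Ω \ A
    · rw [indicator_of_mem h, indicator_of_mem (show y ∈ fib (Ω \ A) x from h)]
      rfl
    · rw [indicator_of_notMem h, indicator_of_notMem (show y ∉ fib (Ω \ A) x from h)]
  set H : ℂ → B b → B b → ℝ≥0∞ := fun x v y =>
    A.indicator 1 (WithLp.toLp 2 (x, y) : W b) * (Ω \ A).indicator 1 (WithLp.toLp 2 (x, y + v) : W b)
    with hH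
  have hHm : Measurable fun p : (ℂ × B b) × B b => H p.1.1 p.1.2 p.2 := by
    have h1 : Measurable fun p : (ℂ × B b) × B b => (WithLp.toLp 2 (p.1.1, p.2) : W b) := by
      fun_prop
    have h2 : Measurable fun p : (ℂ × B b) × B b => (WithLp.toLp 2 (p.1.1, p.2 + p.1.2) : W b) := by
      fun_prop
    exact (hmA.comp h1).mul (hmC.comp h2)
  have h1 : ∀ x, volume (fib A x) * volume (fib (Ω \ A) x) = ∫⁻ v, ∫⁻ y, H x v y := by
    intro x
    have hmx : Measurable fun y : B b => A.indicator (1 : W b → ℝ≥0∞) (WithLp.toLp 2 (x, y)) :=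
      hmA.comp (by fun_prop)
    rw [hfA, ← lintegral_mul_const _ hmx, lintegral_lintegral_swap]
    · refine lintegral_congr fun y => ?_
      rw [hfC, ← lintegral_add_left_eq_self
        (fun y' => (Ω \ A).indicator 1 (WithLp.toLp 2 (x, y') : W b)) y,
        lintegral_const_mul]
      exact hmC.comp (by fun_prop)
    · have h2 : Measurable fun p : B b × B b => H x p.1 p.2 :=
        hHm.comp (g := fun p : (ℂ × B b) × B b => H p.1.1 p.1.2 p.2)
          (f := fun p : B b × B b => ((x, p.1), p.2)) (by fun_prop)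
      exact h2.aemeasurable
  have hsub : ∀ v : B b, ∫⁻ x, ∫⁻ y, H x v y =
      volume {z | z ∈ A ∧ z + (WithLp.toLp 2 ((0 : ℂ), v) : W b) ∈ Ω \ A} := by
    intro v
    have hTm : MeasurableSet {z | z ∈ A ∧ z + (WithLp.toLp 2 ((0 : ℂ), v) : W b) ∈ Ω \ A} :=
      hA.inter ((measurable_id.add_const _) hC)
    rw [vol_eq_fib hTm]
    refine lintegral_congr fun x => ?_
    rw [← lintegral_indicator_one (measurableSet_fib hTm x)]
    refine lintegral_congr fun y => ?_
    have e1 : (WithLp.toLp 2 (x, y) : W b) + (WithLp.toLp 2 ((0 : ℂ), v) : W b) =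
        WithLp.toLp 2 (x, y + v) := by
      apply (WithLp.equiv 2 _).injective
      apply Prod.ext
      · change x + 0 = x
        rw [add_zero]
      · rfl
    by_cases h : (WithLp.toLp 2 (x, y) : W b) ∈ A
    · by_cases h' : (WithLp.toLp 2 (x, y + v) : W b) ∈ Ω \ A
      · have : y ∈ fib {z | z ∈ A ∧ z + (WithLp.toLp 2 ((0 : ℂ), v) : W b) ∈ Ω \ A} x := by
          refine ⟨h, ?_⟩
          rw [e1]
          exact h'
        rw [indicator_of_mem this]
        simp only [hH]
        rw [indicator_of_mem h, indicator_of_mem h']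
        simp
      · have : y ∉ fib {z | z ∈ A ∧ z + (WithLp.toLp 2 ((0 : ℂ), v) : W b) ∈ Ω \ A} x := by
          rintro ⟨_, h2⟩
          rw [e1] at h2
          exact h' h2
        rw [indicator_of_notMem this]
        simp only [hH]
        rw [indicator_of_notMem h', mul_zero]
    · have : y ∉ fib {z | z ∈ A ∧ z + (WithLp.toLp 2 ((0 : ℂ), v) : W b) ∈ Ω \ A} x :=
        fun h2 => h h2.1
      rw [indicator_of_notMem this]
      simp only [hH]
      rw [indicator_of_notMem h, zero_mul]
  have hv0 : ∀ v : B b, v ∉ ball (0 : B b) (2 * ε) → ∀ x y, H x v y = 0 := by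
    intro v hv x y
    by_cases h : (WithLp.toLp 2 (x, y) : W b) ∈ A
    · by_cases h' : (WithLp.toLp 2 (x, y + v) : W b) ∈ Ω \ A
      · exfalso
        apply hv
        have h2 := snd_lt_of_mem hε (hAO h)
        have h3 := snd_lt_of_mem hε h'.1
        rw [mem_ball, dist_zero_right]
        have : v = (y + v) - y := by abel
        rw [this]
        refine (norm_sub_le _ _).trans_lt ?_
        linarith
      · simp only [hH]
        rw [indicator_of_notMem h', mul_zero]
    · simp only [hH]
      rw [indicator_of_notMem h, zero_mul]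
  calc ∫⁻ x : ℂ, volume (fib A x) * volume (fib (Ω \ A) x) = ∫⁻ x, ∫⁻ v, ∫⁻ y, H x v y :=
        lintegral_congr h1
    _ = ∫⁻ v, ∫⁻ x, ∫⁻ y, H x v y := by
        rw [lintegral_lintegral_swap]
        exact (Measurable.lintegral_prod_right' hHm).aemeasurable
    _ = ∫⁻ v in ball (0 : B b) (2 * ε), ∫⁻ x, ∫⁻ y, H x v y := by
        rw [← lintegral_indicator measurableSet_ball]
        refine lintegral_congr fun v => ?_
        by_cases hv : v ∈ ball (0 : B b) (2 * ε)
        · rw [indicator_of_mem hv]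
        · rw [indicator_of_notMem hv]
          simp [hv0 v hv]
    _ ≤ ∫⁻ v in ball (0 : B b) (2 * ε), ENNReal.ofReal (2 * ε * P) := by
        refine setLIntegral_mono measurable_const fun v hv => ?_
        rw [hsub v]
        refine (t1 (W b) Ω A P _ (isOpen_Om b ε) (convex_Om b hε) (bdd_Om b hε) hA hAO hP hPLE).trans ?_
        apply ENNReal.ofReal_le_ofReal
        have h2 : ‖(WithLp.toLp 2 ((0 : ℂ), v) : W b)‖ = ‖v‖ := by
          have h4 := WithLp.prod_norm_sq_eq_of_L2 (WithLp.toLp 2 ((0 : ℂ), v) : W b)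
          have h5 : ‖(WithLp.toLp 2 ((0 : ℂ), v) : W b)‖ ^ 2 = ‖v‖ ^ 2 := by
            rw [h4]
            simp
          exact (sq_eq_sq₀ (norm_nonneg _) (norm_nonneg _)).1 h5
        rw [h2]
        have h3 : ‖v‖ < 2 * ε := by simpa using hv
        gcongr
    _ = ENNReal.ofReal (2 ^ (b + 1) * ε * vb b ε * P) := by
        rw [lintegral_const, Measure.restrict_apply_univ,
          Measure.addHaar_ball_mul_of_pos volume _ two_pos]
        have h2 : volume (ball (0 : B b) ε) = ENNReal.ofReal (vb b ε) := by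
          unfold vb
          rw [ofReal_measureReal measure_ball_lt_top.ne]
        rw [h2, ← ENNReal.ofReal_mul (by positivity), ← ENNReal.ofReal_mul (by positivity)]
        congr 1
        simp
        ring

end Pool.Agent.X192.HV
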