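import Pool.Agent.X192.HV.Prof
import Pool.Agent.X192.HV.T5

set_option autoImplicit false

/-! # The rotational field -/

namespace Pool.Agent.X192.HV

open Pool.Agent.TH703.Cone MeasureTheory Set Metric Filter Topology
open scoped ENNReal RealInnerProductSpace

/-- the embedding of pairs -/
noncomputable def pairC (b : ℕ) : (ℂ × B b) →L[ℝ] W b :=
  (WithLp.prodContinuousLinearEquiv 2 ℝ ℂ (B b)).symm.toContinuousLinearMap

@[simp] lemma pairC_apply {b : ℕ} (p : ℂ × B b) : pairC b p = WithLp.toLp 2 p := rfl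

/-- multiplication with `i` in the first component -/
noncomputable def Jc (b : ℕ) : W b →L[ℝ] W b :=
  (pairC b).comp (((ContinuousLinearMap.mul ℝ ℂ Complex.I).comp (fstC b)).prod
    (0 : W b →L[ℝ] B b))

lemma Jc_apply {b : ℕ} (z : W b) : Jc b z = WithLp.toLp 2 (Complex.I * z.fst, (0 : B b)) := rfl

lemma norm_toLp_fst {b : ℕ} (x : ℂ) : ‖(WithLp.toLp 2 (x, (0 : B b)) : W b)‖ = ‖x‖ := by
  have h4 := WithLp.prod_norm_sq_eq_of_L2 (WithLp.toLp 2 (x, (0 : B b)) : W b)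
  have h5 : ‖(WithLp.toLp 2 (x, (0 : B b)) : W b)‖ ^ 2 = ‖x‖ ^ 2 := by
    rw [h4]
    simp
  exact (sq_eq_sq₀ (norm_nonneg _) (norm_nonneg _)).1 h5

lemma norm_Jc {b : ℕ} (z : W b) : ‖Jc b z‖ = ‖z.fst‖ := by
  rw [Jc_apply, norm_toLp_fst, norm_mul, Complex.norm_I, one_mul]

lemma inner_Jc {b : ℕ} (z : W b) : ⟪z, Jc b z⟫ = 0 := by
  rw [Jc_apply, WithLp.prod_inner_apply]
  have h1 : ⟪z.fst, Complex.I * z.fst⟫ = 0 := by
    rw [Complex.inner]
    simp
    ring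
  change ⟪z.fst, Complex.I * z.fst⟫ + ⟪z.snd, (0 : B b)⟫ = 0
  rw [h1, inner_zero_right, add_zero]

lemma dv_Jc {b : ℕ} (z : W b) : dv (fun z => Jc b z) z = 0 := by
  rw [Div.dv_eq_sum (stdOrthonormalBasis ℝ (W b))]
  refine Finset.sum_eq_zero fun i _ => ?_
  rw [(Jc b).fderiv]
  exact inner_Jc _

/-- the scalar factor of the field -/
noncomputable def Gf (b : ℕ) (ε δ σ : ℝ) (κ : ℝ → ℝ) (u : ℂ) (z : W b) : ℝ :=
  κ (‖z.fst‖ ^ 2) * Real.smoothTransition (((1 - ‖z.fst‖) ^ 2 - (‖z.snd‖ / ε) ^ 2) / δ - 1) *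
    (FF σ ((z.fst * u).im / ‖z.fst‖) / ‖z.fst‖)

/-- the divergence of the field -/
noncomputable def Df (b : ℕ) (ε δ σ : ℝ) (κ : ℝ → ℝ) (u : ℂ) (z : W b) : ℝ :=
  κ (‖z.fst‖ ^ 2) * Real.smoothTransition (((1 - ‖z.fst‖) ^ 2 - (‖z.snd‖ / ε) ^ 2) / δ - 1) *
    (ff σ ((z.fst * u).im / ‖z.fst‖) * (z.fst * u).re / ‖z.fst‖ ^ 2)

section

variable {b : ℕ} {ε δ σ r₀ R₁ : ℝ} {κ : ℝ → ℝ} {u : ℂ}

lemma contDiff_Gf (hr₀ : 0 < r₀) (hκ : ContDiff ℝ 1 κ)
    (hκ0 : ∀ t, t ≤ r₀ ^ 2 ∨ R₁ ^ 2 ≤ t → κ t = 0) : ContDiff ℝ 1 (Gf b ε δ σ κ u) := by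
  rw [contDiff_iff_contDiffAt]
  intro z
  by_cases hz : ‖z.fst‖ < r₀
  · have h1 : Gf b ε δ σ κ u =ᶠ[𝓝 z] fun _ => 0 := by
      have ho : IsOpen {z : W b | ‖z.fst‖ < r₀} := isOpen_lt (by fun_prop) continuous_const
      filter_upwards [ho.mem_nhds hz] with w hw
      have h2 : κ (‖w.fst‖ ^ 2) = 0 := by
        apply hκ0
        left
        have h3 : ‖w.fst‖ < r₀ := hw
        have := norm_nonneg w.fst
        nlinarith
      simp [Gf, h2]
    exact contDiffAt_const.congr_of_eventuallyEq h1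
  · have hz0 : z.fst ≠ 0 := by
      intro h
      rw [h, norm_zero] at hz
      exact hz hr₀
    have hf : ContDiffAt ℝ 1 (fun z : W b => z.fst) z := (fstC b).contDiff.contDiffAt
    have hs : ContDiffAt ℝ 1 (fun z : W b => z.snd) z := (sndC b).contDiff.contDiffAt
    have hn : ContDiffAt ℝ 1 (fun z : W b => ‖z.fst‖) z := hf.norm ℝ hz0
    have hq : ContDiffAt ℝ 1 (fun z : W b => (‖z.snd‖ / ε) ^ 2) z := by
      have : (fun z : W b => (‖z.snd‖ / ε) ^ 2) = fun z : W b => ‖z.snd‖ ^ 2 * (1 / ε ^ 2) := by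
        funext z
        rw [div_pow]
        ring
      rw [this]
      exact (hs.norm_sq ℝ).mul contDiffAt_const
    have hS : ContDiffAt ℝ 1 (fun z : W b => Real.smoothTransition
        (((1 - ‖z.fst‖) ^ 2 - (‖z.snd‖ / ε) ^ 2) / δ - 1)) z := by
      have h1 : ContDiff ℝ 1 Real.smoothTransition := Real.smoothTransition.contDiff (n := 1)
      apply h1.contDiffAt.comp
      exact ((((contDiffAt_const.sub hn).pow 2).sub hq).div_const δ).sub contDiffAt_const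
    have him : ContDiffAt ℝ 1 (fun z : W b => (z.fst * u).im) z := by
      have h1 : ContDiffAt ℝ 1 (fun z : W b => z.fst * u) z := hf.mul contDiffAt_const
      exact Complex.imCLM.contDiff.contDiffAt.comp z h1
    have hne : ‖z.fst‖ ≠ 0 := norm_ne_zero_iff.2 hz0
    have hF : ContDiffAt ℝ 1 (fun z : W b => FF σ ((z.fst * u).im / ‖z.fst‖)) z :=
      (contDiff_FF σ).contDiffAt.comp z (him.div hn hne)
    exact ((contDiff_rad hκ).contDiffAt.mul hS).mul (hF.div hn hne)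

lemma abs_re_le {x : ℂ} (hu : ‖u‖ = 1) : |(x * u).re| ≤ ‖x‖ := by
  refine (Complex.abs_re_le_norm _).trans ?_
  rw [norm_mul, hu, mul_one]

lemma hasDerivAt_curve (z : W b) : HasDerivAt (fun t : ℝ => (WithLp.toLp 2
    (Complex.exp (t * Complex.I) * z.fst, z.snd) : W b)) (Jc b z) 0 := by
  have h0 : HasDerivAt (fun t : ℝ => (t : ℂ)) 1 0 := Complex.ofRealCLM.hasDerivAt
  have h1 : HasDerivAt (fun t : ℝ => Complex.exp (t * Complex.I)) Complex.I 0 := by
    have := (h0.mul_const Complex.I).cexp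
    simpa using this
  have h2 : HasDerivAt (fun t : ℝ => (Complex.exp (t * Complex.I) * z.fst, z.snd))
      (Complex.I * z.fst, (0 : B b)) 0 := (h1.mul_const z.fst).prodMk (hasDerivAt_const _ _)
  exact ((pairC b).hasFDerivAt.comp_hasDerivAt 0 h2)

lemma fderiv_Gf (hr₀ : 0 < r₀) (hκ : ContDiff ℝ 1 κ)
    (hκ0 : ∀ t, t ≤ r₀ ^ 2 ∨ R₁ ^ 2 ≤ t → κ t = 0) (z : W b) :
    fderiv ℝ (Gf b ε δ σ κ u) z (Jc b z) = Df b ε δ σ κ u z := by
  have hG : DifferentiableAt ℝ (Gf b ε δ σ κ u) z :=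
    (contDiff_Gf hr₀ hκ hκ0).differentiable (by norm_num) z
  by_cases hz0 : z.fst = 0
  · have h1 : Jc b z = 0 := by
      rw [← norm_eq_zero, norm_Jc, hz0, norm_zero]
    have h2 : κ 0 = 0 := hκ0 0 (Or.inl (by positivity))
    rw [h1, map_zero]
    simp [Df, hz0, h2]
  · have hc0 : (WithLp.toLp 2 (Complex.exp ((0 : ℝ) * Complex.I) * z.fst, z.snd) : W b) = z := by
      rw [Complex.ofReal_zero, zero_mul, Complex.exp_zero, one_mul]
      rfl
    have h1 : HasDerivAt (fun t : ℝ => Gf b ε δ σ κ u (WithLp.toLp 2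
        (Complex.exp (t * Complex.I) * z.fst, z.snd) : W b))
        (fderiv ℝ (Gf b ε δ σ κ u) z (Jc b z)) 0 := by
      have h2 : HasFDerivAt (Gf b ε δ σ κ u) (fderiv ℝ (Gf b ε δ σ κ u) z)
          (WithLp.toLp 2 (Complex.exp ((0 : ℝ) * Complex.I) * z.fst, z.snd) : W b) := by
        rw [hc0]
        exact hG.hasFDerivAt
      exact h2.comp_hasDerivAt (0 : ℝ) (hasDerivAt_curve z)
    have hn : ∀ t : ℝ, ‖Complex.exp (t * Complex.I) * z.fst‖ = ‖z.fst‖ := by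
      intro t
      rw [norm_mul, Complex.norm_exp_ofReal_mul_I, one_mul]
    set C : ℝ := κ (‖z.fst‖ ^ 2) *
      Real.smoothTransition (((1 - ‖z.fst‖) ^ 2 - (‖z.snd‖ / ε) ^ 2) / δ - 1) with hC
    have h2 : (fun t : ℝ => Gf b ε δ σ κ u (WithLp.toLp 2
        (Complex.exp (t * Complex.I) * z.fst, z.snd) : W b)) = fun t : ℝ => C *
          (FF σ ((Complex.exp (t * Complex.I) * z.fst * u).im / ‖z.fst‖) / ‖z.fst‖) := by
      funext t
      change κ (‖Complex.exp (t * Complex.I) * z.fst‖ ^ 2) * Real.smoothTransition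
        (((1 - ‖Complex.exp (t * Complex.I) * z.fst‖) ^ 2 - (‖z.snd‖ / ε) ^ 2) / δ - 1) *
        (FF σ ((Complex.exp (t * Complex.I) * z.fst * u).im /
          ‖Complex.exp (t * Complex.I) * z.fst‖) / ‖Complex.exp (t * Complex.I) * z.fst‖) = _
      rw [hn t]
    have h0 : HasDerivAt (fun t : ℝ => (t : ℂ)) 1 0 := Complex.ofRealCLM.hasDerivAt
    have h3 : HasDerivAt (fun t : ℝ => Complex.exp (t * Complex.I)) Complex.I 0 := by
      have := (h0.mul_const Complex.I).cexp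
      simpa using this
    have h4 : HasDerivAt (fun t : ℝ => (Complex.exp (t * Complex.I) * z.fst * u).im)
        ((z.fst * u).re) 0 := by
      have h5 := ((h3.mul_const z.fst).mul_const u)
      have h6 := Complex.imCLM.hasFDerivAt.comp_hasDerivAt (0 : ℝ) h5
      refine h6.congr_deriv ?_
      simp only [Complex.imCLM_apply]
      rw [mul_assoc, Complex.I_mul_im]
    have h5 : HasDerivAt (fun t : ℝ =>
        FF σ ((Complex.exp (t * Complex.I) * z.fst * u).im / ‖z.fst‖))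
        (ff σ ((z.fst * u).im / ‖z.fst‖) * ((z.fst * u).re / ‖z.fst‖)) 0 := by
      have h6 := h4.div_const ‖z.fst‖
      have h7 : HasDerivAt (FF σ) (ff σ ((z.fst * u).im / ‖z.fst‖))
          ((Complex.exp ((0 : ℝ) * Complex.I) * z.fst * u).im / ‖z.fst‖) := by
        rw [Complex.ofReal_zero, zero_mul, Complex.exp_zero, one_mul]
        exact hasDerivAt_FF σ _
      exact h7.comp (0 : ℝ) h6
    have h6 := (h5.div_const ‖z.fst‖).const_mul C
    rw [h2] at h1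
    rw [h1.unique h6]
    simp only [Df, ← hC]
    have hne : ‖z.fst‖ ≠ 0 := norm_ne_zero_iff.2 hz0
    field_simp

lemma dv_field (hr₀ : 0 < r₀) (hκ : ContDiff ℝ 1 κ)
    (hκ0 : ∀ t, t ≤ r₀ ^ 2 ∨ R₁ ^ 2 ≤ t → κ t = 0) (z : W b) :
    dv (fun z => Gf b ε δ σ κ u z • Jc b z) z = Df b ε δ σ κ u z := by
  have hG : DifferentiableAt ℝ (Gf b ε δ σ κ u) z :=
    (contDiff_Gf hr₀ hκ hκ0).differentiable (by norm_num) z
  rw [Div.dv_smul hG (Jc b).differentiableAt, dv_Jc, mul_zero, zero_add]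
  exact fderiv_Gf hr₀ hκ hκ0 z

lemma tst_field (hε : 0 < ε) (hδ : 0 < δ) (hσ : 0 < σ) (hr₀ : 0 < r₀) (hR : r₀ < R₁) (hR1 : R₁ < 1)
    (hκ : ContDiff ℝ 1 κ) (hκ01 : ∀ t, 0 ≤ κ t ∧ κ t ≤ 1)
    (hκ0 : ∀ t, t ≤ r₀ ^ 2 ∨ R₁ ^ 2 ≤ t → κ t = 0) :
    Tst (Om b ε) (fun z => Gf b ε δ σ κ u z • Jc b z) := by
  set K : Set (W b) := {z | ‖z.fst‖ ≤ R₁ ∧ δ + (‖z.snd‖ / ε) ^ 2 ≤ (1 - ‖z.fst‖) ^ 2} with hK
  have hKc : IsClosed K :=
    (isClosed_le (f := fun z : W b => ‖z.fst‖) (by fun_prop) continuous_const).inter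
    (isClosed_le (f := fun z : W b => δ + (‖z.snd‖ / ε) ^ 2) (g := fun z => (1 - ‖z.fst‖) ^ 2)
      (by fun_prop) (by fun_prop))
  have hKO : K ⊆ Om b ε := by
    rintro z ⟨h1, h2⟩
    change ‖z.fst‖ + ‖z.snd‖ / ε < 1
    have h3 : 0 < 1 - ‖z.fst‖ := by linarith
    have h4 : 0 ≤ ‖z.snd‖ / ε := by positivity
    nlinarith
  have hsub : Function.support (fun z => Gf b ε δ σ κ u z • Jc b z) ⊆ K := by
    intro z hz
    have hG : Gf b ε δ σ κ u z ≠ 0 := by
      intro h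
      exact hz (by simp [h])
    have h1 : κ (‖z.fst‖ ^ 2) ≠ 0 := by
      intro h
      exact hG (by simp [Gf, h])
    have h2 : Real.smoothTransition (((1 - ‖z.fst‖) ^ 2 - (‖z.snd‖ / ε) ^ 2) / δ - 1) ≠ 0 := by
      intro h
      exact hG (by simp only [Gf]; rw [h]; simp)
    refine ⟨?_, ?_⟩
    · by_contra h
      push Not at h
      apply h1
      apply hκ0
      right
      have : 0 < R₁ := hr₀.trans hR
      nlinarith
    · by_contra h
      push Not at h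
      apply h2
      apply Real.smoothTransition.zero_of_nonpos
      rw [sub_nonpos, div_le_one hδ]
      linarith
  have hts : tsupport (fun z => Gf b ε δ σ κ u z • Jc b z) ⊆ K := closure_minimal hsub hKc
  refine ⟨?_, ?_, hts.trans hKO, ?_⟩
  · exact (contDiff_Gf hr₀ hκ hκ0).smul (Jc b).contDiff
  · have hb : Bornology.IsBounded K := (bdd_Om b hε).subset hKO
    have hKk : IsCompact K := Metric.isCompact_of_isClosed_isBounded hKc hb
    exact hKk.of_isClosed_subset (isClosed_tsupport _) hts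
  · intro z
    rw [norm_smul, norm_Jc, Real.norm_eq_abs]
    by_cases hz0 : z.fst = 0
    · simp [hz0]
    · have hne : 0 < ‖z.fst‖ := norm_pos_iff.2 hz0
      have h1 : |Gf b ε δ σ κ u z| ≤ 1 * 1 * (1 / ‖z.fst‖) := by
        simp only [Gf]
        rw [abs_mul, abs_mul, abs_of_nonneg (hκ01 _).1,
          abs_of_nonneg (Real.smoothTransition.nonneg _), abs_div, abs_norm]
        have g1 := (hκ01 (‖z.fst‖ ^ 2)).2
        have g2 := Real.smoothTransition.le_one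
          (((1 - ‖z.fst‖) ^ 2 - (‖z.snd‖ / ε) ^ 2) / δ - 1)
        have g2' := Real.smoothTransition.nonneg
          (((1 - ‖z.fst‖) ^ 2 - (‖z.snd‖ / ε) ^ 2) / δ - 1)
        have g3 := abs_FF_le hσ ((z.fst * u).im / ‖z.fst‖)
        gcongr
      calc |Gf b ε δ σ κ u z| * ‖z.fst‖ ≤ (1 * 1 * (1 / ‖z.fst‖)) * ‖z.fst‖ := by gcongr
        _ = 1 := by field_simp

end

end Pool.Agent.X192.HV
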