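import Pool.Agent.X192.HV.Stm

set_option autoImplicit false

/-! # Fubini on `W b`, radial integrals -/

namespace Pool.Agent.X192.HV

open Pool.Agent.TH703.Cone MeasureTheory Set Metric
open scoped ENNReal

theorem fub : S_F := by
  intro b f hf
  rw [← (WithLp.volume_preserving_toLp ℂ (B b)).lintegral_comp hf]
  rw [Measure.volume_eq_prod]
  rw [lintegral_prod]
  exact (hf.comp (by fun_prop)).aemeasurable

lemma isOpen_Om (b : ℕ) (ε : ℝ) : IsOpen (Om b ε) := by
  unfold Om
  apply isOpen_lt
  · fun_prop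
  · fun_prop

lemma measurableSet_Om (b : ℕ) (ε : ℝ) : MeasurableSet (Om b ε) := (isOpen_Om b ε).measurableSet

lemma fib_Om (b : ℕ) {ε : ℝ} (hε : 0 < ε) (x : ℂ) :
    fib (Om b ε) x = ball (0 : B b) (ε * (1 - ‖x‖)) := by
  ext y
  simp only [fib, Om, mem_ofPred_eq, mem_ball, dist_zero_right]
  rw [← lt_sub_iff_add_lt', div_lt_iff₀ hε, mul_comm]
  exact Iff.rfl

lemma vol_fib_Om {b : ℕ} {ε : ℝ} (hε : 0 < ε) {x : ℂ} (hx : ‖x‖ < 1) :
    volume (fib (Om b ε) x) = ENNReal.ofReal (vb b ε) * ENNReal.ofReal ((1 - ‖x‖) ^ b) := by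
  have h1 : (0 : ℝ) < 1 - ‖x‖ := by linarith
  rw [fib_Om b hε, mul_comm ε, Measure.addHaar_ball_mul_of_pos volume _ h1, mul_comm]
  congr 1
  · unfold vb
    rw [ofReal_measureReal measure_ball_lt_top.ne]
  · simp

lemma fib_Om_empty (b : ℕ) {ε : ℝ} (hε : 0 < ε) {x : ℂ} (hx : 1 ≤ ‖x‖) :
    fib (Om b ε) x = ∅ := by
  rw [fib_Om b hε, ball_eq_empty]
  have : 1 - ‖x‖ ≤ 0 := by linarith
  nlinarith

/-- **T7a.** -/
theorem t7a : S_T7a := by
  intro b ε hb hε f hf
  have hm : Measurable fun z : W b => f z.fst := hf.comp (by fun_prop)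
  rw [← lintegral_indicator (measurableSet_Om b ε), fub b _ (hm.indicator (measurableSet_Om b ε)),
    ← lintegral_indicator measurableSet_ball, ← lintegral_const_mul]
  · refine lintegral_congr fun x => ?_
    have h1 : ∀ y : B b, (Om b ε).indicator (fun z : W b => f z.fst) (WithLp.toLp 2 (x, y)) =
        (fib (Om b ε) x).indicator (fun _ => f x) y := by
      intro y
      by_cases h : (WithLp.toLp 2 (x, y) : W b) ∈ Om b ε
      · rw [indicator_of_mem h, indicator_of_mem (show y ∈ fib (Om b ε) x from h)]; rfl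
      · rw [indicator_of_notMem h, indicator_of_notMem (show y ∉ fib (Om b ε) x from h)]
    simp_rw [h1]
    have hfm : MeasurableSet (fib (Om b ε) x) := by rw [fib_Om b hε]; exact measurableSet_ball
    rw [lintegral_indicator hfm, lintegral_const, Measure.restrict_apply_univ]
    by_cases hx : ‖x‖ < 1
    · rw [indicator_of_mem (by simpa using hx), vol_fib_Om hε hx]
      ring
    · rw [indicator_of_notMem (by simpa using hx), fib_Om_empty b hε (not_lt.1 hx)]
      simp
  · exact (hf.mul (by fun_prop)).indicator measurableSet_ball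

/-- Radial integrals in the plane. -/
theorem lintegral_norm (g : ℝ → ℝ≥0∞) (hg : Measurable g) :
    ∫⁻ x in ball (0 : ℂ) 1, g ‖x‖ =
      ENNReal.ofReal (2 * Real.pi) * ∫⁻ ρ in Ioo (0 : ℝ) 1, g ρ * ENNReal.ofReal ρ := by
  rw [← lintegral_indicator measurableSet_ball, ← Complex.lintegral_comp_polarCoord_symm]
  have h1 : ∀ p ∈ polarCoord.target, ENNReal.ofReal p.1 •
      (ball (0 : ℂ) 1).indicator (fun x => g ‖x‖) (Complex.polarCoord.symm p) =
      (Ioo (0 : ℝ) 1).indicator (fun ρ => g ρ * ENNReal.ofReal ρ) p.1 * 1 := by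
    rintro ⟨r, θ⟩ hp
    have hr : 0 < r := by
      have := hp
      simp only [polarCoord_target, mem_prod, mem_Ioi] at this
      exact this.1
    have hn : ‖Complex.polarCoord.symm (r, θ)‖ = r := by
      rw [Complex.norm_polarCoord_symm, abs_of_pos hr]
    by_cases h : r < 1
    · rw [indicator_of_mem (by simpa [hn, abs_of_pos hr] using h), indicator_of_mem (by exact ⟨hr, h⟩), hn,
        smul_eq_mul, mul_one, mul_comm]
    · rw [indicator_of_notMem (by simpa [hn, abs_of_pos hr] using h), indicator_of_notMem (fun h' => h h'.2)]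
      simp
  rw [setLIntegral_congr_fun (by exact polarCoord.open_target.measurableSet) h1]
  rw [polarCoord_target, Measure.volume_eq_prod, ← Measure.prod_restrict,
    lintegral_prod_mul (f := (Ioo (0 : ℝ) 1).indicator (fun ρ => g ρ * ENNReal.ofReal ρ))
      (g := fun _ => 1)]
  · rw [lintegral_one, Measure.restrict_apply_univ, Real.volume_Ioo,
      show Real.pi - -Real.pi = 2 * Real.pi by ring, mul_comm]
    congr 1
    rw [← lintegral_indicator measurableSet_Ioi, ← lintegral_indicator measurableSet_Ioo]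
    refine lintegral_congr fun ρ => ?_
    by_cases h : ρ ∈ Ioo (0 : ℝ) 1
    · rw [indicator_of_mem (show ρ ∈ Ioi (0 : ℝ) from h.1), indicator_of_mem h]
    · rw [indicator_of_notMem h]
      by_cases h' : ρ ∈ Ioi (0 : ℝ)
      · rw [indicator_of_mem h', indicator_of_notMem h]
      · rw [indicator_of_notMem h']
  · exact ((hg.mul (by fun_prop)).indicator measurableSet_Ioo).aemeasurable
  · exact aemeasurable_const

theorem rad : S_R := by
  intro b ε hb hε f hf
  rw [t7a b ε hb hε (fun x => f ‖x‖) (hf.comp measurable_norm)]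
  congr 1
  have h := lintegral_norm (fun ρ => f ρ * ENNReal.ofReal ((1 - ρ) ^ b))
    (hf.mul (by fun_prop))
  rw [h]
  congr 1
  refine setLIntegral_congr_fun measurableSet_Ioo fun ρ hρ => ?_
  rw [mul_assoc, ← ENNReal.ofReal_mul (pow_nonneg (by linarith [hρ.2]) _), mul_comm ρ]

end Pool.Agent.X192.HV
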