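import Pool.Agent.X192.HV.Mom

set_option autoImplicit false

/-! # The mean of a large cone -/

namespace Pool.Agent.X192.HV

open Pool.Agent.TH703.Cone MeasureTheory Set Metric
open scoped ENNReal RealInnerProductSpace

/-- open convex cones -/
structure OCone {E : Type*} [NormedAddCommGroup E] [NormedSpace ℝ E] (G : Set E) : Prop where
  op : IsOpen G
  sm : ∀ z ∈ G, ∀ t : ℝ, 0 < t → t • z ∈ G
  ad : ∀ z ∈ G, ∀ w ∈ G, z + w ∈ G

namespace OCone

variable {E : Type*} [NormedAddCommGroup E] [NormedSpace ℝ E] {G : Set E}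

lemma convex (h : OCone G) : Convex ℝ G := by
  rw [convex_iff_forall_pos]
  intro x hx y hy a b ha hb _
  exact h.ad _ (h.sm x hx a ha) _ (h.sm y hy b hb)

lemma closure_add (h : OCone G) {z w : E} (hz : z ∈ closure G) (hw : w ∈ G) : z + w ∈ G := by
  obtain ⟨r, hr, hball⟩ := Metric.isOpen_iff.1 h.op w hw
  obtain ⟨z', hz', hd⟩ := Metric.mem_closure_iff.1 hz r hr
  have h1 : w + (z - z') ∈ G := by
    apply hball
    rw [mem_ball, dist_eq_norm, add_sub_cancel_left, ← dist_eq_norm]
    exact hd
  have h2 := h.ad _ hz' _ h1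
  have : z' + (w + (z - z')) = z + w := by abel
  rwa [this] at h2

lemma closure_smul (h : OCone G) {z : E} (hz : z ∈ closure G) {t : ℝ} (ht : 0 < t) :
    t • z ∈ closure G :=
  map_mem_closure (continuous_const_smul t) hz fun w hw => h.sm w hw t ht

end OCone

lemma Om_subset_closedBall (b : ℕ) : Om b 1 ⊆ closedBall (0 : W b) 2 := by
  intro z hz
  have h : ‖z.fst‖ + ‖z.snd‖ / 1 < 1 := hz
  rw [div_one] at h
  rw [mem_closedBall, dist_zero_right]
  have h1 := norm_nonneg z.fst
  have h2 := norm_nonneg z.snd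
  have h3 := WithLp.prod_norm_sq_eq_of_L2 z
  have h4 := norm_nonneg z
  nlinarith

lemma convex_Om (b : ℕ) {ε : ℝ} (hε : 0 < ε) : Convex ℝ (Om b ε) := by
  rw [convex_iff_forall_pos]
  intro z hz w hw s t hs ht hst
  have h1 : ‖z.fst‖ + ‖z.snd‖ / ε < 1 := hz
  have h2 : ‖w.fst‖ + ‖w.snd‖ / ε < 1 := hw
  have e1 : ‖(s • z + t • w).fst‖ ≤ s * ‖z.fst‖ + t * ‖w.fst‖ := by
    have : (s • z + t • w).fst = s • z.fst + t • w.fst := rfl
    rw [this]
    refine (norm_add_le _ _).trans ?_
    rw [norm_smul, norm_smul, Real.norm_of_nonneg hs.le, Real.norm_of_nonneg ht.le]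
  have e2 : ‖(s • z + t • w).snd‖ ≤ s * ‖z.snd‖ + t * ‖w.snd‖ := by
    have : (s • z + t • w).snd = s • z.snd + t • w.snd := rfl
    rw [this]
    refine (norm_add_le _ _).trans ?_
    rw [norm_smul, norm_smul, Real.norm_of_nonneg hs.le, Real.norm_of_nonneg ht.le]
  change ‖(s • z + t • w).fst‖ + ‖(s • z + t • w).snd‖ / ε < 1
  calc ‖(s • z + t • w).fst‖ + ‖(s • z + t • w).snd‖ / ε
      ≤ (s * ‖z.fst‖ + t * ‖w.fst‖) + (s * ‖z.snd‖ + t * ‖w.snd‖) / ε := by gcongr
    _ = s * (‖z.fst‖ + ‖z.snd‖ / ε) + t * (‖w.fst‖ + ‖w.snd‖ / ε) := by ring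
    _ < s * 1 + t * 1 := by
        have := mul_lt_mul_of_pos_left h1 hs
        have := mul_lt_mul_of_pos_left h2 ht
        linarith
    _ = 1 := by linarith

lemma vol_Om_lt_top (b : ℕ) : volume (Om b 1) < ∞ :=
  (measure_mono (Om_subset_closedBall b)).trans_lt measure_closedBall_lt_top

lemma volr_Om {b : ℕ} {ε : ℝ} (hb : 1 ≤ b) (hε : 0 < ε) :
    volume.real (Om b ε) = vb b ε * (2 * Real.pi * (1 / ((b + 1) * (b + 2)))) := by
  rw [Measure.real, vol_Om hb hε, ENNReal.toReal_ofReal]
  have := vb_pos (b := b) hε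
  positivity

/-- the projections as continuous linear maps -/
noncomputable def fstC (b : ℕ) : W b →L[ℝ] ℂ :=
  (ContinuousLinearMap.fst ℝ ℂ (B b)).comp
    (WithLp.prodContinuousLinearEquiv 2 ℝ ℂ (B b)).toContinuousLinearMap

noncomputable def sndC (b : ℕ) : W b →L[ℝ] B b :=
  (ContinuousLinearMap.snd ℝ ℂ (B b)).comp
    (WithLp.prodContinuousLinearEquiv 2 ℝ ℂ (B b)).toContinuousLinearMap

@[simp] lemma fstC_apply {b : ℕ} (z : W b) : fstC b z = z.fst := rfl
@[simp] lemma sndC_apply {b : ℕ} (z : W b) : sndC b z = z.snd := rfl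

lemma mean {b : ℕ} (hb : 1 ≤ b) {c : ℝ} (hc0 : 0 < c) {G : Set (W b)} (hG : OCone G)
    (hv : ENNReal.ofReal c * volume (Om b 1) ≤ volume (Om b 1 ∩ G)) :
    ∃ z ∈ closure G, c / (8 * (b + 2)) ≤ ‖z.fst‖ ∧ ‖z.fst‖ ≤ 1 ∧ ‖z.snd‖ ^ 2 ≤ 2 / (c * b) := by
  have hb0 : (0 : ℝ) < b := by exact_mod_cast hb
  have hVt := vol_Om_lt_top b
  set V := volume.real (Om b 1) with hV
  have hVf : V = vb b 1 * (2 * Real.pi * (1 / ((b + 1) * (b + 2)))) := volr_Om hb one_pos
  have hvb := vb_pos (b := b) one_pos
  have hpi := Real.pi_gt_three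
  have hV0 : 0 < V := by rw [hVf]; positivity
  -- choose the sign
  let D : ℝ → Set (W b) := fun s => {z | z ∈ Om b 1 ∧ z ∈ G ∧ 0 ≤ s * z.fst.re}
  have hDOm : ∀ s, D s ⊆ Om b 1 := fun s z hz => hz.1
  have hDt : ∀ s, volume (D s) < ∞ := fun s => (measure_mono (hDOm s)).trans_lt hVt
  have hDm : ∀ s, MeasurableSet (D s) := by
    intro s
    have h1 : MeasurableSet {z : W b | 0 ≤ s * z.fst.re} := by
      apply IsClosed.measurableSet
      exact isClosed_le continuous_const (by fun_prop)
    have : D s = Om b 1 ∩ (G ∩ {z : W b | 0 ≤ s * z.fst.re}) := by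
      ext z
      exact Iff.rfl
    rw [this]
    exact (measurableSet_Om b 1).inter (hG.op.measurableSet.inter h1)
  have hs : ∃ s : ℝ, (s = 1 ∨ s = -1) ∧ c / 2 * V ≤ volume.real (D s) := by
    have h1 : Om b 1 ∩ G ⊆ D 1 ∪ D (-1) := by
      rintro z ⟨hz1, hz2⟩
      rcases le_total 0 z.fst.re with h | h
      · exact Or.inl ⟨hz1, hz2, by simpa using h⟩
      · exact Or.inr ⟨hz1, hz2, by simpa using h⟩
    have h2 : c * V ≤ volume.real (D 1) + volume.real (D (-1)) := by
      have h3 : ENNReal.ofReal c * volume (Om b 1) ≤ volume (D 1) + volume (D (-1)) :=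
        hv.trans ((measure_mono h1).trans (measure_union_le _ _))
      have h4 := ENNReal.toReal_mono (ENNReal.add_lt_top.2 ⟨hDt 1, hDt (-1)⟩).ne h3
      rw [ENNReal.toReal_mul, ENNReal.toReal_ofReal hc0.le,
        ENNReal.toReal_add (hDt 1).ne (hDt (-1)).ne] at h4
      exact h4
    by_contra hcon
    push Not at hcon
    have h5 := hcon 1 (Or.inl rfl)
    have h6 := hcon (-1) (Or.inr rfl)
    linarith
  obtain ⟨s, hs1, hsD⟩ := hs
  set μD := volume.real (D s) with hμD
  have hμ0 : 0 < μD := lt_of_lt_of_le (by positivity) hsD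
  have hDne : volume (D s) ≠ 0 := by
    intro h
    rw [hμD, Measure.real, h] at hμ0
    simp at hμ0
  have hDconv : Convex ℝ (D s) := by
    have h1 : Convex ℝ {z : W b | 0 ≤ s * z.fst.re} := by
      intro x hx y hy a b' ha hb' _
      have h1 : 0 ≤ s * x.fst.re := hx
      have h2 : 0 ≤ s * y.fst.re := hy
      have h3 : (a • x + b' • y).fst.re = a * x.fst.re + b' * y.fst.re := by
        have : (a • x + b' • y).fst = a • x.fst + b' • y.fst := rfl
        rw [this]
        simp
      change 0 ≤ s * (a • x + b' • y).fst.re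
      rw [h3]
      have := mul_nonneg ha h1
      have := mul_nonneg hb' h2
      nlinarith
    exact (convex_Om b one_pos).inter (hG.convex.inter h1)
  -- integrability of linear maps
  have hcb : IsCompact (closedBall (0 : W b) 2) := isCompact_closedBall _ _
  have hint : ∀ {F : Type} [NormedAddCommGroup F] (f : W b → F), Continuous f →
      IntegrableOn f (D s) := by
    intro F _ f hf
    exact (hf.continuousOn.integrableOn_compact hcb).mono_set
      ((hDOm s).trans (Om_subset_closedBall b))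
  have hintO : ∀ {F : Type} [NormedAddCommGroup F] (f : W b → F), Continuous f →
      IntegrableOn f (Om b 1) := by
    intro F _ f hf
    exact (hf.continuousOn.integrableOn_compact hcb).mono_set (Om_subset_closedBall b)
  set zb : W b := ⨍ z in D s, z with hzb
  have hzcl : zb ∈ closure (D s) :=
    hDconv.set_average_mem_closure hDne (hDt s).ne
      ((ae_restrict_iff' (hDm s)).2 (Filter.Eventually.of_forall fun z hz => hz))
      (hint (fun z => z) continuous_id)
  have hav : ∀ ℓ : W b →L[ℝ] ℝ, μD * ℓ zb = ∫ z in D s, ℓ z := by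
    intro ℓ
    rw [hzb, setAverage_eq, map_smul, ← ℓ.integral_comp_comm (hint (fun z => z) continuous_id),
      smul_eq_mul, ← mul_assoc, mul_inv_cancel₀ hμ0.ne', one_mul]
  refine ⟨zb, closure_mono (fun z hz => hz.2.1) hzcl, ?_, ?_, ?_⟩
  · -- lower bound
    set δ : ℝ := c / (4 * (b + 2)) with hδ
    have hδ0 : 0 < δ := by positivity
    set ℓ : W b →L[ℝ] ℝ := s • (Complex.reCLM.comp (fstC b)) with hℓ
    have hℓa : ∀ z : W b, ℓ z = s * z.fst.re := fun z => rfl
    have hstrip : volume.real {z : W b | z ∈ Om b 1 ∧ |z.fst.re| < δ} ≤ μD / 2 := by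
      have h1 := strip hb hδ0
      have h2 := ENNReal.toReal_mono ENNReal.ofReal_ne_top h1
      rw [ENNReal.toReal_ofReal (by positivity)] at h2
      refine h2.trans ?_
      have h3 : vb b 1 * (4 * δ / (b + 1)) ≤ c / 4 * V := by
        rw [hVf, hδ]
        have e1 : vb b 1 * (4 * (c / (4 * (b + 2))) / (b + 1)) =
            vb b 1 * c / ((b + 1) * (b + 2)) := by
          field_simp
        have e2 : c / 4 * (vb b 1 * (2 * Real.pi * (1 / ((b + 1) * (b + 2))))) =
            vb b 1 * c / ((b + 1) * (b + 2)) * (Real.pi / 2) := by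
          field_simp
          ring
        rw [e1, e2]
        have h4 : 0 ≤ vb b 1 * c / (((b : ℝ) + 1) * (b + 2)) := by positivity
        nlinarith
      linarith
    have h1 : δ / 2 ≤ ℓ zb := by
      have h2 : δ * volume.real {z | z ∈ D s ∧ δ ≤ s * z.fst.re} ≤ ∫ z in D s, ℓ z := by
        have hm : MeasurableSet {z | z ∈ D s ∧ δ ≤ s * z.fst.re} := by
          have h1 : MeasurableSet {z : W b | δ ≤ s * z.fst.re} := by
            apply IsClosed.measurableSet
            exact isClosed_le continuous_const (by fun_prop)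
          exact (hDm s).inter h1
        have hsub : {z | z ∈ D s ∧ δ ≤ s * z.fst.re} ⊆ D s := fun z hz => hz.1
        calc δ * volume.real {z | z ∈ D s ∧ δ ≤ s * z.fst.re}
            = ∫ z in {z | z ∈ D s ∧ δ ≤ s * z.fst.re}, δ := by
              rw [setIntegral_const, smul_eq_mul, mul_comm]
          _ ≤ ∫ z in {z | z ∈ D s ∧ δ ≤ s * z.fst.re}, ℓ z := by
              apply setIntegral_mono_on _ ((hint ℓ ℓ.continuous).mono_set hsub) hm
              · intro z hz
                exact hz.2
              · exact integrableOn_const ((measure_mono hsub).trans_lt (hDt s)).ne (by simp)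
          _ ≤ ∫ z in D s, ℓ z := by
              apply setIntegral_mono_set (hint ℓ ℓ.continuous)
              · exact (ae_restrict_iff' (hDm s)).2 (Filter.Eventually.of_forall fun z hz => hz.2.2)
              · exact hsub.eventuallyLE
      have h3 : μD / 2 ≤ volume.real {z | z ∈ D s ∧ δ ≤ s * z.fst.re} := by
        have h4 : D s ⊆ {z | z ∈ D s ∧ δ ≤ s * z.fst.re} ∪
            {z : W b | z ∈ Om b 1 ∧ |z.fst.re| < δ} := by
          intro z hz
          by_cases h : δ ≤ s * z.fst.re
          · exact Or.inl ⟨hz, h⟩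
          · refine Or.inr ⟨hz.1, ?_⟩
            have h5 : |s * z.fst.re| = |z.fst.re| := by
              rcases hs1 with h | h <;> rw [h] <;> simp
            rw [← h5, abs_of_nonneg hz.2.2]
            exact not_le.1 h
        have h5 : μD ≤ volume.real {z | z ∈ D s ∧ δ ≤ s * z.fst.re} +
            volume.real {z : W b | z ∈ Om b 1 ∧ |z.fst.re| < δ} := by
          refine (measureReal_mono h4 ?_).trans (measureReal_union_le _ _)
          refine ((measure_mono (union_subset (fun z hz => hDOm s hz.1) fun z hz => hz.1)).trans_lt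
            hVt).ne
        linarith
      have h4 := hav ℓ
      have h5 : δ * (μD / 2) ≤ μD * ℓ zb := by
        rw [h4]
        exact (mul_le_mul_of_nonneg_left h3 hδ0.le).trans h2
      have h6 : μD * (δ / 2) ≤ μD * ℓ zb := by linarith
      exact le_of_mul_le_mul_left h6 hμ0
    have h2 : ℓ zb ≤ ‖zb.fst‖ := by
      rw [hℓa]
      refine (le_abs_self _).trans ?_
      have h5 : |s * zb.fst.re| = |zb.fst.re| := by
        rcases hs1 with h | h <;> rw [h] <;> simp
      rw [h5]
      exact Complex.abs_re_le_norm _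
    have h3 : c / (8 * (b + 2)) = δ / 2 := by
      rw [hδ]
      field_simp
      norm_num
    rw [h3]
    exact h1.trans h2
  · have h1 : closure (D s) ⊆ {z : W b | ‖z.fst‖ ≤ 1} := by
      apply closure_minimal
      · intro z hz
        have h : ‖z.fst‖ + ‖z.snd‖ / 1 < 1 := hz.1
        rw [div_one] at h
        have := norm_nonneg z.snd
        change ‖z.fst‖ ≤ 1
        linarith
      · exact isClosed_le (by fun_prop) continuous_const
    exact h1 hzcl
  · rcases eq_or_ne zb.snd 0 with h0 | h0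
    · rw [h0, norm_zero]
      have : 0 ≤ 2 / (c * b) := by positivity
      simpa using this
    · set e : B b := ‖zb.snd‖⁻¹ • zb.snd with he
      have hn : 0 < ‖zb.snd‖ := norm_pos_iff.2 h0
      have he1 : ‖e‖ = 1 := by
        rw [he, norm_smul, norm_inv, norm_norm, inv_mul_cancel₀ hn.ne']
      set ℓ : W b →L[ℝ] ℝ := (innerSL ℝ e).comp (sndC b) with hℓ
      have hℓa : ∀ z : W b, ℓ z = ⟪e, z.snd⟫ := fun z => rfl
      set m := ‖zb.snd‖ with hm
      have hm1 : ℓ zb = m := by
        rw [hℓa, he, real_inner_smul_left, real_inner_self_eq_norm_sq, ← hm]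
        field_simp
      have h1 := hav ℓ
      rw [hm1] at h1
      have hsq : (b : ℝ) * ∫ z in Om b 1, ℓ z ^ 2 ≤ V := by
        have h2 := mom_Om e he1
        rw [integral_eq_lintegral_of_nonneg_ae (Filter.Eventually.of_forall fun z => sq_nonneg _)
          (by exact (ℓ.continuous.pow 2).aestronglyMeasurable)]
        have h3 := ENNReal.toReal_mono hVt.ne h2
        rw [ENNReal.toReal_mul, ENNReal.toReal_natCast] at h3
        exact h3
      have hsq2 : ∫ z in D s, ℓ z ^ 2 ≤ ∫ z in Om b 1, ℓ z ^ 2 := by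
        apply setIntegral_mono_set (hintO _ (ℓ.continuous.pow 2))
        · exact Filter.Eventually.of_forall fun z => sq_nonneg _
        · exact (hDOm s).eventuallyLE
      have hvar : 0 ≤ ∫ z in D s, (ℓ z - m) ^ 2 := integral_nonneg fun z => sq_nonneg _
      have hexp : ∫ z in D s, (ℓ z - m) ^ 2 = (∫ z in D s, ℓ z ^ 2) - μD * m ^ 2 := by
        have e1 : ∀ z, (ℓ z - m) ^ 2 = ℓ z ^ 2 - 2 * m * ℓ z + m ^ 2 := fun z => by ring
        simp_rw [e1]
        rw [integral_add, integral_sub, integral_const_mul, ← h1, setIntegral_const, smul_eq_mul]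
        · ring
        · exact hint _ (ℓ.continuous.pow 2)
        · exact (hint _ ℓ.continuous).const_mul _
        · exact (hint _ (ℓ.continuous.pow 2)).sub ((hint _ ℓ.continuous).const_mul _)
        · exact integrableOn_const (hDt s).ne (by simp)
      have h2 : μD * m ^ 2 ≤ V / b := by
        rw [le_div_iff₀ hb0]
        nlinarith
      have h3 : c / 2 * V * m ^ 2 ≤ V / b :=
        (mul_le_mul_of_nonneg_right hsD (sq_nonneg m)).trans h2
      rw [le_div_iff₀ (by positivity)]
      rw [le_div_iff₀ hb0] at h3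
      have h4 : V * (m ^ 2 * (c * b)) ≤ V * 2 := by nlinarith
      exact le_of_mul_le_mul_left h4 hV0

end Pool.Agent.X192.HV
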