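import Pool.Agent.X192.HV.Vol

set_option autoImplicit false

/-! # Second moments and strips -/

namespace Pool.Agent.X192.HV

open Pool.Agent.TH703.Cone MeasureTheory Set Metric
open scoped ENNReal RealInnerProductSpace

/-- rotation invariance of the second moments of a ball -/
lemma mom_eq {b : ℕ} (e e' : B b) (h : ‖e‖ = ‖e'‖) (ρ : ℝ) :
    ∫⁻ y in ball (0 : B b) ρ, ENNReal.ofReal (⟪e, y⟫ ^ 2) =
      ∫⁻ y in ball (0 : B b) ρ, ENNReal.ofReal (⟪e', y⟫ ^ 2) := by
  set R := Submodule.reflection (ℝ ∙ (e - e'))ᗮ with hR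
  have h1 : R e = e' := Submodule.reflection_sub h
  have h2 := R.measurePreserving
  have h3 : R ⁻¹' (ball (0 : B b) ρ) = ball (0 : B b) ρ := by
    ext y
    simp only [mem_preimage, mem_ball, dist_zero_right, LinearIsometryEquiv.norm_map]
  have h4 : Measurable fun y : B b => ENNReal.ofReal (⟪e', y⟫ ^ 2) := by fun_prop
  rw [← h2.setLIntegral_comp_preimage measurableSet_ball h4, h3]
  refine lintegral_congr fun y => ?_
  rw [← h1, LinearIsometryEquiv.inner_map_map]

lemma mom {b : ℕ} (e : B b) (he : ‖e‖ = 1) (ρ : ℝ) (hρ : ρ ≤ 1) :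
    (b : ℝ≥0∞) * ∫⁻ y in ball (0 : B b) ρ, ENNReal.ofReal (⟪e, y⟫ ^ 2) ≤
      volume (ball (0 : B b) ρ) := by
  have h1 : ∀ i : Fin b, ∫⁻ y in ball (0 : B b) ρ, ENNReal.ofReal (⟪e, y⟫ ^ 2) =
      ∫⁻ y in ball (0 : B b) ρ, ENNReal.ofReal ((y i) ^ 2) := by
    intro i
    rw [mom_eq e (EuclideanSpace.single i (1 : ℝ)) (by simp [he]) ρ]
    refine lintegral_congr fun y => ?_
    rw [EuclideanSpace.inner_single_left]
    simp
  have h2 : (b : ℝ≥0∞) * ∫⁻ y in ball (0 : B b) ρ, ENNReal.ofReal (⟪e, y⟫ ^ 2) =
      ∑ i : Fin b, ∫⁻ y in ball (0 : B b) ρ, ENNReal.ofReal ((y i) ^ 2) := by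
    rw [← Finset.sum_congr rfl (fun i _ => h1 i), Finset.sum_const, Finset.card_univ,
      Fintype.card_fin, nsmul_eq_mul]
  rw [h2, ← lintegral_finsetSum _ (fun i _ => by fun_prop)]
  calc ∫⁻ y in ball (0 : B b) ρ, ∑ i : Fin b, ENNReal.ofReal ((y i) ^ 2)
      ≤ ∫⁻ y in ball (0 : B b) ρ, 1 := by
        refine setLIntegral_mono' measurableSet_ball fun y hy => ?_
        rw [← ENNReal.ofReal_sum_of_nonneg (fun i _ => sq_nonneg _), ← ENNReal.ofReal_one]
        refine ENNReal.ofReal_le_ofReal ?_
        have h3 : ‖y‖ < ρ := by simpa using hy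
        have h4 : ∑ i : Fin b, (y i) ^ 2 = ‖y‖ ^ 2 := by
          rw [EuclideanSpace.real_norm_sq_eq]
        rw [h4]
        have h5 := norm_nonneg y
        nlinarith
    _ = volume (ball (0 : B b) ρ) := by simp

/-- second moments of the body -/
lemma mom_Om {b : ℕ} (e : B b) (he : ‖e‖ = 1) :
    (b : ℝ≥0∞) * ∫⁻ z in Om b 1, ENNReal.ofReal (⟪e, z.snd⟫ ^ 2) ≤ volume (Om b 1) := by
  have hm : Measurable fun z : W b => ENNReal.ofReal (⟪e, z.snd⟫ ^ 2) := by fun_prop
  have key : ∀ f : W b → ℝ≥0∞, Measurable f → ∫⁻ z in Om b 1, f z =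
      ∫⁻ x : ℂ, ∫⁻ y in ball (0 : B b) (1 - ‖x‖), f (WithLp.toLp 2 (x, y)) := by
    intro f hf
    rw [← lintegral_indicator (measurableSet_Om b 1), fub b _ (hf.indicator (measurableSet_Om b 1))]
    refine lintegral_congr fun x => ?_
    rw [← lintegral_indicator measurableSet_ball]
    refine lintegral_congr fun y => ?_
    have h1 : y ∈ ball (0 : B b) (1 - ‖x‖) ↔ (WithLp.toLp 2 (x, y) : W b) ∈ Om b 1 := by
      have := fib_Om b zero_lt_one x
      rw [one_mul] at this
      rw [← this]
      exact Iff.rfl
    by_cases h : (WithLp.toLp 2 (x, y) : W b) ∈ Om b 1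
    · rw [indicator_of_mem h, indicator_of_mem (h1.2 h)]
    · rw [indicator_of_notMem h, indicator_of_notMem (fun h' => h (h1.1 h'))]
  have hV : volume (Om b 1) = ∫⁻ x : ℂ, volume (ball (0 : B b) (1 - ‖x‖)) := by
    have := key (fun _ => 1) measurable_const
    simpa using this
  rw [key _ hm, hV]
  rw [← lintegral_const_mul' _ _ (ENNReal.natCast_ne_top b)]
  refine lintegral_mono fun x => ?_
  exact mom e he _ (by linarith [norm_nonneg x])

/-- strips -/
lemma strip {b : ℕ} (hb : 1 ≤ b) {δ : ℝ} (hδ : 0 < δ) :
    volume {z : W b | z ∈ Om b 1 ∧ |z.fst.re| < δ} ≤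
      ENNReal.ofReal (vb b 1 * (4 * δ / (b + 1))) := by
  have hm : MeasurableSet {z : W b | |z.fst.re| < δ} := by
    apply IsOpen.measurableSet
    exact isOpen_lt (by fun_prop) continuous_const
  have hm' : MeasurableSet {x : ℂ | |x.re| < δ} := by
    apply IsOpen.measurableSet
    exact isOpen_lt (by fun_prop) continuous_const
  have e1 : {z : W b | z ∈ Om b 1 ∧ |z.fst.re| < δ} = {z : W b | |z.fst.re| < δ} ∩ Om b 1 := by
    ext z
    exact and_comm
  rw [e1, ← Measure.restrict_apply hm, ← lintegral_indicator_one hm]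
  have e2 : ({z : W b | |z.fst.re| < δ}.indicator (1 : W b → ℝ≥0∞)) =
      fun z => {x : ℂ | |x.re| < δ}.indicator (fun _ => (1 : ℝ≥0∞)) z.fst := by
    funext z
    by_cases h : |z.fst.re| < δ
    · rw [indicator_of_mem (show z ∈ {z : W b | |z.fst.re| < δ} from h),
        indicator_of_mem (show z.fst ∈ {x : ℂ | |x.re| < δ} from h)]
      rfl
    · rw [indicator_of_notMem (show z ∉ {z : W b | |z.fst.re| < δ} from h),
        indicator_of_notMem (show z.fst ∉ {x : ℂ | |x.re| < δ} from h)]
  rw [e2, t7a b 1 hb one_pos _ (measurable_const.indicator hm'),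
    ENNReal.ofReal_mul (show 0 ≤ vb b 1 from measureReal_nonneg)]
  gcongr
  -- the plane integral
  have hp := Complex.volume_preserving_equiv_real_prod.symm
  rw [← lintegral_indicator measurableSet_ball,
    ← hp.lintegral_comp_emb Complex.measurableEquivRealProd.symm.measurableEmbedding]
  calc ∫⁻ p : ℝ × ℝ, (ball (0 : ℂ) 1).indicator (fun x => {x : ℂ | |x.re| < δ}.indicator
          (fun _ => (1 : ℝ≥0∞)) x * ENNReal.ofReal ((1 - ‖x‖) ^ b))
          (Complex.measurableEquivRealProd.symm p)
      ≤ ∫⁻ p : ℝ × ℝ, (Ioo (-δ) δ).indicator (fun _ => (1 : ℝ≥0∞)) p.1 *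
          (Ioo (-1 : ℝ) 1).indicator (fun t => ENNReal.ofReal ((1 - |t|) ^ b)) p.2 := by
        refine lintegral_mono fun p => ?_
        have hre : (Complex.measurableEquivRealProd.symm p).re = p.1 := rfl
        have him : (Complex.measurableEquivRealProd.symm p).im = p.2 := rfl
        set x : ℂ := Complex.measurableEquivRealProd.symm p with hx
        by_cases h1 : x ∈ ball (0 : ℂ) 1
        · rw [indicator_of_mem h1]
          have h1' : ‖x‖ < 1 := by simpa using h1
          by_cases h2 : |x.re| < δ
          · rw [indicator_of_mem (show x ∈ {x : ℂ | |x.re| < δ} from h2),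
              indicator_of_mem (show p.1 ∈ Ioo (-δ) δ by rw [← hre]; exact abs_lt.1 h2),
              indicator_of_mem (show p.2 ∈ Ioo (-1 : ℝ) 1 by
                rw [← him]; exact abs_lt.1 ((Complex.abs_im_le_norm x).trans_lt h1')), ← him]
            gcongr
            exact Complex.abs_im_le_norm x
          · rw [indicator_of_notMem (show x ∉ {x : ℂ | |x.re| < δ} from h2), zero_mul]
            exact zero_le
        · rw [indicator_of_notMem h1]
          exact zero_le
    _ = ENNReal.ofReal (2 * δ) * ENNReal.ofReal (2 / (b + 1)) := by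
        rw [Measure.volume_eq_prod, lintegral_prod_mul
          (f := (Ioo (-δ) δ).indicator (fun _ => (1 : ℝ≥0∞)))
          (g := (Ioo (-1 : ℝ) 1).indicator (fun t => ENNReal.ofReal ((1 - |t|) ^ b)))]
        · congr 1
          · rw [lintegral_indicator measurableSet_Ioo, lintegral_one,
              Measure.restrict_apply_univ, Real.volume_Ioo]
            congr 1
            ring
          · rw [lintegral_indicator measurableSet_Ioo, ← ofReal_integral_eq_lintegral_ofReal]
            · congr 1
              rw [← integral_Ioc_eq_integral_Ioo,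
                ← intervalIntegral.integral_of_le (by norm_num : (-1 : ℝ) ≤ 1),
                ← intervalIntegral.integral_add_adjacent_intervals (b := 0)]
              · have i1 : ∫ t in (0 : ℝ)..1, (1 - |t|) ^ b = 1 / (b + 1) := by
                  have : ∫ t in (0 : ℝ)..1, (1 - |t|) ^ b = ∫ t in (0 : ℝ)..1, (1 - t) ^ b := by
                    refine intervalIntegral.integral_congr fun t ht => ?_
                    rw [uIcc_of_le zero_le_one] at ht
                    simp only [abs_of_nonneg ht.1]
                  rw [this, intervalIntegral.integral_comp_sub_left (fun t => t ^ b) 1]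
                  simp
                have i2 : ∫ t in (-1 : ℝ)..0, (1 - |t|) ^ b = 1 / (b + 1) := by
                  have : ∫ t in (-1 : ℝ)..0, (1 - |t|) ^ b = ∫ t in (-1 : ℝ)..0, (1 + t) ^ b := by
                    refine intervalIntegral.integral_congr fun t ht => ?_
                    rw [uIcc_of_le (by norm_num)] at ht
                    simp only [abs_of_nonpos ht.2, sub_neg_eq_add]
                  rw [this, intervalIntegral.integral_comp_add_left (fun t => t ^ b) 1]
                  simp
                rw [i1, i2]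
                ring
              · apply Continuous.intervalIntegrable
                fun_prop
              · apply Continuous.intervalIntegrable
                fun_prop
            · apply (Continuous.integrableOn_Icc (a := -1) (b := 1) _).mono_set Ioo_subset_Icc_self
              fun_prop
            · refine (ae_restrict_iff' measurableSet_Ioo).2 (Filter.Eventually.of_forall fun t ht => ?_)
              exact pow_nonneg (by linarith [abs_lt.2 ht]) _
        · exact (measurable_const.indicator measurableSet_Ioo).aemeasurable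
        · exact (Measurable.indicator (by fun_prop) measurableSet_Ioo).aemeasurable
    _ = ENNReal.ofReal (4 * δ / (b + 1)) := by
        rw [← ENNReal.ofReal_mul (by positivity)]
        congr 1
        ring

end Pool.Agent.X192.HV
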