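import Pool.Agent.X192.HV.Vol

set_option autoImplicit false

/-! # Numerics: the cylinder of half volume is better than the rotational bound -/

namespace Pool.Agent.X192.HV

open Pool.Agent.TH703.Cone MeasureTheory Set Metric
open scoped ENNReal

lemma exp_17 : (5.4 : ℝ) < Real.exp 1.7 := by
  have h1 : (2.7182818283 : ℝ) < Real.exp 1 := Real.exp_one_gt_d9
  have h2 : (1.105 : ℝ) ≤ Real.exp 0.1 := by
    have := Real.quadratic_le_exp_of_nonneg (x := 0.1) (by norm_num)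
    norm_num at this ⊢
    linarith
  have h3 : Real.exp 1.7 = Real.exp 1 * Real.exp 0.1 ^ 7 := by
    rw [← Real.exp_nat_mul, ← Real.exp_add]
    norm_num
  rw [h3]
  have h4 : (1.105 : ℝ) ^ 7 ≤ Real.exp 0.1 ^ 7 := by gcongr
  have h5 : (5.4 : ℝ) < 2.7182818283 * 1.105 ^ 7 := by norm_num
  have h6 : (0 : ℝ) < 1.105 ^ 7 := by norm_num
  nlinarith

lemma exp_10 : (10000 : ℝ) ≤ Real.exp 10 := by
  have h1 : (2.7182818283 : ℝ) < Real.exp 1 := Real.exp_one_gt_d9
  have h3 : Real.exp 10 = Real.exp 1 ^ 10 := by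
    rw [← Real.exp_nat_mul]
    norm_num
  rw [h3]
  calc (10000 : ℝ) ≤ 2.7182818283 ^ 10 := by norm_num
    _ ≤ _ := by gcongr

/-- the half-mass radius -/
lemma half_radius {b : ℕ} (hb : 340 ≤ b) : ∃ r : ℝ, 0 < r ∧ r ≤ 1.7 / (b + 1) ∧
    Um b r = Um b 1 / 2 := by
  have hb' : (340 : ℝ) ≤ b := by exact_mod_cast hb
  have hb1 : (0 : ℝ) < (b : ℝ) + 1 := by linarith
  have hR0 : (0 : ℝ) ≤ 1.7 / (b + 1) := by positivity
  have hU1 : Um b 1 / 2 ≤ Um b (1.7 / (b + 1)) := by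
    have h1 : (1 - 1.7 / ((b : ℝ) + 1)) ^ (b + 1) ≤ 1 / 5.4 := by
      have h2 : 1 - 1.7 / ((b : ℝ) + 1) ≤ Real.exp (-(1.7 / ((b : ℝ) + 1))) := by
        have := Real.add_one_le_exp (-(1.7 / ((b : ℝ) + 1)))
        linarith
      have h3 : 0 ≤ 1 - 1.7 / ((b : ℝ) + 1) := by
        rw [sub_nonneg, div_le_one hb1]
        linarith
      calc (1 - 1.7 / ((b : ℝ) + 1)) ^ (b + 1) ≤ Real.exp (-(1.7 / ((b : ℝ) + 1))) ^ (b + 1) := by
            gcongr
        _ = Real.exp (-1.7) := by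
            rw [← Real.exp_nat_mul]
            congr 1
            push_cast
            field_simp
        _ = 1 / Real.exp 1.7 := by rw [Real.exp_neg, one_div]
        _ ≤ 1 / 5.4 := by
            apply one_div_le_one_div_of_le (by norm_num) exp_17.le
    have h4 : ((b : ℝ) + 1) * (1.7 / (b + 1)) = 1.7 := by field_simp
    rw [Um_one]
    unfold Um
    rw [h4, div_div, div_le_div_iff₀ (by positivity) (by positivity)]
    have h5 : 1 / 2 ≤ 1 - (1 - 1.7 / ((b : ℝ) + 1)) ^ (b + 1) * (1 + 1.7) := by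
      norm_num at h1 ⊢
      linarith
    have h6 : (0 : ℝ) < ((b : ℝ) + 1) * (b + 2) := by positivity
    nlinarith
  have hU0 : Um b 0 ≤ Um b 1 / 2 := by
    rw [Um_zero, Um_one]
    positivity
  obtain ⟨r, hr, hre⟩ := intermediate_value_Icc hR0 (continuous_Um b).continuousOn ⟨hU0, hU1⟩
  refine ⟨r, lt_of_le_of_ne hr.1 ?_, hr.2, hre⟩
  intro h
  rw [← h, Um_zero, Um_one] at hre
  have : (0 : ℝ) < 1 / ((b + 1) * (b + 2)) / 2 := by positivity
  linarith

/-- the cut-off function -/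
noncomputable def cut (r₀ R₁ t : ℝ) : ℝ :=
  Real.smoothTransition ((t - r₀ ^ 2) / (3 * r₀ ^ 2)) *
    Real.smoothTransition ((R₁ ^ 2 - t) / (3 / 4 * R₁ ^ 2))

lemma contDiff_cut (r₀ R₁ : ℝ) : ContDiff ℝ 1 (cut r₀ R₁) := by
  have h1 : ContDiff ℝ 1 Real.smoothTransition := Real.smoothTransition.contDiff (n := 1)
  unfold cut
  exact (h1.comp (by fun_prop)).mul (h1.comp (by fun_prop))

lemma cut_mem (r₀ R₁ t : ℝ) : 0 ≤ cut r₀ R₁ t ∧ cut r₀ R₁ t ≤ 1 := by
  unfold cut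
  refine ⟨mul_nonneg (Real.smoothTransition.nonneg _) (Real.smoothTransition.nonneg _), ?_⟩
  exact mul_le_one₀ (Real.smoothTransition.le_one _) (Real.smoothTransition.nonneg _)
    (Real.smoothTransition.le_one _)

lemma cut_zero {r₀ R₁ : ℝ} (hr : 0 < r₀) (hR : 0 < R₁) (t : ℝ) (h : t ≤ r₀ ^ 2 ∨ R₁ ^ 2 ≤ t) :
    cut r₀ R₁ t = 0 := by
  unfold cut
  rcases h with h | h
  · rw [Real.smoothTransition.zero_of_nonpos, zero_mul]
    exact div_nonpos_of_nonpos_of_nonneg (by linarith) (by positivity)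
  · rw [mul_comm, Real.smoothTransition.zero_of_nonpos, zero_mul]
    exact div_nonpos_of_nonpos_of_nonneg (by linarith) (by positivity)

lemma cut_one {r₀ R₁ ρ : ℝ} (hr : 0 < r₀) (hR : 0 < R₁) (h1 : 2 * r₀ ≤ ρ) (h2 : ρ ≤ R₁ / 2) :
    cut r₀ R₁ (ρ ^ 2) = 1 := by
  unfold cut
  rw [Real.smoothTransition.one_of_one_le, Real.smoothTransition.one_of_one_le, mul_one]
  · rw [one_le_div (by positivity)]
    nlinarith
  · rw [one_le_div (by positivity)]
    nlinarith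

/-- **The numerical inequality.** -/
lemma numeric {b : ℕ} (hb : 340 ≤ b) {r r₀ R₁ : ℝ} (hr0 : 0 < r) (hr1 : r ≤ 1.7 / (b + 1))
    (hr : Um b r = Um b 1 / 2) (hr₀ : r₀ = 1 / (2000 * (b + 1))) (hR₁ : R₁ = 20 / b) :
    2 * Real.pi * r * (1 - r) ^ b < 2 * ∫ ρ in r₀..R₁, cut r₀ R₁ (ρ ^ 2) * (1 - ρ) ^ b := by
  have hb' : (340 : ℝ) ≤ b := by exact_mod_cast hb
  have hb0 : (0 : ℝ) < b := by linarith
  have hb1 : (0 : ℝ) < (b : ℝ) + 1 := by linarith
  have hr₀0 : 0 < r₀ := by rw [hr₀]; positivity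
  have hR₁0 : 0 < R₁ := by rw [hR₁]; positivity
  have hR₁1 : R₁ < 1 := by rw [hR₁, div_lt_one hb0]; linarith
  have hrb : ((b : ℝ) + 1) * r₀ = 1 / 2000 := by rw [hr₀]; field_simp
  have hRb : (b : ℝ) * R₁ = 20 := by rw [hR₁]; field_simp
  have h2r : 2 * r₀ < R₁ / 2 := by nlinarith
  -- lower bound for the right hand side
  have hc : Continuous fun ρ : ℝ => cut r₀ R₁ (ρ ^ 2) * (1 - ρ) ^ b := by
    have := (contDiff_cut r₀ R₁).continuous
    fun_prop
  have hlow : (0.9989 : ℝ) / (b + 1) ≤ ∫ ρ in r₀..R₁, cut r₀ R₁ (ρ ^ 2) * (1 - ρ) ^ b := by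
    have e1 : ∫ ρ in r₀..R₁, cut r₀ R₁ (ρ ^ 2) * (1 - ρ) ^ b =
        (∫ ρ in r₀..(2 * r₀), cut r₀ R₁ (ρ ^ 2) * (1 - ρ) ^ b) +
        ((∫ ρ in (2 * r₀)..(R₁ / 2), cut r₀ R₁ (ρ ^ 2) * (1 - ρ) ^ b) +
        ∫ ρ in (R₁ / 2)..R₁, cut r₀ R₁ (ρ ^ 2) * (1 - ρ) ^ b) := by
      rw [intervalIntegral.integral_add_adjacent_intervals (hc.intervalIntegrable _ _)
        (hc.intervalIntegrable _ _), intervalIntegral.integral_add_adjacent_intervals
        (hc.intervalIntegrable _ _) (hc.intervalIntegrable _ _)]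
    have e2 : 0 ≤ ∫ ρ in r₀..(2 * r₀), cut r₀ R₁ (ρ ^ 2) * (1 - ρ) ^ b := by
      apply intervalIntegral.integral_nonneg (by linarith)
      intro ρ hρ
      exact mul_nonneg (cut_mem _ _ _).1 (pow_nonneg (by linarith [hρ.2]) _)
    have e3 : 0 ≤ ∫ ρ in (R₁ / 2)..R₁, cut r₀ R₁ (ρ ^ 2) * (1 - ρ) ^ b := by
      apply intervalIntegral.integral_nonneg (by linarith)
      intro ρ hρ
      exact mul_nonneg (cut_mem _ _ _).1 (pow_nonneg (by linarith [hρ.2]) _)
    have e4 : ∫ ρ in (2 * r₀)..(R₁ / 2), cut r₀ R₁ (ρ ^ 2) * (1 - ρ) ^ b =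
        ((1 - 2 * r₀) ^ (b + 1) - (1 - R₁ / 2) ^ (b + 1)) / (b + 1) := by
      have e5 : ∫ ρ in (2 * r₀)..(R₁ / 2), cut r₀ R₁ (ρ ^ 2) * (1 - ρ) ^ b =
          ∫ ρ in (2 * r₀)..(R₁ / 2), (1 - ρ) ^ b := by
        apply intervalIntegral.integral_congr
        intro ρ hρ
        rw [uIcc_of_le h2r.le] at hρ
        change cut r₀ R₁ (ρ ^ 2) * (1 - ρ) ^ b = (1 - ρ) ^ b
        rw [cut_one hr₀0 hR₁0 hρ.1 hρ.2, one_mul]
      have hd : ∀ ρ ∈ uIcc (2 * r₀) (R₁ / 2), HasDerivAt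
          (fun ρ : ℝ => - (1 - ρ) ^ (b + 1) / (b + 1)) ((1 - ρ) ^ b) ρ := by
        intro ρ _
        have h1 : HasDerivAt (fun r : ℝ => 1 - r) (-1) ρ := by
          simpa using (hasDerivAt_id ρ).const_sub 1
        have h2 : HasDerivAt (fun r : ℝ => (1 - r) ^ (b + 1))
            (((b + 1 : ℕ) : ℝ) * (1 - ρ) ^ b * (-1)) ρ := h1.pow (b + 1)
        refine (h2.neg.div_const ((b : ℝ) + 1)).congr_deriv ?_
        push_cast
        field_simp
      rw [e5, intervalIntegral.integral_eq_sub_of_hasDerivAt hd]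
      · ring
      · apply Continuous.intervalIntegrable
        fun_prop
    have e6 : (0.999 : ℝ) ≤ (1 - 2 * r₀) ^ (b + 1) := by
      have h1 := one_add_mul_le_pow (a := -(2 * r₀)) (by nlinarith) (b + 1)
      push_cast at h1
      have h2 : (1 : ℝ) + -(2 * r₀) = 1 - 2 * r₀ := by ring
      rw [h2] at h1
      refine le_trans ?_ h1
      norm_num
      linarith
    have e7 : (1 - R₁ / 2) ^ (b + 1) ≤ (0.0001 : ℝ) := by
      have h2 : 1 - R₁ / 2 ≤ Real.exp (-(R₁ / 2)) := by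
        have := Real.add_one_le_exp (-(R₁ / 2))
        linarith
      have h3 : 0 ≤ 1 - R₁ / 2 := by linarith
      calc (1 - R₁ / 2) ^ (b + 1) ≤ Real.exp (-(R₁ / 2)) ^ (b + 1) := by gcongr
        _ = Real.exp (((b + 1 : ℕ) : ℝ) * (-(R₁ / 2))) := by rw [Real.exp_nat_mul]
        _ ≤ Real.exp (-10) := by
            apply Real.exp_le_exp.2
            push_cast
            nlinarith
        _ = 1 / Real.exp 10 := by rw [Real.exp_neg, one_div]
        _ ≤ 1 / 10000 := one_div_le_one_div_of_le (by norm_num) exp_10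
        _ = _ := by norm_num
    have e8 : (0.9989 : ℝ) / (b + 1) ≤
        ((1 - 2 * r₀) ^ (b + 1) - (1 - R₁ / 2) ^ (b + 1)) / (b + 1) := by
      apply div_le_div_of_nonneg_right _ hb1.le
      norm_num at e6 e7 ⊢
      linarith
    rw [e1, e4]
    linarith
  -- upper bound for the left hand side
  have hs : ((b : ℝ) + 1) * r ≤ 1.7 := by
    rw [le_div_iff₀ hb1] at hr1
    linarith
  have hr005 : r ≤ 0.005 := by
    refine hr1.trans ?_
    rw [div_le_iff₀ hb1]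
    norm_num
    linarith
  have h1r : 0 < 1 - r := by
    norm_num at hr005
    linarith
  have heq : (1 - r) ^ (b + 1) * (1 + (b + 1) * r) = 1 / 2 := by
    rw [Um_one] at hr
    unfold Um at hr
    have hne : ((b : ℝ) + 1) * (b + 2) ≠ 0 := by positivity
    rw [div_div, div_eq_div_iff hne (by positivity)] at hr
    have : (((b : ℝ) + 1) * (b + 2)) * ((1 - r) ^ (b + 1) * (1 + (b + 1) * r) - 1 / 2) = 0 := by
      linarith
    have h2 := (mul_eq_zero.1 this).resolve_left hne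
    linarith
  have hup : 2 * Real.pi * r * (1 - r) ^ b < 2 * (0.9989 / (b + 1)) := by
    have hpi : Real.pi < 3.1416 := Real.pi_lt_d4
    have hpi0 := Real.pi_pos
    set s := ((b : ℝ) + 1) * r with hsd
    have hs0 : 0 < s := by positivity
    have h3 : (1 - r) ^ b = 1 / (2 * (1 + s) * (1 - r)) := by
      rw [eq_div_iff (by positivity)]
      rw [pow_succ] at heq
      linarith
    have h4 : 2 * Real.pi * r * (1 - r) ^ b = Real.pi * s / ((b + 1) * ((1 + s) * (1 - r))) := by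
      rw [h3, hsd]
      field_simp
    rw [h4, mul_div_assoc', div_lt_div_iff₀ (by positivity) hb1]
    have h5 : Real.pi * s < 2 * 0.9989 * ((1 + s) * (1 - r)) := by
      have h6 : (0.995 : ℝ) ≤ 1 - r := by
        norm_num at hr005 ⊢
        linarith
      have h7 : 2 * 0.9989 * ((1 + s) * 0.995) ≤ 2 * 0.9989 * ((1 + s) * (1 - r)) := by
        gcongr
      have h8 : Real.pi * s ≤ 3.1416 * s := by gcongr
      norm_num at h7 h8 hs ⊢
      linarith
    calc Real.pi * s * ((b : ℝ) + 1) < 2 * 0.9989 * ((1 + s) * (1 - r)) * ((b : ℝ) + 1) := by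
          gcongr
      _ = 2 * 0.9989 * ((b + 1) * ((1 + s) * (1 - r))) := by ring
  linarith

end Pool.Agent.X192.HV
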