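import Pool.Agent.X192.HV.T3

set_option autoImplicit false

/-! # The angular profile -/

namespace Pool.Agent.X192.HV

open MeasureTheory Set Filter Topology

/-- the derivative of the angular profile -/
noncomputable def ff (σ t : ℝ) : ℝ := 3 / (2 * σ) * max (1 - (t / σ) ^ 2) 0

/-- the angular profile -/
noncomputable def FF (σ t : ℝ) : ℝ := ∫ s in (0 : ℝ)..t, ff σ s

lemma continuous_ff (σ : ℝ) : Continuous (ff σ) := by
  unfold ff
  fun_prop

lemma ff_nonneg {σ : ℝ} (hσ : 0 < σ) (t : ℝ) : 0 ≤ ff σ t := by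
  unfold ff
  have : 0 ≤ max (1 - (t / σ) ^ 2) 0 := le_max_right _ _
  positivity

lemma ff_le {σ : ℝ} (hσ : 0 < σ) (t : ℝ) : ff σ t ≤ 3 / (2 * σ) := by
  unfold ff
  have h : max (1 - (t / σ) ^ 2) 0 ≤ 1 := max_le (by linarith [sq_nonneg (t / σ)]) zero_le_one
  calc 3 / (2 * σ) * max (1 - (t / σ) ^ 2) 0 ≤ 3 / (2 * σ) * 1 := by gcongr
    _ = _ := mul_one _

lemma ff_zero {σ t : ℝ} (hσ : 0 < σ) (h : σ ≤ |t|) : ff σ t = 0 := by
  unfold ff
  have h1 : 1 - (t / σ) ^ 2 ≤ 0 := by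
    have : 1 ≤ (t / σ) ^ 2 := by
      rw [div_pow, one_le_div (by positivity), ← sq_abs t]
      gcongr
    linarith
  rw [max_eq_right h1, mul_zero]

lemma ff_neg (σ t : ℝ) : ff σ (-t) = ff σ t := by
  unfold ff
  rw [neg_div, neg_sq]

lemma hasDerivAt_FF (σ t : ℝ) : HasDerivAt (FF σ) (ff σ t) t := by
  unfold FF
  exact intervalIntegral.integral_hasDerivAt_right ((continuous_ff σ).intervalIntegrable _ _)
    ((continuous_ff σ).stronglyMeasurableAtFilter _ _) (continuous_ff σ).continuousAt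

lemma contDiff_FF (σ : ℝ) : ContDiff ℝ 1 (FF σ) := by
  rw [contDiff_one_iff_deriv]
  refine ⟨fun t => (hasDerivAt_FF σ t).differentiableAt, ?_⟩
  have : deriv (FF σ) = ff σ := funext fun t => (hasDerivAt_FF σ t).deriv
  rw [this]
  exact continuous_ff σ

lemma FF_sigma {σ : ℝ} (hσ : 0 < σ) : FF σ σ = 1 := by
  unfold FF
  have h1 : ∫ s in (0 : ℝ)..σ, ff σ s = ∫ s in (0 : ℝ)..σ, 3 / (2 * σ) * (1 - (s / σ) ^ 2) := by
    apply intervalIntegral.integral_congr
    intro s hs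
    rw [uIcc_of_le hσ.le] at hs
    have h2 : (s / σ) ^ 2 ≤ 1 := by
      have h3 : s / σ ≤ 1 := (div_le_one hσ).2 hs.2
      have h4 : 0 ≤ s / σ := div_nonneg hs.1 hσ.le
      nlinarith
    change 3 / (2 * σ) * max (1 - (s / σ) ^ 2) 0 = _
    rw [max_eq_left (by linarith)]
  rw [h1]
  have hd : ∀ s ∈ uIcc (0 : ℝ) σ, HasDerivAt (fun s => 3 / (2 * σ) * (s - s ^ 3 / (3 * σ ^ 2)))
      (3 / (2 * σ) * (1 - (s / σ) ^ 2)) s := by
    intro s _
    have e1 : HasDerivAt (fun s : ℝ => s ^ 3) (3 * s ^ 2) s := by simpa using hasDerivAt_pow 3 s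
    have e2 := ((hasDerivAt_id s).sub (e1.div_const (3 * σ ^ 2))).const_mul (3 / (2 * σ))
    refine e2.congr_deriv ?_
    field_simp
  rw [intervalIntegral.integral_eq_sub_of_hasDerivAt hd]
  · field_simp
    ring
  · apply Continuous.intervalIntegrable
    fun_prop

lemma FF_odd (σ t : ℝ) : FF σ (-t) = - FF σ t := by
  unfold FF
  have h := intervalIntegral.integral_comp_neg (f := ff σ) (a := 0) (b := t)
  simp only [ff_neg, neg_zero] at h
  rw [h, intervalIntegral.integral_symm]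

lemma FF_one {σ t : ℝ} (hσ : 0 < σ) (h : σ ≤ t) : FF σ t = 1 := by
  have h1 : FF σ t = FF σ σ + ∫ s in σ..t, ff σ s := by
    unfold FF
    rw [intervalIntegral.integral_add_adjacent_intervals]
    · exact (continuous_ff σ).intervalIntegrable _ _
    · exact (continuous_ff σ).intervalIntegrable _ _
  rw [h1, FF_sigma hσ]
  have h2 : ∫ s in σ..t, ff σ s = ∫ s in σ..t, (0 : ℝ) := by
    apply intervalIntegral.integral_congr
    intro s hs
    rw [uIcc_of_le h] at hs
    exact ff_zero hσ (hs.1.trans (le_abs_self _))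
  rw [h2]
  simp

lemma monotone_FF {σ : ℝ} (hσ : 0 < σ) : Monotone (FF σ) := by
  apply monotone_of_deriv_nonneg
  · exact fun t => (hasDerivAt_FF σ t).differentiableAt
  · intro t
    rw [(hasDerivAt_FF σ t).deriv]
    exact ff_nonneg hσ t

lemma abs_FF_le {σ : ℝ} (hσ : 0 < σ) (t : ℝ) : |FF σ t| ≤ 1 := by
  rw [abs_le]
  constructor
  · have h1 : FF σ (min t (-σ)) ≤ FF σ t := monotone_FF hσ (min_le_left _ _)
    have h2 : FF σ (min t (-σ)) = -1 := by
      have h3 : min t (-σ) = -(-(min t (-σ))) := by ring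
      rw [h3, FF_odd, FF_one hσ]
      have := min_le_right t (-σ)
      linarith
    linarith
  · have h1 : FF σ t ≤ FF σ (max t σ) := monotone_FF hσ (le_max_left _ _)
    rw [FF_one hσ (le_max_right _ _)] at h1
    exact h1

/-- the angular integral -/
lemma integral_angle {σ : ℝ} (hσ : 0 < σ) (hσ1 : σ ≤ 1) :
    ∫ θ in (-(Real.pi / 2))..(Real.pi / 2), ff σ (Real.sin θ) * Real.cos θ = 2 := by
  have hd : ∀ θ ∈ uIcc (-(Real.pi / 2)) (Real.pi / 2), HasDerivAt (fun θ => FF σ (Real.sin θ))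
      (ff σ (Real.sin θ) * Real.cos θ) θ := by
    intro θ _
    exact (hasDerivAt_FF σ (Real.sin θ)).comp θ (Real.hasDerivAt_sin θ)
  rw [intervalIntegral.integral_eq_sub_of_hasDerivAt hd]
  · rw [Real.sin_neg, Real.sin_pi_div_two, FF_odd, FF_one hσ hσ1]
    norm_num
  · apply Continuous.intervalIntegrable
    exact ((continuous_ff σ).comp Real.continuous_sin).mul Real.continuous_cos

lemma lintegral_angle {σ : ℝ} (hσ : 0 < σ) (hσ1 : σ ≤ 1) :
    ∫⁻ θ in Ioc (-(Real.pi / 2)) (Real.pi / 2), ENNReal.ofReal (ff σ (Real.sin θ) * Real.cos θ) = 2 := by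
  have h := integral_angle hσ hσ1
  have hpi := Real.pi_pos
  rw [intervalIntegral.integral_of_le (by linarith)] at h
  rw [← ofReal_integral_eq_lintegral_ofReal, h]
  · simp
  · have h1 : Continuous fun θ : ℝ => ff σ (Real.sin θ) * Real.cos θ :=
      ((continuous_ff σ).comp Real.continuous_sin).mul Real.continuous_cos
    have : IntegrableOn (fun θ : ℝ => ff σ (Real.sin θ) * Real.cos θ)
        (Icc (-(Real.pi / 2)) (Real.pi / 2)) := h1.integrableOn_Icc
    exact this.mono_set Ioc_subset_Icc_self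
  · refine (ae_restrict_iff' measurableSet_Ioc).2 (Filter.Eventually.of_forall fun θ hθ => ?_)
    exact mul_nonneg (ff_nonneg hσ _) (Real.cos_nonneg_of_mem_Icc ⟨hθ.1.le, hθ.2⟩)

end Pool.Agent.X192.HV
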