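import Pool.Agent.TH703.Cone.Stm

set_option autoImplicit false

/-!
# S04892 (MP_65ff7c_an): statements of the remaining parts

`Om b ε = {(x, y) ∈ ℂ × ℝ^b : |x| + |y| / ε < 1}`, `fib A x` the fibre of `A` over `x`,
`vb b ε` the volume of the ball of radius `ε` in `ℝ^b`, `dv` the divergence, `Tst Ω φ` the test
fields, `PLE Ω A P`: the perimeter of `A` relative to `Ω` is at most `P`
(all in `Pool.Agent.TH703.Cone.Stm`).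
-/

namespace Pool.Agent.X192.HV

open Pool.Agent.TH703.Cone MeasureTheory Set Metric
open scoped ENNReal

/-- **F.** Fubini on `W b`. -/
def S_F : Prop := ∀ (b : ℕ) (f : W b → ℝ≥0∞), Measurable f →
    ∫⁻ z, f z = ∫⁻ x : ℂ, ∫⁻ y : B b, f (WithLp.toLp 2 (x, y))

/-- **R.** Radial integrals over the body. -/
def S_R : Prop := ∀ (b : ℕ) (ε : ℝ), 1 ≤ b → 0 < ε → ∀ f : ℝ → ℝ≥0∞, Measurable f →
    ∫⁻ z in Om b ε, f ‖z.fst‖ = ENNReal.ofReal (vb b ε) * (ENNReal.ofReal (2 * Real.pi) *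
      ∫⁻ ρ in Ioo (0 : ℝ) 1, f ρ * ENNReal.ofReal (ρ * (1 - ρ) ^ b))

/-- **T4.** Lower bound by the rotational field: `κ` is a radial cut-off function. -/
def S_T4 : Prop := ∀ (b : ℕ) (ε P : ℝ) (A : Set (W b)) (u : ℂ) (σ r₀ R₁ : ℝ) (κ : ℝ → ℝ),
    1 ≤ b → 0 < ε → MeasurableSet A → A ⊆ Om b ε → PLE (Om b ε) A P → ‖u‖ = 1 →
    0 < σ → σ ≤ 1 / 2 → 0 < r₀ → r₀ < R₁ → R₁ < 1 → ContDiff ℝ 1 κ →
    (∀ t, 0 ≤ κ t ∧ κ t ≤ 1) → (∀ t, t ≤ r₀ ^ 2 ∨ R₁ ^ 2 ≤ t → κ t = 0) →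
    vb b ε * (2 * ∫ ρ in r₀..R₁, κ (ρ ^ 2) * (1 - ρ) ^ b) ≤ P + 3 / (2 * σ * r₀) *
      (volume.real {z | z ∈ Om b ε \ A ∧ z.fst ∈ Wp u σ r₀ R₁} +
        volume.real {z | z ∈ A ∧ -z.fst ∈ Wp u σ r₀ R₁})

/-- **T6.** Geometry of cones of volume at least `c |Om b ε|`. -/
def S_T6 : Prop := ∀ c K : ℝ, 0 < c → c ≤ 1 → 2 ≤ K → ∃ b₀ : ℕ, ∀ b : ℕ, b₀ ≤ b →
    ∀ r₀ : ℝ, 0 < r₀ → ∃ σ η : ℝ, 0 < σ ∧ σ ≤ 1 / 2 ∧ 0 < η ∧ ∀ (ε : ℝ) (G : Set (W b)), 0 < ε →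
      IsOpen G → (∀ z ∈ G, ∀ t : ℝ, 0 < t → t • z ∈ G) → (∀ z ∈ G, ∀ w ∈ G, z + w ∈ G) →
      ENNReal.ofReal c * volume (Om b ε) ≤ volume (Om b ε ∩ G) →
      ∃ u : ℂ, ‖u‖ = 1 ∧ ∀ x ∈ Wp u σ r₀ ((K - 1) / b),
        ENNReal.ofReal (η * vb b ε) ≤ volume (fib (Om b ε ∩ G) x)

end Pool.Agent.X192.HV
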