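import Pool.Agent.X192.HV.Mean
import Pool.Agent.TH703.Cone.Div

set_option autoImplicit false

/-! # The relative perimeter of the cylinders -/

namespace Pool.Agent.X192.HV

open Pool.Agent.TH703.Cone MeasureTheory Set Metric Filter Topology
open scoped ENNReal RealInnerProductSpace

lemma norm_fst_le {b : ℕ} (z : W b) : ‖z.fst‖ ≤ ‖z‖ := by
  have h4 : ‖z‖ ^ 2 = ‖z.fst‖ ^ 2 + ‖z.snd‖ ^ 2 := WithLp.prod_norm_sq_eq_of_L2 z
  have h5 := norm_nonneg z.fst
  have h7 := norm_nonneg z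
  nlinarith [sq_nonneg ‖z.snd‖]

lemma hasFDerivAt_rad {b : ℕ} {κ : ℝ → ℝ} (hκ : ContDiff ℝ 1 κ) (z : W b) :
    HasFDerivAt (fun z : W b => κ (‖z.fst‖ ^ 2))
      (deriv κ (‖z.fst‖ ^ 2) • ((2 : ℝ) • (innerSL ℝ z.fst).comp (fstC b))) z := by
  have h1 : HasFDerivAt (fun z : W b => ‖z.fst‖ ^ 2) ((2 : ℝ) • (innerSL ℝ z.fst).comp (fstC b)) z := by
    have := ((fstC b).hasFDerivAt (x := z)).norm_sq
    refine this.congr_fderiv ?_
    rw [two_smul, two_smul]
    rfl
  have h2 : HasDerivAt κ (deriv κ (‖z.fst‖ ^ 2)) (‖z.fst‖ ^ 2) :=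
    (hκ.differentiable (by norm_num) _).hasDerivAt
  exact h2.comp_hasFDerivAt z h1

lemma contDiff_rad {b : ℕ} {κ : ℝ → ℝ} (hκ : ContDiff ℝ 1 κ) :
    ContDiff ℝ 1 fun z : W b => κ (‖z.fst‖ ^ 2) :=
  hκ.comp ((fstC b).contDiff.norm_sq ℝ)

/-- cylinder estimate with a cut-off function -/
lemma cyl_aux {b : ℕ} {ε s r : ℝ} (hb : 1 ≤ b) (hε : 0 < ε) (hs : 0 ≤ s) (hsr : s < r) (hr : r < 1)
    {κ : ℝ → ℝ} (hκ : ContDiff ℝ 1 κ) (hneg : ∀ t, deriv κ t ≤ 0)
    (hout : ∀ t, t < s ^ 2 ∨ r ^ 2 < t → deriv κ t = 0) (h01 : κ 0 - κ 1 ≤ 1)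
    {φ : W b → W b} (hφ : Tst (Om b ε) φ) :
    ∫ z, κ (‖z.fst‖ ^ 2) * dv φ z ≤ vb b ε * (2 * Real.pi * r * (1 - s) ^ b) := by
  have hvb : 0 < vb b ε := vb_pos hε
  have hr0 : 0 < r := lt_of_le_of_lt hs hsr
  have hpi := Real.pi_pos
  set h : ℝ → ℝ := fun ρ => - deriv κ (ρ ^ 2) * (2 * ρ) with hh
  have hdc : Continuous (deriv κ) := hκ.continuous_deriv (by norm_num)
  have hhc : Continuous h := by
    rw [hh]
    fun_prop
  rw [Div.integral_mul_dv (contDiff_rad hκ) hφ.c1 hφ.cs]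
  have hle : ∀ z : W b, ‖fderiv ℝ (fun z : W b => κ (‖z.fst‖ ^ 2)) z (φ z)‖ₑ ≤
      (Om b ε).indicator (fun z => ENNReal.ofReal (h ‖z.fst‖)) z := by
    intro z
    by_cases hz : z ∈ Om b ε
    · rw [indicator_of_mem hz, (hasFDerivAt_rad hκ z).fderiv, ← ofReal_norm_eq_enorm]
      apply ENNReal.ofReal_le_ofReal
      simp only [ContinuousLinearMap.smul_apply, ContinuousLinearMap.comp_apply, innerSL_apply_apply,
        fstC_apply, smul_eq_mul]
      rw [Real.norm_eq_abs, abs_mul, abs_mul, abs_two, abs_of_nonpos (hneg _)]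
      have h1 : |⟪z.fst, (φ z).fst⟫| ≤ ‖z.fst‖ := by
        refine (abs_real_inner_le_norm _ _).trans ?_
        have h2 := (norm_fst_le (φ z)).trans (hφ.le z)
        have h3 := norm_nonneg z.fst
        nlinarith
      have h2 : 0 ≤ - deriv κ (‖z.fst‖ ^ 2) := by linarith [hneg (‖z.fst‖ ^ 2)]
      change _ ≤ - deriv κ (‖z.fst‖ ^ 2) * (2 * ‖z.fst‖)
      gcongr
    · rw [indicator_of_notMem hz]
      have h1 : φ z = 0 := by
        apply image_eq_zero_of_notMem_tsupport
        exact fun h' => hz (hφ.sub h')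
      rw [h1, map_zero]
      simp
  have hI : ∫⁻ ρ in Ioo (0 : ℝ) 1, ENNReal.ofReal (h ρ) ≤ 1 := by
    have h1 : ∫ ρ in (0 : ℝ)..1, h ρ = κ 0 - κ 1 := by
      have hd : ∀ ρ ∈ uIcc (0 : ℝ) 1, HasDerivAt (fun ρ => - κ (ρ ^ 2)) (h ρ) ρ := by
        intro ρ _
        have e1 : HasDerivAt (fun ρ : ℝ => ρ ^ 2) (2 * ρ) ρ := by simpa using hasDerivAt_pow 2 ρ
        have e2 : HasDerivAt κ (deriv κ (ρ ^ 2)) (ρ ^ 2) :=
          (hκ.differentiable (by norm_num) _).hasDerivAt
        have e3 := (HasDerivAt.comp (h := fun ρ : ℝ => ρ ^ 2) ρ e2 e1).neg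
        refine e3.congr_deriv ?_
        rw [hh]
        ring
      rw [intervalIntegral.integral_eq_sub_of_hasDerivAt hd (hhc.intervalIntegrable _ _)]
      norm_num
      ring
    rw [intervalIntegral.integral_of_le zero_le_one, integral_Ioc_eq_integral_Ioo] at h1
    rw [← ofReal_integral_eq_lintegral_ofReal, h1]
    · exact ENNReal.ofReal_le_one.2 h01
    · have : IntegrableOn h (Icc 0 1) := hhc.integrableOn_Icc
      exact this.mono_set Ioo_subset_Icc_self
    · refine (ae_restrict_iff' measurableSet_Ioo).2 (Filter.Eventually.of_forall fun ρ hρ => ?_)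
      have h2 : 0 ≤ - deriv κ (ρ ^ 2) := by linarith [hneg (ρ ^ 2)]
      have h3 := hρ.1
      change 0 ≤ - deriv κ (ρ ^ 2) * (2 * ρ)
      positivity
  have hmain : ∫⁻ z, ‖fderiv ℝ (fun z : W b => κ (‖z.fst‖ ^ 2)) z (φ z)‖ₑ ≤
      ENNReal.ofReal (vb b ε * (2 * Real.pi * r * (1 - s) ^ b)) := by
    calc ∫⁻ z, ‖fderiv ℝ (fun z : W b => κ (‖z.fst‖ ^ 2)) z (φ z)‖ₑ
        ≤ ∫⁻ z, (Om b ε).indicator (fun z => ENNReal.ofReal (h ‖z.fst‖)) z := lintegral_mono hle
      _ = ENNReal.ofReal (vb b ε) * (ENNReal.ofReal (2 * Real.pi) *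
            ∫⁻ ρ in Ioo (0 : ℝ) 1, ENNReal.ofReal (h ρ) * ENNReal.ofReal (ρ * (1 - ρ) ^ b)) := by
          rw [lintegral_indicator (measurableSet_Om b ε)]
          exact rad b ε hb hε (fun ρ => ENNReal.ofReal (h ρ)) (by fun_prop)
      _ ≤ ENNReal.ofReal (vb b ε) * (ENNReal.ofReal (2 * Real.pi) *
            ∫⁻ ρ in Ioo (0 : ℝ) 1, ENNReal.ofReal (h ρ) * ENNReal.ofReal (r * (1 - s) ^ b)) := by
          gcongr _ * (_ * ?_)
          refine setLIntegral_mono' measurableSet_Ioo fun ρ hρ => ?_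
          by_cases hc : ρ ^ 2 < s ^ 2 ∨ r ^ 2 < ρ ^ 2
          · have : h ρ = 0 := by
              rw [hh]
              simp [hout _ hc]
            rw [this]
            simp
          · push Not at hc
            have h1 : s ≤ ρ := by
              have := hρ.1
              nlinarith [hc.1]
            have h2 : ρ ≤ r := by
              have := hρ.1
              nlinarith [hc.2]
            have h3 : 0 ≤ 1 - ρ := by linarith [hρ.2]
            gcongr
      _ = ENNReal.ofReal (vb b ε) * (ENNReal.ofReal (2 * Real.pi) *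
            ((∫⁻ ρ in Ioo (0 : ℝ) 1, ENNReal.ofReal (h ρ)) * ENNReal.ofReal (r * (1 - s) ^ b))) := by
          rw [lintegral_mul_const _ (by fun_prop)]
      _ ≤ ENNReal.ofReal (vb b ε) * (ENNReal.ofReal (2 * Real.pi) *
            (1 * ENNReal.ofReal (r * (1 - s) ^ b))) := by
          gcongr
      _ = ENNReal.ofReal (vb b ε * (2 * Real.pi * r * (1 - s) ^ b)) := by
          rw [one_mul, ← ENNReal.ofReal_mul (by positivity), ← ENNReal.ofReal_mul hvb.le]
          congr 1
          ring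
  have h1s : 0 ≤ 1 - s := by linarith
  calc - ∫ z, fderiv ℝ (fun z : W b => κ (‖z.fst‖ ^ 2)) z (φ z)
      ≤ ‖∫ z, fderiv ℝ (fun z : W b => κ (‖z.fst‖ ^ 2)) z (φ z)‖ := by
        rw [Real.norm_eq_abs]
        exact neg_le_abs _
    _ ≤ (∫⁻ z, ‖fderiv ℝ (fun z : W b => κ (‖z.fst‖ ^ 2)) z (φ z)‖ₑ).toReal := by
        refine (norm_integral_le_lintegral_norm (μ := (volume : Measure (W b)))
          (fun z => fderiv ℝ (fun z : W b => κ (‖z.fst‖ ^ 2)) z (φ z))).trans_eq ?_
        simp_rw [ofReal_norm_eq_enorm]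
    _ ≤ vb b ε * (2 * Real.pi * r * (1 - s) ^ b) := by
        apply ENNReal.toReal_le_of_le_ofReal _ hmain
        positivity

/-- **T3.** -/
theorem t3 : S_T3 := by
  intro b ε r hb hε hr0 hr1 φ hφ
  set A : Set (W b) := {z | z ∈ Om b ε ∧ ‖z.fst‖ < r} with hA
  set A' : Set (W b) := {z | ‖z.fst‖ < r} with hA'
  have hA'm : MeasurableSet A' := (isOpen_lt (by fun_prop) continuous_const).measurableSet
  have hAm : MeasurableSet A := (measurableSet_Om b ε).inter hA'm
  have e0 : ∫ z in A, dv φ z = ∫ z, A'.indicator (fun _ => (1 : ℝ)) z * dv φ z := by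
    rw [← integral_indicator hAm]
    congr 1
    funext z
    by_cases hz : z ∈ A'
    · rw [indicator_of_mem hz, one_mul]
      by_cases hz2 : z ∈ Om b ε
      · rw [indicator_of_mem (show z ∈ A from ⟨hz2, hz⟩)]
      · rw [indicator_of_notMem (fun h : z ∈ A => hz2 h.1)]
        exact (Div.dv_eq_zero_of_notMem fun h => hz2 (hφ.sub h)).symm
    · rw [indicator_of_notMem hz, indicator_of_notMem (fun h : z ∈ A => hz h.2), zero_mul]
  rw [e0]
  set sn : ℕ → ℝ := fun n => r * (1 - 1 / ((n : ℝ) + 1)) with hsn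
  have hlim0 : Tendsto (fun n : ℕ => 1 - 1 / ((n : ℝ) + 1)) atTop (𝓝 (1 - 0)) :=
    tendsto_one_div_add_atTop_nhds_zero_nat.const_sub 1
  have hslim : Tendsto sn atTop (𝓝 r) := by
    have := hlim0.const_mul r
    simpa only [sub_zero, mul_one] using this
  have hs0 : ∀ n, 0 ≤ sn n := by
    intro n
    have h1 : 1 / ((n : ℝ) + 1) ≤ 1 := by
      rw [div_le_one (by positivity)]
      have : (0 : ℝ) ≤ n := Nat.cast_nonneg n
      linarith
    exact mul_nonneg hr0.le (by linarith)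
  have hs1 : ∀ n, sn n < r := by
    intro n
    have h1 : 0 < 1 / ((n : ℝ) + 1) := by positivity
    have : r * (1 - 1 / ((n : ℝ) + 1)) < r * 1 := by gcongr; linarith
    simpa only [mul_one] using this
  set κ : ℕ → ℝ → ℝ := fun n t => Real.smoothTransition ((r ^ 2 - t) / (r ^ 2 - sn n ^ 2)) with hκ
  have hden : ∀ n, 0 < r ^ 2 - sn n ^ 2 := by
    intro n
    have := hs0 n
    have := hs1 n
    nlinarith
  have hκ1 : ∀ n t, t ≤ sn n ^ 2 → κ n t = 1 := by
    intro n t ht
    apply Real.smoothTransition.one_of_one_le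
    rw [one_le_div (hden n)]
    linarith
  have hκ0 : ∀ n t, r ^ 2 ≤ t → κ n t = 0 := by
    intro n t ht
    apply Real.smoothTransition.zero_of_nonpos
    apply div_nonpos_of_nonpos_of_nonneg
    · linarith
    · exact (hden n).le
  have hκc : ∀ n, ContDiff ℝ 1 (κ n) := by
    intro n
    have h1 : ContDiff ℝ 1 Real.smoothTransition := Real.smoothTransition.contDiff (n := 1)
    have h2 : ContDiff ℝ 1 fun t : ℝ => (r ^ 2 - t) / (r ^ 2 - sn n ^ 2) := by fun_prop
    exact h1.comp h2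
  have hκa : ∀ n, Antitone (κ n) := by
    intro n t t' htt
    apply Real.smoothTransition.monotone
    apply div_le_div_of_nonneg_right _ (hden n).le
    linarith
  have hkey : ∀ n, ∫ z, κ n (‖z.fst‖ ^ 2) * dv φ z ≤
      vb b ε * (2 * Real.pi * r * (1 - sn n) ^ b) := by
    intro n
    apply cyl_aux hb hε (hs0 n) (hs1 n) hr1 (hκc n) (fun t => (hκa n).deriv_nonpos) _ _ hφ
    · rintro t (ht | ht)
      · have : κ n =ᶠ[𝓝 t] fun _ => 1 := by
          filter_upwards [Iio_mem_nhds ht] with x hx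
          exact hκ1 n x (le_of_lt hx)
        rw [this.deriv_eq, deriv_const]
      · have : κ n =ᶠ[𝓝 t] fun _ => 0 := by
          filter_upwards [Ioi_mem_nhds ht] with x hx
          exact hκ0 n x (le_of_lt hx)
        rw [this.deriv_eq, deriv_const]
    · have h1 : κ n 0 ≤ 1 := Real.smoothTransition.le_one _
      have h2 : 0 ≤ κ n 1 := Real.smoothTransition.nonneg _
      linarith
  have hL : Tendsto (fun n => ∫ z, κ n (‖z.fst‖ ^ 2) * dv φ z) atTop
      (𝓝 (∫ z, A'.indicator (fun _ => (1 : ℝ)) z * dv φ z)) := by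
    apply tendsto_integral_of_dominated_convergence (fun z => ‖dv φ z‖)
    · intro n
      apply Continuous.aestronglyMeasurable
      exact (contDiff_rad (hκc n)).continuous.mul (Div.continuous_dv hφ.c1)
    · exact (Div.integrable_dv hφ.c1 hφ.cs).norm
    · intro n
      refine Filter.Eventually.of_forall fun z => ?_
      rw [norm_mul]
      have h1 : ‖κ n (‖z.fst‖ ^ 2)‖ ≤ 1 := by
        rw [Real.norm_of_nonneg (Real.smoothTransition.nonneg _)]
        exact Real.smoothTransition.le_one _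
      have h2 := norm_nonneg (dv φ z)
      nlinarith
    · refine Filter.Eventually.of_forall fun z => ?_
      by_cases hz : z ∈ A'
      · have hz' : ‖z.fst‖ < r := hz
        rw [indicator_of_mem hz]
        have : ∀ᶠ n in atTop, κ n (‖z.fst‖ ^ 2) * dv φ z = 1 * dv φ z := by
          filter_upwards [hslim.eventually (Ioi_mem_nhds hz')] with n hn
          rw [hκ1 n _ (by
            have h1 := norm_nonneg z.fst
            have h2 : ‖z.fst‖ < sn n := hn
            nlinarith)]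
        exact tendsto_const_nhds.congr' (by filter_upwards [this] with n hn using hn.symm)
      · have hz' : r ≤ ‖z.fst‖ := not_lt.1 hz
        rw [indicator_of_notMem hz]
        have : ∀ n, κ n (‖z.fst‖ ^ 2) * dv φ z = 0 * dv φ z := by
          intro n
          rw [hκ0 n _ (by nlinarith)]
        simp only [this]
        exact tendsto_const_nhds
  have hR : Tendsto (fun n => vb b ε * (2 * Real.pi * r * (1 - sn n) ^ b)) atTop
      (𝓝 (vb b ε * (2 * Real.pi * r * (1 - r) ^ b))) :=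
    (((hslim.const_sub 1).pow b).const_mul _).const_mul _
  exact le_of_tendsto_of_tendsto' hL hR hkey

end Pool.Agent.X192.HV
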