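import Pool.Agent.X192.HV.Fub

set_option autoImplicit false

/-! # Volumes -/

namespace Pool.Agent.X192.HV

open Pool.Agent.TH703.Cone MeasureTheory Set Metric
open scoped ENNReal

/-- the mass function of the radius -/
noncomputable def Um (b : ℕ) (r : ℝ) : ℝ :=
  (1 - (1 - r) ^ (b + 1) * (1 + (b + 1) * r)) / ((b + 1) * (b + 2))

lemma hasDerivAt_Um (b : ℕ) (r : ℝ) : HasDerivAt (Um b) (r * (1 - r) ^ b) r := by
  unfold Um
  have h1 : HasDerivAt (fun r : ℝ => 1 - r) (-1) r := by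
    simpa using (hasDerivAt_id r).const_sub 1
  have h2 : HasDerivAt (fun r : ℝ => (1 - r) ^ (b + 1)) (((b + 1 : ℕ) : ℝ) * (1 - r) ^ b * (-1)) r := by
    exact h1.pow (b + 1)
  have h3 : HasDerivAt (fun r : ℝ => 1 + ((b : ℝ) + 1) * r) ((b : ℝ) + 1) r := by
    simpa using ((hasDerivAt_id r).const_mul ((b : ℝ) + 1)).const_add 1
  have h4 := ((h2.mul h3).const_sub 1).div_const (((b : ℝ) + 1) * (b + 2))
  refine h4.congr_deriv ?_
  have hb1 : ((b : ℝ) + 1) ≠ 0 := by positivity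
  have hb2 : ((b : ℝ) + 2) ≠ 0 := by positivity
  push_cast
  field_simp
  ring

lemma Um_zero (b : ℕ) : Um b 0 = 0 := by simp [Um]

lemma Um_one (b : ℕ) : Um b 1 = 1 / ((b + 1) * (b + 2)) := by simp [Um]

lemma continuous_Um (b : ℕ) : Continuous (Um b) := by
  unfold Um
  fun_prop

lemma integral_rho (b : ℕ) (r : ℝ) : ∫ ρ in (0 : ℝ)..r, ρ * (1 - ρ) ^ b = Um b r := by
  rw [intervalIntegral.integral_eq_sub_of_hasDerivAt (f := Um b) (fun x _ => hasDerivAt_Um b x)]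
  · rw [Um_zero, sub_zero]
  · apply Continuous.intervalIntegrable
    fun_prop

lemma lintegral_rho (b : ℕ) {r : ℝ} (h0 : 0 ≤ r) (h1 : r ≤ 1) :
    ∫⁻ ρ in Ioo (0 : ℝ) r, ENNReal.ofReal (ρ * (1 - ρ) ^ b) = ENNReal.ofReal (Um b r) := by
  rw [← integral_rho, intervalIntegral.integral_of_le h0, ← integral_Ioc_eq_integral_Ioo.symm]
  rw [← ofReal_integral_eq_lintegral_ofReal]
  · have : IntegrableOn (fun ρ : ℝ => ρ * (1 - ρ) ^ b) (Icc 0 r) := by
      apply Continuous.integrableOn_Icc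
      fun_prop
    exact this.mono_set Ioo_subset_Icc_self
  · refine (ae_restrict_iff' measurableSet_Ioo).2 (Filter.Eventually.of_forall fun ρ hρ => ?_)
    exact mul_nonneg hρ.1.le (pow_nonneg (by linarith [hρ.2]) _)

/-- volumes -/
theorem vol_lt {b : ℕ} {ε r : ℝ} (hb : 1 ≤ b) (hε : 0 < ε) (h0 : 0 ≤ r) (h1 : r ≤ 1) :
    volume {z | z ∈ Om b ε ∧ ‖z.fst‖ < r} =
      ENNReal.ofReal (vb b ε * (2 * Real.pi * Um b r)) := by
  have hm : MeasurableSet {z : W b | ‖z.fst‖ < r} := by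
    apply IsOpen.measurableSet
    exact isOpen_lt (by fun_prop) continuous_const
  have e1 : {z | z ∈ Om b ε ∧ ‖z.fst‖ < r} = {z : W b | ‖z.fst‖ < r} ∩ Om b ε := by
    ext z
    exact and_comm
  rw [e1, ← Measure.restrict_apply hm, ← lintegral_indicator_one hm]
  have e2 : ({z : W b | ‖z.fst‖ < r}.indicator (1 : W b → ℝ≥0∞)) =
      fun z => (Iio r).indicator (fun _ => (1 : ℝ≥0∞)) ‖z.fst‖ := by
    funext z
    by_cases h : ‖z.fst‖ < r
    · rw [indicator_of_mem (show z ∈ {z : W b | ‖z.fst‖ < r} from h),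
        indicator_of_mem (show ‖z.fst‖ ∈ Iio r from h)]
      rfl
    · rw [indicator_of_notMem (show z ∉ {z : W b | ‖z.fst‖ < r} from h),
        indicator_of_notMem (show ‖z.fst‖ ∉ Iio r from h)]
  rw [e2, rad b ε hb hε _ (measurable_const.indicator measurableSet_Iio)]
  have e3 : ∫⁻ ρ in Ioo (0 : ℝ) 1, (Iio r).indicator (fun _ => (1 : ℝ≥0∞)) ρ *
      ENNReal.ofReal (ρ * (1 - ρ) ^ b) = ∫⁻ ρ in Ioo (0 : ℝ) r, ENNReal.ofReal (ρ * (1 - ρ) ^ b) := by
    rw [← lintegral_indicator measurableSet_Ioo, ← lintegral_indicator measurableSet_Ioo]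
    refine lintegral_congr fun ρ => ?_
    by_cases h : ρ ∈ Ioo (0 : ℝ) r
    · rw [indicator_of_mem h, indicator_of_mem (show ρ ∈ Ioo (0 : ℝ) 1 from ⟨h.1, h.2.trans_le h1⟩),
        indicator_of_mem (show ρ ∈ Iio r from h.2), one_mul]
    · rw [indicator_of_notMem h]
      by_cases h' : ρ ∈ Ioo (0 : ℝ) 1
      · rw [indicator_of_mem h', indicator_of_notMem (show ρ ∉ Iio r from fun h2 => h ⟨h'.1, h2⟩),
          zero_mul]
      · rw [indicator_of_notMem h']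
  rw [e3, lintegral_rho b h0 h1, ← ENNReal.ofReal_mul (by positivity),
    ← ENNReal.ofReal_mul (show 0 ≤ vb b ε from measureReal_nonneg)]

lemma vb_pos {b : ℕ} {ε : ℝ} (hε : 0 < ε) : 0 < vb b ε := by
  unfold vb
  rw [Measure.real, ENNReal.toReal_pos_iff]
  exact ⟨measure_ball_pos _ _ hε, measure_ball_lt_top⟩

lemma Om_eq_lt (b : ℕ) {ε : ℝ} (hε : 0 < ε) : Om b ε = {z | z ∈ Om b ε ∧ ‖z.fst‖ < 1} := by
  ext z
  refine ⟨fun h => ⟨h, ?_⟩, fun h => h.1⟩
  have h1 : ‖z.fst‖ + ‖z.snd‖ / ε < 1 := h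
  have h2 : 0 ≤ ‖z.snd‖ / ε := by positivity
  linarith

lemma vol_Om {b : ℕ} {ε : ℝ} (hb : 1 ≤ b) (hε : 0 < ε) :
    volume (Om b ε) = ENNReal.ofReal (vb b ε * (2 * Real.pi * (1 / ((b + 1) * (b + 2))))) := by
  rw [Om_eq_lt b hε, vol_lt hb hε zero_le_one le_rfl, Um_one]

end Pool.Agent.X192.HV
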